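import Mathlib

/-!
# MP_bbea99_co: arithmetic, both conveyors and both tracks
-/

namespace MPbbea99N

lemma mul_pos_abs_lt {m y c : ℤ} (hm : 0 < m) (h1 : m * y < m * c) (h2 : -(m * c) < m * y) :
    y < c ∧ -c < y := by
  constructor
  · exact lt_of_mul_lt_mul_left h1 hm.le
  · have : m * (-c) < m * y := by rw [mul_neg]; exact h2
    exact lt_of_mul_lt_mul_left this hm.le

/-- both conveyor congruences and the `A` congruence are incompatible -/
theorem lem1 {k1 k2 r1 r2 m K0 n1 n2 Δ D h e : ℤ} (e1 : 8 * k1 + r1 = m) (e2 : 80 * k2 + r2 = m)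
    (h1 : 208000000 ≤ r1) (h2 : r1 < 208000008) (h3 : r1 + 16 ≤ r2) (h4 : r2 < r1 + 96)
    (hK : 4 ≤ K0) (hm : 10 ^ 13 * K0 ≤ m) (hD0 : 0 ≤ D) (hD : D ≤ 3 * (m * K0))
    (he : -1 ≤ e) (he' : e ≤ 1) (g1 : -(k1 - 1) ≤ n1) (g1' : n1 ≤ k1 - 1)
    (g2 : -(k2 - 1) ≤ n2) (g2' : n2 ≤ k2 - 1) (gd : -(m + 1) ≤ Δ) (gd' : Δ ≤ m + 1)
    (b1 : -(r1 + 20) ≤ 8 * n1 - Δ) (b1' : 8 * n1 - Δ ≤ r1 + 20)
    (b2 : -(r2 + 300) ≤ 80 * n2 - Δ) (b2' : 80 * n2 - Δ ≤ r2 + 300)
    (fwd : 0 ≤ Δ → n2 ≤ n1 + 1) (bwd : Δ ≤ 0 → n1 ≤ 0)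
    (wrap : Δ < 0 → (k2 - 1) + n2 ≤ (k1 - 1) + n1)
    (hα : 2 * D + Δ + e = m * h) (hd : 2 ≤ (m + 2) * D + Δ) (s1 : k1 ∣ n1 - D)
    (s2 : k2 ∣ n2 - D) : False := by
  obtain ⟨c1, hc1⟩ := s1
  obtain ⟨c2, hc2⟩ := s2
  obtain ⟨z1, hz1⟩ : ∃ z1, z1 = -c1 := ⟨_, rfl⟩
  obtain ⟨z2, hz2⟩ : ∃ z2, z2 = -c2 := ⟨_, rfl⟩
  have hc1' : D = n1 + k1 * z1 := by rw [hz1, mul_neg]; linarith
  have hc2' : D = n2 + k2 * z2 := by rw [hz2, mul_neg]; linarith
  clear hc1 hc2 hz1 hz2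
  have hk1 : 0 < k1 := by omega
  have hk2 : 0 < k2 := by omega
  have hm0 : 0 < m := by omega
  -- bounds for z1, z2
  have m1 : m ≤ 9 * k1 := by omega
  have m2 : m ≤ 81 * k2 := by omega
  have mK1 : m * K0 ≤ 9 * (k1 * K0) := by nlinarith
  have mK2 : m * K0 ≤ 81 * (k2 * K0) := by nlinarith
  have z1l : 0 ≤ z1 := by
    by_contra hcon
    have : k1 * z1 ≤ k1 * (-1) := mul_le_mul_of_nonneg_left (by omega) hk1.le
    omega
  have z2l : 0 ≤ z2 := by
    by_contra hcon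
    have : k2 * z2 ≤ k2 * (-1) := mul_le_mul_of_nonneg_left (by omega) hk2.le
    omega
  have z1u : z1 ≤ 27 * K0 + 1 := by
    by_contra hcon
    have : k1 * (27 * K0 + 2) ≤ k1 * z1 := mul_le_mul_of_nonneg_left (by omega) hk1.le
    have e : k1 * (27 * K0 + 2) = 27 * (k1 * K0) + 2 * k1 := by ring
    omega
  have z2u : z2 ≤ 243 * K0 + 1 := by
    by_contra hcon
    have : k2 * (243 * K0 + 2) ≤ k2 * z2 := mul_le_mul_of_nonneg_left (by omega) hk2.le
    have e : k2 * (243 * K0 + 2) = 243 * (k2 * K0) + 2 * k2 := by ring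
    omega
  have rz1 : r1 * z1 ≤ 208000008 * z1 := mul_le_mul_of_nonneg_right (by omega) z1l
  have rz1' : 0 ≤ r1 * z1 := mul_nonneg (by omega) z1l
  have rz2 : r2 * z2 ≤ 208000104 * z2 := mul_le_mul_of_nonneg_right (by omega) z2l
  have rz2' : 0 ≤ r2 * z2 := mul_nonneg (by omega) z2l
  have E1 : 8 * D = 8 * n1 + m * z1 - r1 * z1 := by
    have : 8 * (k1 * z1) = m * z1 - r1 * z1 := by rw [← e1]; ring
    omega
  have E2 : 80 * D = 80 * n2 + m * z2 - r2 * z2 := by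
    have : 80 * (k2 * z2) = m * z2 - r2 * z2 := by rw [← e2]; ring
    omega
  have hF : 41 * (z1 + h) = 5 * (z2 + h) := by
    have e : m * (41 * (z1 + h) - 5 * (z2 + h)) =
        41 * (m * z1) - 5 * (m * z2) + 36 * (m * h) := by ring
    have h5 := mul_pos_abs_lt (m := m) (y := 41 * (z1 + h) - 5 * (z2 + h)) (c := 1) hm0
      (by rw [e]; omega) (by rw [e]; omega)
    omega
  obtain ⟨ζ, hζ1, hζ2⟩ : ∃ ζ, z1 + h = 5 * ζ ∧ z2 + h = 41 * ζ := ⟨(z1 + h) / 5, by omega, by omega⟩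
  obtain ⟨y, hy⟩ : ∃ y, h = ζ + y := ⟨h - ζ, by ring⟩
  have hz1y : z1 = 4 * ζ - y := by omega
  have hz2y : z2 = 40 * ζ - y := by omega
  have Y1 : (m + 2 * k1) * y = 2 * n1 + Δ + e - r1 * ζ := by
    have h5 : 2 * (n1 + k1 * (4 * ζ - y)) + Δ + e = m * (ζ + y) := by
      rw [← hz1y, ← hc1', ← hy, hα]
    have h6 : 2 * (n1 + k1 * (4 * ζ - y)) = 2 * n1 + (8 * k1) * ζ - 2 * k1 * y := by ring
    have h7 : 8 * k1 = m - r1 := by omega
    rw [h6, h7] at h5
    linarith [h5]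
  have Y2 : (m + 2 * k2) * y = 2 * n2 + Δ + e - r2 * ζ := by
    have h5 : 2 * (n2 + k2 * (40 * ζ - y)) + Δ + e = m * (ζ + y) := by
      rw [← hz2y, ← hc2', ← hy, hα]
    have h6 : 2 * (n2 + k2 * (40 * ζ - y)) = 2 * n2 + (80 * k2) * ζ - 2 * k2 * y := by ring
    have h7 : 80 * k2 = m - r2 := by omega
    rw [h6, h7] at h5
    linarith [h5]
  have rζ : |ζ| ≤ 40 * K0 + |y| := by
    rw [abs_le]
    constructor
    · have := neg_abs_le y
      have := le_abs_self y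
      omega
    · have := neg_abs_le y
      have := le_abs_self y
      omega
  -- y is -1, 0 or 1
  have hy1 : -2 < y ∧ y < 2 := by
    rcases lt_trichotomy y 0 with hy0 | hy0 | hy0
    · refine ⟨?_, by omega⟩
      by_contra hcon
      have hyle : y ≤ -2 := by omega
      -- ζ ≥ 0 as z2 = 40 ζ - y bounded below, ζ ≤ ...
      have hζu : 4 * ζ ≤ 27 * K0 + 1 + y := by omega
      have h5 : r1 * ζ ≤ 208000008 * (27 * K0 + 1) := by
        rcases le_or_gt ζ 0 with h6 | h6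
        · have : r1 * ζ ≤ 0 := mul_nonpos_of_nonneg_of_nonpos (by omega) h6
          have : 0 ≤ 208000008 * (27 * K0 + 1) := by omega
          omega
        · have : r1 * ζ ≤ 208000008 * ζ := mul_le_mul_of_nonneg_right (by omega) h6.le
          omega
      have h6 : (m + 2 * k1) * y ≤ (m + 2 * k1) * (-2) :=
        mul_le_mul_of_nonneg_left hyle (by omega)
      omega
    · omega
    · refine ⟨by omega, ?_⟩
      by_contra hcon
      have hζ : 0 < ζ := by omega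
      have h5 : 0 ≤ r1 * ζ := mul_nonneg (by omega) hζ.le
      have h6 : (m + 2 * k1) * 2 ≤ (m + 2 * k1) * y :=
        mul_le_mul_of_nonneg_left (by omega) (by omega)
      omega
  have hy2 : y = -1 ∨ y = 0 ∨ y = 1 := by omega
  rcases hy2 with rfl | rfl | rfl
  · -- y = -1
    have hζ0 : 0 ≤ ζ := by omega
    rcases hζ0.eq_or_lt with h5 | h5
    · subst h5
      have h6 : z1 = 1 := by omega
      subst h6
      have h7 : n1 = -(k1 - 1) ∧ Δ = -(m + 1) := by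
        constructor <;> omega
      obtain ⟨h7, h8⟩ := h7
      have h9 : D = 1 := by omega
      subst h9
      omega
    · have h6 : (r2 - r1) * 1 ≤ (r2 - r1) * ζ := mul_le_mul_of_nonneg_left h5 (by omega)
      have h7 : (r2 - r1) * ζ = r2 * ζ - r1 * ζ := by ring
      have hΔ : Δ < 0 := by
        have h8 : ζ ≤ 27 * K0 + 1 := by omega
        have : r1 * ζ ≤ 208000008 * ζ := mul_le_mul_of_nonneg_right (by omega) h5.le
        omega
      have h8 := wrap hΔ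
      omega
  · -- y = 0
    have hζ0 : 0 ≤ ζ := by omega
    rcases hζ0.eq_or_lt with h5 | h5
    · subst h5
      have h6 : z1 = 0 := by omega
      subst h6
      have h7 : D = n1 := by omega
      rcases hD0.eq_or_lt with h8 | h8
      · rw [← h8] at hd
        omega
      · have h9 := bwd (by omega)
        omega
    · have h6 : (r2 - r1) * 1 ≤ (r2 - r1) * ζ := mul_le_mul_of_nonneg_left h5 (by omega)
      have h7 : (r2 - r1) * ζ = r2 * ζ - r1 * ζ := by ring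
      have h8 : r1 * 1 ≤ r1 * ζ := mul_le_mul_of_nonneg_left h5 (by omega)
      rcases le_or_gt 0 Δ with h9 | h9
      · have := fwd h9
        omega
      · have := bwd h9.le
        omega
  · -- y = 1
    have hζ0 : 0 < ζ := by omega
    have h5 : r1 * 1 ≤ r1 * ζ := mul_le_mul_of_nonneg_left hζ0 (by omega)
    omega

end MPbbea99N
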