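import Mathlib

/-!
# MP_bbea99_co: arithmetic of the conveyors
-/

namespace MPbbea99N

/-- two conveyor congruences with at most one visit of difference -/
theorem lem4 {k1 k2 r1 r2 m K0 x1 x2 D : ℤ} (e1 : 8 * k1 + r1 = m) (e2 : 80 * k2 + r2 = m)
    (h1 : 208000000 ≤ r1) (h2 : r1 < 208000008) (h3 : r1 + 16 ≤ r2) (h4 : r2 < r1 + 96)
    (hK : 4 ≤ K0) (hm : 10 ^ 13 * K0 ≤ m) (hD1 : 1 ≤ D) (hD : D ≤ 3 * (m * K0))
    (hx : (x1 = 0 ∧ -1 ≤ x2 ∧ x2 ≤ 1) ∨ (x2 = 0 ∧ -1 ≤ x1 ∧ x1 ≤ 1))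
    (s1 : k1 ∣ x1 - D) (s2 : k2 ∣ x2 - D) : False := by
  obtain ⟨c1, hc1⟩ := s1
  obtain ⟨c2, hc2⟩ := s2
  obtain ⟨z1, hz1⟩ : ∃ z1, z1 = -c1 := ⟨_, rfl⟩
  obtain ⟨z2, hz2⟩ : ∃ z2, z2 = -c2 := ⟨_, rfl⟩
  have hc1' : D = x1 + k1 * z1 := by rw [hz1, mul_neg]; linarith
  have hc2' : D = x2 + k2 * z2 := by rw [hz2, mul_neg]; linarith
  clear hc1 hc2 hz1 hz2
  have hk1 : 0 < k1 := by omega
  have hk2 : 0 < k2 := by omega
  have m1 : m ≤ 9 * k1 := by omega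
  have mK1 : m * K0 ≤ 9 * (k1 * K0) := by nlinarith
  have z1l : 0 ≤ z1 := by
    by_contra hcon
    have : k1 * z1 ≤ k1 * (-1) := mul_le_mul_of_nonneg_left (by omega) hk1.le
    omega
  have z1u : z1 ≤ 27 * K0 + 1 := by
    by_contra hcon
    have : k1 * (27 * K0 + 2) ≤ k1 * z1 := mul_le_mul_of_nonneg_left (by omega) hk1.le
    have e : k1 * (27 * K0 + 2) = 27 * (k1 * K0) + 2 * k1 := by ring
    omega
  obtain ⟨ρ, hρ⟩ : ∃ ρ, k1 = 10 * k2 + ρ := ⟨k1 - 10 * k2, by ring⟩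
  have hρ2 : 2 ≤ ρ := by omega
  have hρ12 : ρ < 12 := by omega
  have hρz : ρ * z1 ≤ 12 * z1 := mul_le_mul_of_nonneg_right hρ12.le z1l
  have hρz' : 2 * z1 ≤ ρ * z1 := mul_le_mul_of_nonneg_right hρ2 z1l
  have hmain : k2 * (z2 - 10 * z1) = x1 - x2 + ρ * z1 := by
    have h5 : x1 + k1 * z1 = x2 + k2 * z2 := by rw [← hc1', ← hc2']
    rw [hρ] at h5
    linarith [h5]
  have h6 : z2 - 10 * z1 = 0 := by
    have h7 : z2 - 10 * z1 < 1 := by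
      by_contra hcon
      have : k2 * 1 ≤ k2 * (z2 - 10 * z1) := mul_le_mul_of_nonneg_left (by omega) hk2.le
      omega
    have h8 : -1 < z2 - 10 * z1 := by
      by_contra hcon
      have : k2 * (z2 - 10 * z1) ≤ k2 * (-1) := mul_le_mul_of_nonneg_left (by omega) hk2.le
      omega
    omega
  rw [h6, mul_zero] at hmain
  have h7 : z1 = 0 := by omega
  subst h7
  have h8 : z2 = 0 := by omega
  subst h8
  omega

lemma quot_small {k n D c : ℤ} (hk : 0 < k) (hc : n - D = k * c) (h1 : -(k - 1) ≤ n)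
    (h1' : n ≤ k - 1) (hD0 : 0 ≤ D) (hD : D < k) : n = D ∨ n = D - k := by
  have h2 : c < 1 := by
    by_contra hcon
    have : k * 1 ≤ k * c := mul_le_mul_of_nonneg_left (by omega) hk.le
    omega
  have h3 : -2 < c := by
    by_contra hcon
    have : k * c ≤ k * (-2) := mul_le_mul_of_nonneg_left (by omega) hk.le
    omega
  have h4 : c = 0 ∨ c = -1 := by omega
  rcases h4 with rfl | rfl
  · left; omega
  · right; omega

/-- both conveyor congruences for windows outside the seam -/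
theorem lem2 {k1 k2 r1 r2 m n1 n2 Δ D : ℤ} (e1 : 8 * k1 + r1 = m) (e2 : 80 * k2 + r2 = m)
    (h1 : 208000000 ≤ r1) (h2 : r1 < 208000008) (h3 : r1 + 16 ≤ r2) (h4 : r2 < r1 + 96)
    (hm : 10 ^ 13 * 4 ≤ m) (hD0 : 0 ≤ D) (hD : 200 * D ≤ m) (g1 : -(k1 - 1) ≤ n1)
    (g1' : n1 ≤ k1 - 1) (g2 : -(k2 - 1) ≤ n2) (g2' : n2 ≤ k2 - 1)
    (b1 : -20 ≤ 8 * n1 - Δ) (b1' : 8 * n1 - Δ ≤ 20)
    (b2 : -300 ≤ 80 * n2 - Δ) (b2' : 80 * n2 - Δ ≤ 300)
    (s1 : k1 ∣ n1 - D) (s2 : k2 ∣ n2 - D) : D ≤ 100 := by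
  obtain ⟨c1, hc1⟩ := s1
  obtain ⟨c2, hc2⟩ := s2
  rcases quot_small (by omega) hc1 g1 g1' hD0 (by omega) with h5 | h5 <;>
  rcases quot_small (by omega) hc2 g2 g2' hD0 (by omega) with h6 | h6 <;> omega

/-- the first conveyor and track `A`, outside the seam -/
theorem lem3 {k1 r1 m n1 Δ D h e : ℤ} (e1 : 8 * k1 + r1 = m)
    (h1 : 208000000 ≤ r1) (h2 : r1 < 208000008)
    (hm : 10 ^ 13 * 4 ≤ m) (hD0 : 0 ≤ D) (hD : 200 * D ≤ m) (he : -1 ≤ e) (he' : e ≤ 1)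
    (g1 : -(k1 - 1) ≤ n1) (g1' : n1 ≤ k1 - 1)
    (b1 : -20 ≤ 8 * n1 - Δ) (b1' : 8 * n1 - Δ ≤ 20)
    (hα : 2 * D + Δ + e = m * h) (s1 : k1 ∣ n1 - D) : D ≤ 100 := by
  obtain ⟨c1, hc1⟩ := s1
  by_contra hcon
  rcases quot_small (by omega) hc1 g1 g1' hD0 (by omega) with h5 | h5
  · rcases lt_or_ge h 1 with h6 | h6
    · have : m * h ≤ m * 0 := mul_le_mul_of_nonneg_left (by omega) (by omega)
      omega
    · have : m * 1 ≤ m * h := mul_le_mul_of_nonneg_left (by omega) (by omega)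
      omega
  · rcases lt_or_ge h 0 with h6 | h6
    · have : m * h ≤ m * (-1) := mul_le_mul_of_nonneg_left (by omega) (by omega)
      omega
    · have : m * 0 ≤ m * h := mul_le_mul_of_nonneg_left (by omega) (by omega)
      omega

/-- the second conveyor and track `A`, outside the seam -/
theorem lem3' {k2 r2 m n2 Δ D h e : ℤ} (e2 : 80 * k2 + r2 = m)
    (h1 : 208000016 ≤ r2) (h2 : r2 < 208000104)
    (hm : 10 ^ 13 * 4 ≤ m) (hD0 : 0 ≤ D) (hD : 200 * D ≤ m) (he : -1 ≤ e) (he' : e ≤ 1)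
    (g2 : -(k2 - 1) ≤ n2) (g2' : n2 ≤ k2 - 1)
    (b2 : -300 ≤ 80 * n2 - Δ) (b2' : 80 * n2 - Δ ≤ 300)
    (hα : 2 * D + Δ + e = m * h) (s2 : k2 ∣ n2 - D) : D ≤ 100 := by
  obtain ⟨c2, hc2⟩ := s2
  by_contra hcon
  rcases quot_small (by omega) hc2 g2 g2' hD0 (by omega) with h5 | h5
  · rcases lt_or_ge h 1 with h6 | h6
    · have : m * h ≤ m * 0 := mul_le_mul_of_nonneg_left (by omega) (by omega)
      omega
    · have : m * 1 ≤ m * h := mul_le_mul_of_nonneg_left (by omega) (by omega)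
      omega
  · rcases lt_or_ge h 0 with h6 | h6
    · have : m * h ≤ m * (-1) := mul_le_mul_of_nonneg_left (by omega) (by omega)
      omega
    · have : m * 0 ≤ m * h := mul_le_mul_of_nonneg_left (by omega) (by omega)
      omega

end MPbbea99N
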