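import Pool.Agent.Lib.Pbbea99N.Ar2

/-!
# MP_bbea99_co: complete windows and windows of one letter
-/

namespace MPbbea99N

/-- quotient for windows which are complete for a conveyor -/
lemma quot_K {k w K c : ℤ} (hk : 0 < k) (hc : w - K = k * c) (h1 : -(k - 1) ≤ w)
    (h1' : w ≤ k - 1) (hK0 : 0 ≤ K) (hK : K < k) : w = K ∨ w = K - k :=
  quot_small hk hc h1 h1' hK0 hK

/-- windows which are complete for both conveyors -/
theorem arc_both {k1 k2 r1 r2 m : ℕ} (e1 : 8 * k1 + r1 = m) (e2 : 80 * k2 + r2 = m)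
    (h1 : 208000000 ≤ r1) (h2 : r1 < 208000008) (h3 : r1 + 16 ≤ r2) (h4 : r2 < r1 + 96)
    (hm : 10 ^ 13 * 4 ≤ m) {K v v2 : ℕ} (hK : 1000 * K ≤ k2) (hv : v < m + 2) (hv2 : v2 < m + 2)
    (hb : 1 ≤ (m + 2 : ℤ) * K + v2 - v)
    (w1 : (k1 : ℤ) ∣ ((min (k1 - 1) ((v2 + 6) / 8) : ℕ) : ℤ) -
      ((min (k1 - 1) ((v + 6) / 8) : ℕ) : ℤ) - K)
    (w2 : (k2 : ℤ) ∣ ((min (k2 - 1) ((v2 + 36) / 80) : ℕ) : ℤ) -
      ((min (k2 - 1) ((v + 36) / 80) : ℕ) : ℤ) - K) :
    (K = 1 ∧ v ≤ v2 ∧ v2 ≤ 8 * (k1 - 1) ∧ v2 ≤ v + 16) ∨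
      (m + 2 : ℤ) * K + v2 - v ≤ r1 + 30 := by
  obtain ⟨c1, hc1⟩ := w1
  obtain ⟨c2, hc2⟩ := w2
  have hk1 : 1000 ≤ k1 := by omega
  have hk2 : 1000 ≤ k2 := by omega
  have q1 := quot_K (by omega) hc1 (by omega) (by omega) (by omega) (by omega)
  have q2 := quot_K (by omega) hc2 (by omega) (by omega) (by omega) (by omega)
  rcases Nat.lt_or_ge K 1 with hK0 | hK1
  · have hK0' : K = 0 := by omega
    subst hK0'
    right
    simp only [Nat.cast_zero, mul_zero, zero_add] at hb ⊢
    rcases q1 with q1 | q1 <;> omega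
  · rcases Nat.lt_or_ge K 2 with hK2 | hK2
    · have hK1' : K = 1 := by omega
      subst hK1'
      simp only [Nat.cast_one, mul_one] at hb q1 q2 ⊢
      rcases Nat.lt_or_ge v2 v with h5 | h5
      · right
        rcases q1 with q1 | q1 <;> rcases q2 with q2 | q2 <;> omega
      · left
        have q1' : (min (k1 - 1) ((v2 + 6) / 8) : ℕ) = min (k1 - 1) ((v + 6) / 8) + 1 := by
          rcases q1 with q1 | q1 <;> omega
        have q2' : (min (k2 - 1) ((v2 + 36) / 80) : ℕ) = min (k2 - 1) ((v + 36) / 80) + 1 := by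
          rcases q2 with q2 | q2 <;> omega
        clear q1 q2 hc1 hc2
        have h6 : (v + 36) / 80 < k2 - 1 := by omega
        have h7 : (v + 6) / 8 < k1 - 1 := by omega
        have h8 : v ≤ 80 * k2 := by omega
        rcases Nat.lt_or_ge ((v2 + 6) / 8) (k1 - 1) with h9 | h9
        · exact ⟨trivial, h5, by omega, by omega⟩
        · exfalso
          have h10 : (v + 6) / 8 + 1 = k1 - 1 := by omega
          omega
    · exfalso
      rcases q1 with q1 | q1 <;> rcases q2 with q2 | q2 <;> omega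

/-- windows of one letter, register letters -/
theorem b_one_S {m Δ D h e : ℤ} (hm : 10 ^ 13 * 4 ≤ m) (hD0 : 0 ≤ D) (hD : D ≤ 3)
    (he : -1 ≤ e) (he' : e ≤ 1) (h8 : (8 : ℤ) ∣ Δ) (b : -208000000 ≤ Δ) (b' : Δ ≤ 208000000)
    (hα : 2 * D + Δ + e = m * h) (hd : 1 ≤ (m + 2) * D + Δ) : False := by
  have h6 : h < 1 := by
    by_contra hcon
    have : m * 1 ≤ m * h := mul_le_mul_of_nonneg_left (by omega) (by omega)
    omega
  have h7 : -1 < h := by
    by_contra hcon
    have : m * h ≤ m * (-1) := mul_le_mul_of_nonneg_left (by omega) (by omega)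
    omega
  have h9 : h = 0 := by omega
  subst h9
  rcases hD0.eq_or_lt with h10 | h10
  · subst h10
    omega
  · omega

/-- windows of one letter, conveyor letters with slot distance `g` -/
theorem b_one_Y {k r m g Δ D n h e : ℤ} (e1 : g * k + r = m) (hm : 10 ^ 13 * 4 ≤ m)
    (hg : g = 8 ∨ g = 80)
    (hr : 208000000 ≤ r) (hr' : r < 208000104) (hD0 : 0 ≤ D) (hD : D ≤ 3)
    (he : -1 ≤ e) (he' : e ≤ 1) (hn : g * n = Δ) (g1 : -(k - 2) ≤ n) (g1' : n ≤ k - 2)
    (hα : 2 * D + Δ + e = m * h) (hd : 1 ≤ (m + 2) * D + Δ) (s : k ∣ n - D) : False := by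
  obtain ⟨c, hc⟩ := s
  have hk : 1000 ≤ k := by rcases hg with rfl | rfl <;> omega
  have q := quot_small (by omega) hc (by omega) (by omega) hD0 (by omega)
  rcases q with q | q
  · subst q
    have h6 : h < 1 := by
      by_contra hcon
      have : m * 1 ≤ m * h := mul_le_mul_of_nonneg_left (by omega) (by omega)
      rcases hg with rfl | rfl <;> omega
    have h7 : -1 < h := by
      by_contra hcon
      have : m * h ≤ m * (-1) := mul_le_mul_of_nonneg_left (by omega) (by omega)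
      rcases hg with rfl | rfl <;> omega
    have h9 : h = 0 := by omega
    subst h9
    rcases hD0.eq_or_lt with h10 | h10
    · subst h10
      rcases hg with rfl | rfl <;> omega
    · rcases hg with rfl | rfl <;> omega
  · subst q
    have h6 : h < 0 := by
      by_contra hcon
      have : m * 0 ≤ m * h := mul_le_mul_of_nonneg_left (by omega) (by omega)
      rcases hg with rfl | rfl <;> omega
    have h7 : -1 < h := by
      by_contra hcon
      have : m * h ≤ m * (-1) := mul_le_mul_of_nonneg_left (by omega) (by omega)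
      rcases hg with rfl | rfl <;> omega
    omega

end MPbbea99N
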