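import Pool.Agent.Lib.Pbbea99N.Ar3

/-!
# MP_bbea99_co: integer data of two windows
-/

namespace MPbbea99N

lemma lap_nonneg {m K w : ℤ} (hm : 0 < m) (h : 1 ≤ (m + 2) * K + w) (hw : w ≤ m + 1) :
    0 ≤ K := by
  by_contra hcon
  have : (m + 2) * K ≤ (m + 2) * (-1) := mul_le_mul_of_nonneg_left (by omega) (by omega)
  omega

lemma prel_int {m K D v v2 v' b K0 : ℤ} (hm : 40000000000000 ≤ m) (hv0 : 0 ≤ v)
    (hv : v < m + 2) (hv20 : 0 ≤ v2) (hv2 : v2 < m + 2) (hv'0 : 0 ≤ v') (hv' : v' < m + 2)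
    (c1 : b = (m + 2) * K + v2 - v) (hb1 : 1 ≤ b) (c2 : b ≤ (m + 2) * D + (v' - v))
    (c3 : (m + 2) * D + (v' - v) ≤ m * (2 * b + 1)) (hK : K ≤ K0 - 4) :
    0 ≤ K ∧ 0 ≤ D ∧ D ≤ 3 * (m * K0) := by
  have hK0 : 0 ≤ K := lap_nonneg (m := m) (w := v2 - v) (by omega) (by linarith) (by omega)
  have hD0 : 0 ≤ D := lap_nonneg (m := m) (w := v' - v) (by omega) (by linarith) (by omega)
  refine ⟨hK0, hD0, ?_⟩
  have hX : 0 ≤ m * K := mul_nonneg (by omega) hK0
  have hD1 : D ≤ 2 * (m * K) + 2 * m := by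
    by_contra hcon
    have h1 : (m + 2) * (2 * (m * K) + 2 * m + 1) ≤ (m + 2) * D :=
      mul_le_mul_of_nonneg_left (by omega) (by omega)
    have h2 : b ≤ m * K + 2 * K + m + 1 := by
      have : (m + 2) * K = m * K + 2 * K := by ring
      omega
    have h3 : m * (2 * b + 1) ≤ m * (2 * (m * K + 2 * K + m + 1) + 1) :=
      mul_le_mul_of_nonneg_left (by omega) (by omega)
    have e1 : (m + 2) * (2 * (m * K) + 2 * m + 1) =
        2 * (m * (m * K)) + 4 * (m * K) + 2 * (m * m) + 5 * m + 2 := by ring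
    have e2 : m * (2 * (m * K + 2 * K + m + 1) + 1) =
        2 * (m * (m * K)) + 4 * (m * K) + 2 * (m * m) + 3 * m := by ring
    rw [e1] at h1
    rw [e2] at h3
    clear e1 e2
    generalize m * (m * K) = x1 at *
    generalize m * K = x2 at *
    generalize m * m = x3 at *
    generalize (m + 2) * D = x4 at *
    generalize m * (2 * b + 1) = x5 at *
    omega
  have h5 : m * (K + 4) ≤ m * K0 := mul_le_mul_of_nonneg_left (by omega) (by omega)
  have h6 : m * (K + 4) = m * K + 4 * m := by ring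
  omega

/-- the number of laps of a window with `b = m j + e` -/
lemma beta_laps {m K j v v2 b K0 e : ℤ} (hm : 40000000000000 ≤ m) (hv0 : 0 ≤ v)
    (hv : v < m + 2) (hv20 : 0 ≤ v2) (hv2 : v2 < m + 2) (c1 : b = (m + 2) * K + v2 - v)
    (hK : K ≤ K0 - 4) (hK0 : 0 ≤ K) (hmK : 10000000000000 * K0 ≤ m) (hj : 1 ≤ j)
    (he : -1 ≤ e) (he' : e ≤ 1) (hβ : b = m * j + e) :
    (1 ≤ K ∧ v2 - v = -2 * K + e) ∨ v2 - v = m - 2 * K + e := by
  obtain ⟨g, hg⟩ : ∃ g, g = j - K := ⟨_, rfl⟩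
  have hmg : m * g = 2 * K + (v2 - v) - e := by
    have h1 : m * g = m * j - m * K := by rw [hg]; ring
    have h2 : (m + 2) * K = m * K + 2 * K := by ring
    omega
  have hg1 : g < 2 := by
    by_contra hcon
    have : m * 2 ≤ m * g := mul_le_mul_of_nonneg_left (by omega) (by omega)
    omega
  have hg2 : -2 < g := by
    by_contra hcon
    have : m * g ≤ m * (-2) := mul_le_mul_of_nonneg_left (by omega) (by omega)
    omega
  have h1 : g = -1 ∨ g = 0 ∨ g = 1 := by omega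
  rcases h1 with h1 | h1 | h1
  · rw [h1] at hmg; omega
  · left; rw [h1] at hmg; omega
  · right; rw [h1] at hmg; omega

/-- windows of about one period of `A` match at a distance of at most `3 m` laps -/
lemma laps_le {m D w b : ℤ} (hm : 40000000000000 ≤ m) (hw : -(m + 1) ≤ w) (hb : b ≤ 2 * m + 100)
    (h : (m + 2) * D + w ≤ m * (2 * b + 1)) : D ≤ 5 * m := by
  by_contra hcon
  have h1 : (m + 2) * (5 * m + 1) ≤ (m + 2) * D := mul_le_mul_of_nonneg_left (by omega) (by omega)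
  have h2 : m * (2 * b + 1) ≤ m * (2 * (2 * m + 100) + 1) :=
    mul_le_mul_of_nonneg_left (by omega) (by omega)
  have e1 : (m + 2) * (5 * m + 1) = 5 * (m * m) + 11 * m + 2 := by ring
  have e2 : m * (2 * (2 * m + 100) + 1) = 4 * (m * m) + 201 * m := by ring
  have e3 : 40000000000000 * m ≤ m * m := mul_le_mul_of_nonneg_right hm (by omega)
  rw [e1] at h1
  rw [e2] at h2
  clear e1 e2
  generalize m * m = x1 at *
  generalize (m + 2) * D = x2 at *
  generalize m * (2 * b + 1) = x3 at *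
  omega

end MPbbea99N
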