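import Pool.Agent.Lib.Pbbea99N.Sm1
import Pool.Agent.Lib.Pbbea99N.Ar4

/-!
# MP_bbea99_co: slots of short windows
-/

namespace MPbbea99N

open MPbbea99 MPbbea99L

namespace Prm

variable (P : Prm)

lemma a1_def (v : ℕ) : P.a1 v = min (P.k1 - 1) ((v + 6) / 8) := rfl
lemma a2_def (v : ℕ) : P.a2 v = min (P.k2 - 1) ((v + 36) / 80) := rfl

/-- windows with complete periods of `A` are not complete for the conveyors -/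
lemma nc_beta {v v2 : ℕ} {K e : ℤ} (hv : v < P.s) (hv2 : v2 < P.s) (hK0 : 0 ≤ K)
    (hK : K ≤ P.K0 - 4) (he : -1 ≤ e) (he' : e ≤ 1)
    (h : (1 ≤ K ∧ (v2 : ℤ) - v = -2 * K + e) ∨ (v2 : ℤ) - v = P.m - 2 * K + e) :
    ¬ (P.k1 : ℤ) ∣ (P.a1 v2 : ℤ) - P.a1 v - K ∧ ¬ (P.k2 : ℤ) ∣ (P.a2 v2 : ℤ) - P.a2 v - K := by
  obtain ⟨f1, f2, f3, f4, f5, f6, f7⟩ := P.facts
  obtain ⟨f8, f9⟩ := P.factsK
  rw [a1_def, a1_def, a2_def, a2_def]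
  unfold s at hv hv2
  constructor
  · intro hd
    clear f2 f5 f6
    have h1 := nd hd (by omega) (by omega)
    omega
  · intro hd
    have f9 : 208000016 ≤ P.r2 := by omega
    have f10 : P.r2 < 208000104 := by omega
    clear f1 f3 f4 f5 f6
    have h1 := nd hd (by omega) (by omega)
    omega

/-- slots of the same system -/
lemma same_sys {u u' : ℕ} (h1 : (P.a1 (u + 1) : ℤ) - P.a1 u = P.a1 (u' + 1) - P.a1 u')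
    (h2 : (P.a2 (u + 1) : ℤ) - P.a2 u = P.a2 (u' + 1) - P.a2 u') (h : ¬ P.IsF u)
    (h' : ¬ P.IsF u') : (P.IsY1 u ∧ P.IsY1 u' ∧ ¬ P.IsY2 u ∧ ¬ P.IsY2 u') ∨
      (P.IsY2 u ∧ P.IsY2 u' ∧ ¬ P.IsY1 u ∧ ¬ P.IsY1 u') ∨
      (P.IsS u ∧ P.IsS u' ∧ ¬ P.IsY1 u ∧ ¬ P.IsY1 u' ∧ ¬ P.IsY2 u ∧ ¬ P.IsY2 u') := by
  rw [P.a1_succ, P.a1_succ] at h1
  rw [P.a2_succ, P.a2_succ] at h2
  have d1 := P.Y_disj (u := u)
  have d2 := P.Y_disj (u := u')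
  unfold IsF at h h'
  push_cast at h1 h2
  by_cases c1 : P.IsY1 u <;> by_cases c1' : P.IsY1 u' <;> by_cases c2 : P.IsY2 u <;>
    by_cases c2' : P.IsY2 u' <;> simp only [c1, c1', c2, c2', if_true, if_false] at h1 h2 ⊢ <;>
    first
    | (exfalso; omega)
    | (simp_all)

/-- conveyor slots lie before the register region -/
lemma Y1_le {u : ℕ} (h : P.IsY1 u) : u + 1 ≤ P.V0 := by
  unfold IsY1 at h
  omega

lemma Y2_le {u : ℕ} (h : P.IsY2 u) : u + 1 ≤ P.V0 := by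
  obtain ⟨f1, f2, f3, f4, f5, f6, f7⟩ := P.facts
  unfold IsY2 at h
  unfold V0
  omega

lemma V0_lt : P.V0 + 208000000 < P.s := by
  obtain ⟨f1, f2, f3, f4, f5, f6, f7⟩ := P.facts
  unfold V0 s
  omega

/-- in the register region both conveyors have made all outputs of the lap -/
lemma S_a {u x : ℕ} (h : P.IsS u) (hx : u ≤ x) : P.a1 x = P.k1 - 1 ∧ P.a2 x = P.k2 - 1 ∧
    P.V0 ≤ u ∧ u < P.V0 + 208000000 := by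
  obtain ⟨f1, f2, f3, f4, f5, f6, f7⟩ := P.facts
  have hl : lam = 26000000 := rfl
  rw [a1_def, a2_def]
  unfold IsS at h
  unfold V0 at *
  omega

/-- conveyor counts outside the seam -/
lemma a_bounds {v v' : ℕ} (hv : v ≤ P.V0) (hv' : v' ≤ P.V0) :
    (-((P.k1 : ℤ) - 1) ≤ (P.a1 v' : ℤ) - P.a1 v ∧ (P.a1 v' : ℤ) - P.a1 v ≤ P.k1 - 1) ∧
    (-((P.k2 : ℤ) - 1) ≤ (P.a2 v' : ℤ) - P.a2 v ∧ (P.a2 v' : ℤ) - P.a2 v ≤ P.k2 - 1) ∧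
    (-20 ≤ 8 * ((P.a1 v' : ℤ) - P.a1 v) - ((v' : ℤ) - v) ∧
      8 * ((P.a1 v' : ℤ) - P.a1 v) - ((v' : ℤ) - v) ≤ 20) ∧
    (-300 ≤ 80 * ((P.a2 v' : ℤ) - P.a2 v) - ((v' : ℤ) - v) ∧
      80 * ((P.a2 v' : ℤ) - P.a2 v) - ((v' : ℤ) - v) ≤ 300) := by
  obtain ⟨f1, f2, f3, f4, f5, f6, f7⟩ := P.facts
  rw [a1_def, a1_def, a2_def, a2_def]
  unfold V0 at hv hv'
  refine ⟨⟨?_, ?_⟩, ⟨?_, ?_⟩, ⟨?_, ?_⟩, ⟨?_, ?_⟩⟩ <;> omega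

end Prm

end MPbbea99N
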