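import Pool.Agent.Lib.Pbbea99N.Ar4

/-!
# MP_bbea99_co: windows starting at the same or at neighbouring slots
-/

namespace MPbbea99N

/-- the lap distance is not a multiple of the conveyor length -/
lemma nostar {g k r m K0 D n δ h : ℤ} (e : g * k + r = m) (hg : g = 8 ∨ g = 80)
    (hr : 208000000 ≤ r) (hr' : r < 208000104) (hm : 10000000000000 * K0 ≤ m) (hK0 : 4 ≤ K0)
    (hD : D ≤ 3 * (m * K0)) (hα : 2 * D + δ = m * h) (hh : 1 ≤ h) (hx : -10 ≤ 2 * n + δ)
    (hx' : 2 * n + δ ≤ 10) (hδ' : δ ≤ 3) : ¬ k ∣ n - D := by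
  intro hd
  have hm0 : 0 < m := by omega
  have hk0 : 0 < k := by rcases hg with rfl | rfl <;> omega
  have hh2 : h ≤ 6 * K0 + 1 := by
    by_contra hcon
    have h1 : m * (6 * K0 + 2) ≤ m * h := mul_le_mul_of_nonneg_left (by omega) hm0.le
    have h2 : m * (6 * K0 + 2) = 6 * (m * K0) + 2 * m := by ring
    omega
  have h1 : k ∣ r * h - (2 * n + δ) := by
    have h2 : r * h - (2 * n + δ) = -(2 * (n - D)) - k * (g * h) := by
      have h3 : m * h = g * k * h + r * h := by rw [← e]; ring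
      have h4 : k * (g * h) = g * k * h := by ring
      rw [h4]
      linarith
    rw [h2]
    exact dvd_sub ((dvd_neg).2 (Dvd.dvd.mul_left hd 2)) (dvd_mul_right _ _)
  have h2 : r * 1 ≤ r * h := mul_le_mul_of_nonneg_left hh (by omega)
  have h3 : r * h ≤ 208000104 * h := mul_le_mul_of_nonneg_right (by omega) (by omega)
  have h4 : r * h - (2 * n + δ) < k := by
    rcases hg with rfl | rfl
    · omega
    · omega
  have h5 := Int.le_of_dvd (by omega) h1
  omega

/-- short windows match only at short distances -/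
lemma laps_short {m D w b r : ℤ} (hm : 40000000000000 ≤ m) (hr0 : 0 ≤ r) (hr : r < 208000008)
    (hw : -(m + 1) ≤ w) (hb : b ≤ r + 30)
    (h : (m + 2) * D + w ≤ m * (2 * b + 1)) : 2 * D + 4 < m := by
  by_contra hcon
  have h1 : m * (2 * b + 1) ≤ m * 416000077 := mul_le_mul_of_nonneg_left (by omega) (by omega)
  have h2 : (m + 2) * 416000079 ≤ (m + 2) * D := mul_le_mul_of_nonneg_left (by omega) (by omega)
  omega

/-- the case `h = 0` -/
lemma h_zero {m D δ e h : ℤ} (hm : 40000000000000 ≤ m) (hD0 : 0 ≤ D) (hδ : -1 ≤ δ)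
    (he : -1 ≤ e) (hα : 2 * D + δ + e = m * h) (hh : h < 1) :
    2 * D + δ + e = 0 := by
  have h1 : h = 0 := by
    by_contra hne
    have : m * h ≤ m * (-1) := mul_le_mul_of_nonneg_left (by omega) (by omega)
    omega
  rw [h1] at hα
  omega

/-- one letter: at most three laps -/
lemma laps_one {m D w : ℤ} (hm : 40000000000000 ≤ m) (hw : -(m + 1) ≤ w)
    (h : (m + 2) * D + w ≤ m * (2 * 1 + 1)) : D ≤ 3 := by
  by_contra hcon
  have h2 : (m + 2) * 4 ≤ (m + 2) * D := mul_le_mul_of_nonneg_left (by omega) (by omega)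
  omega

end MPbbea99N
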