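import Pool.Agent.Lib.Pbbea99N.Defs

/-!
# MP_bbea99_co: the registers
-/

namespace MPbbea99N

open Finset MPbbea99 MPbbea99L

namespace Prm

variable (P : Prm)

lemma sc_lt (i : ℕ) : P.sc i < 13 := by
  unfold sc
  split
  · norm_num
  · rename_i t _
    have h1 := t.1.isLt
    have h2 := t.2.isLt
    omega

lemma om_lt (i : ℕ) : P.om i < lam := by
  unfold om lam
  have h1 := P.sc_lt i
  have h2 : (i / (P.m / 200)) % 2000 < 2000 := Nat.mod_lt _ (by norm_num)
  have h3 : i % 1000 < 1000 := Nat.mod_lt _ (by norm_num)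
  omega

lemma om_mod (i : ℕ) : P.om i % 13 = P.sc i := by
  unfold om
  have h1 := P.sc_lt i
  omega

lemma om_eq {i i' : ℕ} (h : P.om i = P.om i') :
    i % 1000 = i' % 1000 ∧ (i / (P.m / 200)) % 2000 = (i' / (P.m / 200)) % 2000 := by
  unfold om at h
  have h1 := P.sc_lt i
  have h1' := P.sc_lt i'
  have h2 : (i / (P.m / 200)) % 2000 < 2000 := Nat.mod_lt _ (by norm_num)
  have h2' : (i' / (P.m / 200)) % 2000 < 2000 := Nat.mod_lt _ (by norm_num)
  have h3 : i % 1000 < 1000 := Nat.mod_lt _ (by norm_num)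
  have h3' : i' % 1000 < 1000 := Nat.mod_lt _ (by norm_num)
  generalize (i / (P.m / 200)) % 2000 = a at *
  generalize (i' / (P.m / 200)) % 2000 = a' at *
  generalize i % 1000 = b at *
  generalize i' % 1000 = b' at *
  omega

lemma om_succ_ne (i : ℕ) : P.om (i + 1) ≠ P.om i := by
  intro h
  have := (P.om_eq h).1
  omega

lemma arr_ne_inj (i : ℕ) : (∀ j, P.arr i j ≠ P.om i) ∧ Function.Injective (P.arr i) := by
  induction i with
  | zero =>
    constructor
    · intro j h
      unfold arr at h
      split_ifs at h <;> omega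
    · intro j j' h
      unfold arr at h
      split_ifs at h <;> omega
  | succ i ih =>
    obtain ⟨ih1, ih2⟩ := ih
    have hne := P.om_succ_ne i
    constructor
    · intro j h
      unfold arr at h
      split_ifs at h with h1
      · exact hne h.symm
      · exact h1 h
    · intro j j' h
      unfold arr at h
      split_ifs at h with h1 h2 h2
      · exact ih2 (h1.trans h2.symm)
      · exact absurd h.symm (ih1 j')
      · exact absurd h (ih1 j)
      · exact ih2 h

lemma arr_ne (i j : ℕ) : P.arr i j ≠ P.om i := (P.arr_ne_inj i).1 j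

lemma arr_inj {i j j' : ℕ} (h : P.arr i j = P.arr i j') : j = j' := (P.arr_ne_inj i).2 h

lemma arr_lt (i : ℕ) : ∀ {j : ℕ}, j < lam - 1 → P.arr i j < lam := by
  induction i with
  | zero =>
    intro j hj
    unfold arr
    split_ifs <;> omega
  | succ i ih =>
    intro j hj
    unfold arr
    split_ifs
    · exact P.om_lt i
    · exact ih hj

lemma arr_succ_def (i j : ℕ) : P.arr (i + 1) j =
    if P.arr i j = P.om (i + 1) then P.om i else P.arr i j := by
  rw [arr]

lemma arr_succ (i j : ℕ) : P.arr (i + 1) j = P.om i ∨ P.arr (i + 1) j = P.arr i j := by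
  rw [arr_succ_def]
  split_ifs
  · left; rfl
  · right; rfl

lemma arr_surj (i : ℕ) : ∀ {z : ℕ}, z < lam → z ≠ P.om i → ∃ j, j < lam - 1 ∧ P.arr i j = z := by
  induction i with
  | zero =>
    intro z hz hne
    have h0 := P.om_lt 0
    rcases Nat.lt_or_gt_of_ne hne with h1 | h1
    · exact ⟨z, by omega, by unfold arr; rw [if_pos h1]⟩
    · exact ⟨z - 1, by omega, by unfold arr; rw [if_neg (by omega)]; omega⟩
  | succ i ih =>
    intro z hz hne
    by_cases h1 : z = P.om i
    · obtain ⟨j, hj, hj2⟩ := ih (P.om_lt (i + 1)) (P.om_succ_ne i)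
      refine ⟨j, hj, ?_⟩
      rw [arr_succ_def, if_pos hj2, h1]
    · obtain ⟨j, hj, hj2⟩ := ih hz h1
      refine ⟨j, hj, ?_⟩
      rw [arr_succ_def, if_neg (by rw [hj2]; exact hne), hj2]

end Prm

end MPbbea99N
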