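import Mathlib

/-!
# MP_bbea99_co: windows with the same fixed letters
-/

namespace MPbbea99N

/-- classification of pairs of windows with the same visits to the fixed slots -/
theorem fclass {s : ℕ} {F : ℕ → Prop} (hs : 1 ≤ s) (hadj : ∀ u, u + 1 < s → F u ∨ F (u + 1))
    (hlast : F (s - 1)) {v v2 v' v2' : ℕ} (hv : v < s) (hv2 : v2 < s) (hv' : v' < s)
    (hv2' : v2' < s) {K K' : ℤ} (hb : s * K + v2 - v = s * K' + v2' - v')
    (h : ∀ u, u < s → F u → K + (if u < v2 then 1 else 0) - (if u < v then 1 else 0) =
      K' + (if u < v2' then 1 else 0) - (if u < v' then 1 else 0)) :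
    K = K' ∧ ((v' = v ∧ v2' = v2) ∨ (v2 = v ∧ v2' = v') ∨
      (v' = v + 1 ∧ v2' = v2 + 1 ∧ ¬ F v ∧ ¬ F v2) ∨
      (v = v' + 1 ∧ v2 = v2' + 1 ∧ ¬ F v' ∧ ¬ F v2') ∨
      (v2 = v + 1 ∧ v2' = v' + 1 ∧ ¬ F v ∧ ¬ F v') ∨
      (v = v2 + 1 ∧ v' = v2' + 1 ∧ ¬ F v2 ∧ ¬ F v2')) := by
  have hK : K = K' := by
    have h1 := h (s - 1) (by omega) hlast
    rw [if_neg (by omega), if_neg (by omega), if_neg (by omega), if_neg (by omega)] at h1
    omega
  refine ⟨hK, ?_⟩
  subst hK
  have hb' : (v2 : ℤ) + v' = v + v2' := by omega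
  have hb'' : v2 + v' = v + v2' := by omega
  clear hb hb'
  have hN : ∀ u, u < s → F u → ((if u < v2 then 1 else 0) + (if u < v' then 1 else 0) : ℕ) =
      (if u < v then 1 else 0) + (if u < v2' then 1 else 0) := by
    intro u hu hFu
    have h1 := h u hu hFu
    split_ifs at h1 ⊢ <;> omega
  clear h
  -- a general step: four numbers with the same sum
  have key : ∀ a b c d : ℕ, a < s → b < s → c < s → d < s → a + b = c + d → a ≤ b → c ≤ d →
      (∀ u, u < s → F u → ((if u < a then 1 else 0) + (if u < b then 1 else 0) : ℕ) =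
        (if u < c then 1 else 0) + (if u < d then 1 else 0)) →
      (a = c ∧ b = d) ∨ (c = a + 1 ∧ b = d + 1 ∧ ¬ F a ∧ ¬ F d) ∨
        (a = c + 1 ∧ d = b + 1 ∧ ¬ F c ∧ ¬ F b) := by
    intro a b c d ha hb hc hd hsum hab hcd hk
    rcases lt_trichotomy a c with h1 | h1 | h1
    · right; left
      have h2 : c = a + 1 := by
        by_contra hne
        rcases hadj a (by omega) with h3 | h3
        · have := hk a (by omega) h3
          split_ifs at this <;> omega
        · have := hk (a + 1) (by omega) h3
          split_ifs at this <;> omega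
      refine ⟨h2, by omega, ?_, ?_⟩
      · intro h3
        have := hk a (by omega) h3
        split_ifs at this <;> omega
      · intro h3
        have := hk d (by omega) h3
        split_ifs at this <;> omega
    · left; omega
    · right; right
      have h2 : a = c + 1 := by
        by_contra hne
        rcases hadj c (by omega) with h3 | h3
        · have := hk c (by omega) h3
          split_ifs at this <;> omega
        · have := hk (c + 1) (by omega) h3
          split_ifs at this <;> omega
      refine ⟨h2, by omega, ?_, ?_⟩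
      · intro h3
        have := hk c (by omega) h3
        split_ifs at this <;> omega
      · intro h3
        have := hk b (by omega) h3
        split_ifs at this <;> omega
  rcases le_total v2 v' with h1 | h1 <;> rcases le_total v v2' with h2 | h2
  · rcases key v2 v' v v2' hv2 hv' hv hv2' (by omega) h1 h2 hN with h3 | h3 | h3
    · right; left; omega
    · right; right; right; right; right
      exact ⟨h3.1, h3.2.1, h3.2.2.1, h3.2.2.2⟩
    · right; right; right; right; left
      exact ⟨h3.1, h3.2.1, h3.2.2.1, h3.2.2.2⟩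
  · rcases key v2 v' v2' v hv2 hv' hv2' hv (by omega) h1 h2 (fun u hu hF => by
      rw [hN u hu hF, Nat.add_comm]) with h3 | h3 | h3
    · left; omega
    · right; right; left
      exact ⟨h3.2.1, h3.1, h3.2.2.2, h3.2.2.1⟩
    · right; right; right; left
      exact ⟨h3.2.1, h3.1, h3.2.2.2, h3.2.2.1⟩
  · rcases key v' v2 v v2' hv' hv2 hv hv2' (by omega) h1 h2 (fun u hu hF => by
      rw [← hN u hu hF, Nat.add_comm]) with h3 | h3 | h3
    · left; omega
    · right; right; right; left
      exact ⟨h3.1, h3.2.1, h3.2.2.1, h3.2.2.2⟩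
    · right; right; left
      exact ⟨h3.1, h3.2.1, h3.2.2.1, h3.2.2.2⟩
  · rcases key v' v2 v2' v hv' hv2 hv2' hv (by omega) h1 h2 (fun u hu hF => by
      rw [Nat.add_comm, hN u hu hF, Nat.add_comm]) with h3 | h3 | h3
    · right; left; omega
    · right; right; right; right; left
      exact ⟨h3.2.1, h3.1, h3.2.2.2, h3.2.2.1⟩
    · right; right; right; right; right
      exact ⟨h3.2.1, h3.1, h3.2.2.2, h3.2.2.1⟩

end MPbbea99N
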