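import Pool.Agent.Lib.Pbbea99L.Fin

/-!
# MP_bbea99_co: five additional letters suffice

Definitions. `E` is large, `m = ⌈E/2⌉`. The word has two interleaved tracks: track `A` repeats
`⌊E/2⌋` letters periodically, track `B` has `m + 5` letters and is read in laps of `s = m + 2`
slots. Almost every slot `u` carries the fixed letter `u`. The conveyors `Y1` (slots `1 mod 8`)
and `Y2` (slots `43 mod 80`) have `k1 - 1`, resp. `k2 - 1`, slots and `k1`, resp. `k2`, letters which
are output in cyclic order. The register region (slots `5 mod 8` after the conveyor slots) has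
`lam - 1` slots and `lam` letters, in lap `i` the letter `om i` is missing.
-/

namespace MPbbea99N

open Finset MPbbea99 MPbbea99L

/-- the number of register letters: `2000 * 1000 * 13` -/
def lam : ℕ := 26000000

/-- the parameters of the word -/
structure Prm where
  /-- half of `E` -/
  m : ℕ
  /-- base of the structural scales -/
  q : ℕ
  /-- number of letters of the first conveyor -/
  k1 : ℕ
  /-- number of letters of the second conveyor -/
  k2 : ℕ
  /-- remainder -/
  r1 : ℕ
  /-- remainder -/
  r2 : ℕ
  e1 : 8 * k1 + r1 = m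
  e2 : 80 * k2 + r2 = m
  h1 : 8 * lam ≤ r1
  h2 : r1 < 8 * lam + 8
  h3 : r1 + 16 ≤ r2
  h4 : r2 < r1 + 96
  hq : 100 ≤ q
  hq1 : 3 * m ≤ q ^ 143
  hm : 10 ^ 13 * (4 * q ^ 142 + 4) ≤ m

namespace Prm

variable (P : Prm)

/-- number of slots per lap -/
def s : ℕ := P.m + 2

/-- begin of the register region -/
def V0 : ℕ := 8 * (P.k1 - 1)

/-- slots of the first conveyor -/
def IsY1 (u : ℕ) : Prop := u % 8 = 1 ∧ u < P.V0

/-- slots of the second conveyor -/
def IsY2 (u : ℕ) : Prop := u % 80 = 43 ∧ u < 80 * (P.k2 - 1)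

/-- slots of the register region -/
def IsS (u : ℕ) : Prop := u % 8 = 5 ∧ P.V0 ≤ u ∧ u < P.V0 + 8 * (lam - 1)

/-- slots with a fixed letter -/
def IsF (u : ℕ) : Prop := ¬ P.IsY1 u ∧ ¬ P.IsY2 u ∧ ¬ P.IsS u

instance : DecidablePred P.IsY1 := fun _ => by unfold IsY1; infer_instance
instance : DecidablePred P.IsY2 := fun _ => by unfold IsY2; infer_instance
instance : DecidablePred P.IsS := fun _ => by unfold IsS; infer_instance
instance : DecidablePred P.IsF := fun _ => by unfold IsF; infer_instance

/-- number of `Y1` slots below `v` -/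
def a1 (v : ℕ) : ℕ := min (P.k1 - 1) ((v + 6) / 8)

/-- number of `Y2` slots below `v` -/
def a2 (v : ℕ) : ℕ := min (P.k2 - 1) ((v + 36) / 80)

/-- number of outputs of the first conveyor before time `t` -/
def N1 (t : ℕ) : ℕ := (P.k1 - 1) * (t / P.s) + P.a1 (t % P.s)

/-- number of outputs of the second conveyor before time `t` -/
def N2 (t : ℕ) : ℕ := (P.k2 - 1) * (t / P.s) + P.a2 (t % P.s)

/-- the structural letter of lap `i` as a number below `13` -/
noncomputable def sc (i : ℕ) : ℕ :=
  match sS P.q i with
  | none => 0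
  | some t => 1 + 2 * t.1.val + t.2.val

/-- the register letter missing in lap `i` -/
noncomputable def om (i : ℕ) : ℕ :=
  ((i / (P.m / 200)) % 2000) * 13000 + (i % 1000) * 13 + P.sc i

/-- the register letter at the `j`-th register slot in lap `i` -/
noncomputable def arr : ℕ → ℕ → ℕ
  | 0, j => if j < P.om 0 then j else j + 1
  | i + 1, j => if arr i j = P.om (i + 1) then P.om i else arr i j

/-- the letters of the first conveyor -/
def c1 (z : ℕ) : ℕ := if z < P.k1 - 1 then 8 * z + 1 else P.s

/-- the letters of the second conveyor -/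
def c2 (z : ℕ) : ℕ := if z < P.k2 - 1 then 80 * z + 43 else P.s + 1

/-- the register letters -/
def c3 (z : ℕ) : ℕ := if z < lam - 1 then P.V0 + 8 * z + 5 else P.s + 2

/-- track `B` -/
noncomputable def B (t : ℕ) : ℕ :=
  if P.IsY1 (t % P.s) then P.c1 (P.N1 t % P.k1)
  else if P.IsY2 (t % P.s) then P.c2 (P.N2 t % P.k2)
  else if P.IsS (t % P.s) then P.c3 (P.arr (t / P.s) ((t % P.s - P.V0) / 8))
  else t % P.s

/-- two windows of track `B` of length `b` have the same letter counts -/
def BM (T T' b : ℕ) : Prop :=
  ∀ w, cnt (fun t => P.B t = w) T (T + b) = cnt (fun t => P.B t = w) T' (T' + b)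

end Prm

end MPbbea99N
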