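import Pool.Agent.Lib.Pbbea99N.Red

/-!
# MP_bbea99_co: five additional letters suffice
-/

namespace MPbbea99N

open Finset MPbbea99 MPbbea99L

/-- from an infinite word to the threshold, strict inequality -/
theorem avoid_strict {β : Type} [Fintype β] [DecidableEq β] (W : ℕ → β) (E n : ℕ) (hE : 1 ≤ E)
    (hcard : Fintype.card β ≤ n)
    (hW : ∀ A m p : ℕ, 1 ≤ m → m ≤ p → p < E * m →
      (∀ c, cnt (fun i => W i = c) A (A + m) = cnt (fun i => W i = c) (A + p) (A + p + m)) →
      False) {x : ℝ} (hx : 1 + 1 / (E : ℝ) < x) : Avoid x n := by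
  classical
  unfold Avoid
  apply Set.Infinite.of_image List.length
  apply Set.Infinite.mono (s := Set.univ) _ Set.infinite_univ
  intro N _
  have hcard' : Fintype.card β ≤ Fintype.card (Fin n) := by rwa [Fintype.card_fin]
  obtain ⟨f⟩ := Function.Embedding.nonempty_of_card_le hcard'
  let V : ℕ → Fin n := fun i => f (W i)
  refine ⟨(List.range N).map V, ?_, by simp⟩
  rintro r hr1 hr2 hr3 ⟨u, v, u', ⟨s, t, hst⟩, hperm, hlen⟩
  have hul : u'.length = u.length := hperm.length_eq.symm
  -- lengths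
  have htot : s.length + (u.length + v.length + u.length) + t.length = N := by
    have := congrArg List.length hst
    simp only [List.length_append, List.length_map, List.length_range, hul] at this
    omega
  set A := s.length with hA
  set m := u.length with hm
  set p := m + v.length with hp
  -- exponent bounds
  have hlen' : ((p : ℝ) + m) / p = r := by
    rw [← hlen]
    simp only [List.length_append, hp, ← hm]
    push_cast
    ring
  have hp0 : (0 : ℝ) < p := by
    rcases Nat.eq_zero_or_pos p with h0 | h0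
    · rw [h0] at hlen'
      simp only [Nat.cast_zero, div_zero] at hlen'
      linarith
    · exact_mod_cast h0
  have hE0 : (0 : ℝ) < E := by
    have : 0 < E := by omega
    exact_mod_cast this
  have hr : r = 1 + m / p := by
    rw [← hlen']
    field_simp
  have hm1 : 1 ≤ m := by
    rcases Nat.eq_zero_or_pos m with h0 | h0
    · rw [h0] at hr
      simp at hr
      linarith
    · exact h0
  have hpE : p < E * m := by
    have h1 : 1 / (E : ℝ) < m / p := by linarith
    rw [div_lt_div_iff₀ hE0 hp0] at h1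
    have h2 : (p : ℝ) < E * m := by linarith
    exact_mod_cast h2
  -- windows
  have hu : ∀ i (hi : i < m), u[i]'hi = V (A + i) := by
    intro i hi
    have h1 : (s ++ (u ++ v ++ u') ++ t)[A + i]? = ((List.range N).map V)[A + i]? := by rw [hst]
    rw [List.append_assoc, List.getElem?_append_right (by omega)] at h1
    have e : A + i - s.length = i := by omega
    rw [e, List.append_assoc, List.append_assoc, List.getElem?_append_left hi] at h1
    rw [List.getElem?_eq_getElem hi] at h1
    rw [List.getElem?_map, List.getElem?_range (by omega)] at h1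
    simpa using h1
  have hu' : ∀ i (hi : i < m), u'[i]'(by omega) = V (A + p + i) := by
    intro i hi
    have h1 : (s ++ (u ++ v ++ u') ++ t)[A + p + i]? = ((List.range N).map V)[A + p + i]? := by
      rw [hst]
    rw [List.append_assoc, List.getElem?_append_right (by omega)] at h1
    have e : A + p + i - s.length = p + i := by omega
    rw [e, List.append_assoc, List.getElem?_append_right (by
      rw [List.length_append]; omega)] at h1
    have e2 : p + i - (u ++ v).length = i := by rw [List.length_append]; omega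
    rw [e2, List.getElem?_append_left (by omega)] at h1
    rw [List.getElem?_eq_getElem (by omega)] at h1
    rw [List.getElem?_map, List.getElem?_range (by omega)] at h1
    simpa using h1
  have hcount : ∀ (l : List (Fin n)) (B : ℕ) (hl : ∀ i (hi : i < l.length), l[i] = V (B + i))
      (c : Fin n), l.count c = cnt (fun i => V i = c) B (B + l.length) := by
    intro l
    induction l with
    | nil => intro B _ c; simp [cnt_self]
    | cons x l ih =>
      intro B hl c
      have h1 : ∀ i (hi : i < l.length), l[i] = V (B + 1 + i) := by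
        intro i hi
        have := hl (i + 1) (by simp; omega)
        simp only [List.getElem_cons_succ] at this
        rw [this]
        congr 1
        ring
      have h2 := ih (B + 1) h1 c
      have h3 := hl 0 (by simp)
      simp only [List.getElem_cons_zero, Nat.add_zero] at h3
      rw [List.count_cons, h2, List.length_cons,
        cnt_add (fun i => V i = c) (a := B) (b := B + 1) (c := B + (l.length + 1)) (by omega)
          (by omega), cnt_succ_right _ (le_refl B), cnt_self, ← h3]
      have e : B + 1 + l.length = B + (l.length + 1) := by ring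
      rw [e, Nat.add_comm, Nat.zero_add]
      congr 1
      by_cases hc : x = c
      · simp [hc]
      · simp [hc]
  apply hW A m p hm1 (by omega) hpE
  intro c
  have h1 := hcount u A (fun i hi => hu i hi) (f c)
  have h2 := hcount u' (A + p) (fun i hi => hu' i (by omega)) (f c)
  rw [hperm.count_eq (f c), h2, hul] at h1
  have h3 : ∀ a b, cnt (fun i => W i = c) a b = cnt (fun i => V i = f c) a b := by
    intro a b
    apply cnt_congr
    intro k _ _
    exact (f.injective.eq_iff).symm
  rw [h3, h3]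
  exact h1.symm


lemma bernoulli143 {q : ℕ} (hq : 300 ≤ q) : q ^ 143 ≤ 2 * (q - 1) ^ 143 := by
  have hq0 : (0 : ℝ) < q := by
    have : 0 < q := by omega
    exact_mod_cast this
  have h300 : (300 : ℝ) ≤ q := by exact_mod_cast hq
  have h1 := one_add_mul_le_pow (a := -(1 / (q : ℝ))) (by
    have : 1 / (q : ℝ) ≤ 1 := by
      rw [div_le_one hq0]; linarith
    linarith) 143
  have h2 : (143 : ℝ) * (1 / q) ≤ 1 / 2 := by
    rw [mul_one_div, div_le_div_iff₀ hq0 (by norm_num)]
    linarith
  have h3 : (1 / 2 : ℝ) ≤ (1 + -(1 / (q : ℝ))) ^ 143 := by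
    refine le_trans ?_ h1
    push_cast
    linarith
  have h4 : (1 + -(1 / (q : ℝ))) = ((q - 1 : ℕ) : ℝ) / q := by
    rw [Nat.cast_sub (by omega)]
    field_simp
    push_cast
    ring
  rw [h4, div_pow, div_le_div_iff₀ (by norm_num) (by positivity)] at h3
  have h5 : ((q ^ 143 : ℕ) : ℝ) ≤ ((2 * (q - 1) ^ 143 : ℕ) : ℝ) := by
    push_cast
    linarith
  exact_mod_cast h5

/-- the parameters exist -/
lemma exists_prm {m : ℕ} (hm : 2 ^ 7000 ≤ m) : ∃ P : Prm, P.m = m := by
  have hex : ∃ q : ℕ, 3 * m ≤ q ^ 143 := by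
    refine ⟨3 * m, ?_⟩
    calc 3 * m = (3 * m) ^ 1 := (pow_one _).symm
      _ ≤ (3 * m) ^ 143 := Nat.pow_le_pow_right (by
          have : 0 < 2 ^ 7000 := Nat.pow_pos (by norm_num)
          generalize (2 : ℕ) ^ 7000 = B at *
          omega) (by norm_num)
  classical
  obtain ⟨q, hq⟩ : ∃ q, q = Nat.find hex := ⟨_, rfl⟩
  have h1 : 3 * m ≤ q ^ 143 := by rw [hq]; exact Nat.find_spec hex
  have hq48 : 2 ^ 48 ≤ q := by
    by_contra hcon
    push Not at hcon
    have h2 : q ^ 143 ≤ (2 ^ 48) ^ 143 := Nat.pow_le_pow_left hcon.le 143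
    have h3 : ((2 : ℕ) ^ 48) ^ 143 ≤ 2 ^ 7000 := by
      rw [← pow_mul]
      exact Nat.pow_le_pow_right (by norm_num) (by norm_num)
    have h4 : 0 < 2 ^ 7000 := Nat.pow_pos (by norm_num)
    generalize (2 : ℕ) ^ 7000 = B at *
    omega
  have hq300 : 300 ≤ q := le_trans (by norm_num) hq48
  have h2 : (q - 1) ^ 143 < 3 * m := by
    have := Nat.find_min hex (m := q - 1) (by omega)
    omega
  have h3 := bernoulli143 hq300
  have h4 : q * (4 * q ^ 142) ≤ 24 * m := by
    calc q * (4 * q ^ 142) = 4 * q ^ 143 := by ring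
      _ ≤ 24 * m := by omega
  have h5 : 2 ^ 48 * (4 * q ^ 142) ≤ 24 * m := (Nat.mul_le_mul_right _ hq48).trans h4
  have hmbig : 2 ^ 48 ≤ m :=
    le_trans (Nat.pow_le_pow_right (by norm_num) (by norm_num)) hm
  have h6 : 10 ^ 13 * (4 * q ^ 142 + 4) ≤ m := by
    generalize 4 * q ^ 142 = x at *
    norm_num at h5 hmbig ⊢
    omega
  have hl : lam = 26000000 := rfl
  have hqm : 100 ≤ q := by omega
  clear hm hex hq h2 h3 h4 h5 hq48 hq300
  have hmm : 281474976710656 ≤ m := by norm_num at hmbig; exact hmbig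
  obtain ⟨k1, hk1⟩ : ∃ k1, k1 = (m - 208000000) / 8 := ⟨_, rfl⟩
  obtain ⟨k2, hk2⟩ : ∃ k2, k2 = (8 * k1 - 16) / 80 := ⟨_, rfl⟩
  refine ⟨⟨m, q, k1, k2, m - 8 * k1, m - 80 * k2, ?_, ?_, ?_, ?_, ?_, ?_, hqm, h1, h6⟩, rfl⟩
  all_goals (clear h1 h6 hmbig; omega)

/-- five additional letters suffice -/
theorem avoid_five {E : ℕ} (hE : 2 ^ 7001 ≤ E) {x : ℝ} (hx : 1 + 1 / (E : ℝ) < x) :
    Avoid x (E + 5) := by
  have h1 : (2 : ℕ) ^ 7001 = 2 ^ 7000 * 2 := pow_succ 2 7000
  have h2 : 0 < (2 : ℕ) ^ 7000 := Nat.pow_pos (by norm_num)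
  have h3 : 2 ^ 4 ≤ (2 : ℕ) ^ 7000 := Nat.pow_le_pow_right (by norm_num) (by norm_num)
  have h4 : 2 ^ 7000 ≤ (E + 1) / 2 ∧ 4 ≤ E := by
    rw [h1] at hE
    generalize (2 : ℕ) ^ 7000 = B at *
    omega
  obtain ⟨P, hP⟩ := exists_prm h4.1
  have hE4 := h4.2
  clear h1 h2 h3 h4 hE
  refine avoid_strict (β := Fin (E + 5)) (fun i => ⟨W P E i, W_lt (by omega) hP i⟩) E (E + 5)
    (by omega) (by rw [Fintype.card_fin]) ?_ hx
  intro A q p hq hqp hpE h
  refine window P hE4 hP A q p hq hqp hpE ?_
  intro c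
  rcases Nat.lt_or_ge c (E + 5) with hc | hc
  · have h1 := h ⟨c, hc⟩
    simp only [Fin.mk.injEq] at h1
    exact h1
  · rw [cnt_eq_zero _ (fun k _ _ h2 => by have := W_lt (E := E) (by omega) hP k; omega),
      cnt_eq_zero _ (fun k _ _ h2 => by have := W_lt (E := E) (by omega) hP k; omega)]

lemma ART_five {n : ℕ} (hn : 2 ^ 7002 ≤ n) : ART n ≤ 1 + 1 / ((n : ℝ) - 5) := by
  have h1 : (2 : ℕ) ^ 7002 = 2 ^ 7001 * 2 := pow_succ 2 7001
  have h3 : 2 ^ 4 ≤ (2 : ℕ) ^ 7001 := Nat.pow_le_pow_right (by norm_num) (by norm_num)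
  have h4 : 2 ^ 7001 ≤ n - 5 ∧ 5 ≤ n := by
    rw [h1] at hn
    generalize (2 : ℕ) ^ 7001 = B at *
    omega
  apply le_of_forall_pos_le_add
  intro ε hε
  have h5 := avoid_five h4.1 (x := 1 + 1 / ((n : ℝ) - 5) + ε) (by
    rw [Nat.cast_sub h4.2]
    push_cast
    linarith)
  rw [Nat.sub_add_cancel h4.2] at h5
  exact ART_le_of_avoid (by omega) h5

lemma DART_five {r : ℝ} (hr1 : 1 < r) (hr : (2 : ℝ) ^ 7001 ≤ 1 / (r - 1)) :
    DART r ≤ ⌊1 / (r - 1)⌋₊ + 6 := by
  have h0 : 0 < r - 1 := by linarith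
  have hx0 : 0 < 1 / (r - 1) := by positivity
  obtain ⟨E, hEd⟩ : ∃ E, E = ⌊1 / (r - 1)⌋₊ + 1 := ⟨_, rfl⟩
  have hE : 2 ^ 7001 ≤ E := by
    have h1 : 2 ^ 7001 ≤ ⌊1 / (r - 1)⌋₊ := by
      rw [Nat.le_floor_iff hx0.le, Nat.cast_pow, Nat.cast_ofNat]
      exact hr
    rw [hEd]
    exact h1.trans (Nat.le_succ _)
  have h1 : 1 / (r - 1) < E := by
    rw [hEd]
    push_cast
    exact Nat.lt_floor_add_one _
  have hE0 : (0 : ℝ) < E := hx0.trans h1
  have h2 : 1 + 1 / (E : ℝ) < r := by
    have : 1 / (E : ℝ) < r - 1 := by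
      rw [div_lt_iff₀ hE0]
      rw [div_lt_iff₀ h0] at h1
      linarith
    linarith
  have h3 := avoid_five hE h2
  have h4 : DART r ≤ E + 5 := Nat.sInf_le h3
  rw [hEd] at h4
  exact h4

end MPbbea99N
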