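import Pool.Agent.Lib.Pbbea99L.Str

/-!
# MP_bbea99_co: the structural letters, with a margin

The proof is that of `MPbbea99L.struct_lemma`.
-/

namespace MPbbea99N

open Finset MPbbea99 MPbbea99L

/-- the structural lemma with a margin -/
theorem struct_margin {q : ℕ} (hq : 100 ≤ q) (a p m : ℕ) (hm : 4 * q ^ 142 ≤ m) (hmp : m ≤ p)
    (hpm : p ≤ q ^ 143 * m) :
    ∃ g < 6, ∃ j ≤ 1, cnt (Col (q ^ 11) (AA q) (hh q) 6 g j) a (a + m) + AA q ≤
      cnt (Col (q ^ 11) (AA q) (hh q) 6 g j) (a + p) (a + p + m) := by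
  have hq0 : 0 < q := by omega
  have hq11 : 2 ≤ q ^ 11 := by
    calc 2 ≤ q := by omega
      _ = q ^ 1 := (pow_one q).symm
      _ ≤ q ^ 11 := Nat.pow_le_pow_right (by omega) (by norm_num)
  obtain ⟨s, hs1, hs2⟩ := exists_scale (fun s => 4 * q ^ (53 * s + 142)) (fun s => by
    have h1 : s < q ^ s := Nat.lt_pow_self (by omega)
    have h2 : q ^ s ≤ q ^ (53 * s + 142) := Nat.pow_le_pow_right hq0 (by omega)
    show s < 4 * q ^ (53 * s + 142)
    omega) (p := p) (by simpa using hm.trans hmp)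
  have hA : 0 < AA q := Nat.pow_pos hq0
  have hh0 : ∀ s, 0 < hh q s := fun s => Nat.pow_pos hq0
  have hbb : (q ^ 11) ^ (s + 1) * (4 * AA q * hh q s) = 4 * q ^ (53 * s + 142) := by
    unfold AA hh
    rw [← pow_mul, show 53 * s + 142 = 11 * (s + 1) + 54 + (42 * s + 77) by ring, pow_add, pow_add]
    ring
  have huu : (q ^ 11) ^ (s + 1) * (4 * AA q) = 4 * q ^ (11 * s + 65) := by
    unfold AA
    rw [← pow_mul, show 11 * s + 65 = 11 * (s + 1) + 54 by ring, pow_add q (11 * (s + 1)) 54]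
    ring
  have hb0 : 0 < 4 * q ^ (53 * s + 142) := by positivity
  have hu0 : 0 < 4 * q ^ (11 * s + 65) := by positivity
  have hr : (p + m) / ((q ^ 11) ^ (s + 1) * (4 * AA q * hh q s)) + 2 < AA q := by
    rw [hbb]
    have h1 : (p + m) / (4 * q ^ (53 * s + 142)) < 2 * q ^ 53 := by
      apply Nat.div_lt_of_lt_mul
      have h2 : 4 * q ^ (53 * s + 142) * (2 * q ^ 53) = 2 * (4 * q ^ (53 * (s + 1) + 142)) := by
        rw [show 53 * (s + 1) + 142 = (53 * s + 142) + 53 by ring, pow_add q (53 * s + 142) 53]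
        ring
      omega
    have h2 : AA q = q ^ 53 * q := by unfold AA; rw [← pow_succ]
    have h3 : q ^ 53 * 100 ≤ q ^ 53 * q := Nat.mul_le_mul_left _ hq
    have h4 : 0 < q ^ 53 := Nat.pow_pos hq0
    omega
  obtain ⟨j, hj, hmain⟩ := col_cmp hq11 hA hh0 (by norm_num : 0 < 6) s a p m hr
  refine ⟨s % 6, Nat.mod_lt _ (by norm_num), j, hj, ?_⟩
  rw [hbb, huu] at hmain
  have hnoise := noise_le (by omega : 2 ≤ q) s
  obtain ⟨N, hN⟩ : ∃ N, N = m / (4 * q ^ (11 * s + 65)) := ⟨_, rfl⟩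
  obtain ⟨x, hx⟩ : ∃ x, x = p / (4 * q ^ (53 * s + 142)) := ⟨_, rfl⟩
  rw [← hN, ← hx] at hmain
  have hx1 : 1 ≤ x := by rw [hx]; exact (Nat.one_le_div_iff hb0).2 hs1
  -- N is large
  obtain ⟨z, hz1, h8, h16, hNz⟩ : ∃ z, 1 ≤ z ∧ AA q ≤ z ∧
      (if s < 6 then 0 else 16 * q ^ (42 * s - 67)) ≤ 16 * z ∧ 100 * z ≤ N := by
    rcases Nat.lt_or_ge s 3 with h3 | h3
    · refine ⟨q ^ 54, Nat.one_le_pow _ _ hq0, le_rfl, ?_, ?_⟩
      · rw [if_pos (by omega)]; exact Nat.zero_le _
      · rw [hN, Nat.le_div_iff_mul_le hu0]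
        calc 100 * q ^ 54 * (4 * q ^ (11 * s + 65))
            ≤ q * q ^ 54 * (4 * q ^ 87) := by
              apply Nat.mul_le_mul
              · exact Nat.mul_le_mul_right _ hq
              · exact Nat.mul_le_mul_left _ (Nat.pow_le_pow_right hq0 (by omega))
          _ = 4 * q ^ 142 := by ring
          _ ≤ m := hm
    · refine ⟨q ^ (42 * s - 67), Nat.one_le_pow _ _ hq0, ?_, ?_, ?_⟩
      · exact Nat.pow_le_pow_right hq0 (by omega)
      · split_ifs
        · exact Nat.zero_le _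
        · exact le_rfl
      · have h1 : 4 * q ^ (11 * s + 65) * q ^ (42 * s - 66) ≤ m := by
          have h2 : q ^ 143 * (4 * q ^ (11 * s + 65) * q ^ (42 * s - 66)) =
              4 * q ^ (53 * s + 142) := by
            rw [show 53 * s + 142 = 143 + (11 * s + 65) + (42 * s - 66) by omega, pow_add, pow_add]
            ring
          have h3 : q ^ 143 * (4 * q ^ (11 * s + 65) * q ^ (42 * s - 66)) ≤ q ^ 143 * m := by
            rw [h2]; exact hs1.trans hpm
          exact Nat.le_of_mul_le_mul_left h3 (Nat.pow_pos hq0)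
        have h2 : q ^ (42 * s - 66) ≤ N := by
          rw [hN, Nat.le_div_iff_mul_le hu0, mul_comm]
          exact h1
        refine le_trans ?_ h2
        rw [show 42 * s - 66 = (42 * s - 67) + 1 by omega, pow_succ, mul_comm]
        exact Nat.mul_le_mul_left _ hq
  have hhigh : m / (q ^ 11) ^ (s + 6) ≤ N / 4 := by
    rw [hN, Nat.div_div_eq_div_mul, ← pow_mul]
    apply Nat.div_le_div_left
    · rw [show 11 * (s + 6) = (11 * s + 65) + 1 by ring, pow_succ q (11 * s + 65)]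
      calc 4 * q ^ (11 * s + 65) * 4 = q ^ (11 * s + 65) * 16 := by ring
        _ ≤ q ^ (11 * s + 65) * q := Nat.mul_le_mul_left _ (by omega)
    · positivity
  have hNx : N - 2 ≤ (N - 2) * x := Nat.le_mul_of_pos_right _ hx1
  have hnoise' : ∑ s ∈ (range s).filter (fun s' => s' % 6 = s % 6), 8 * AA q ^ 2 * hh q s ≤
      16 * z := hnoise.trans h16
  clear hnoise h16
  generalize (N - 2) * x = y at hmain hNx
  generalize m / (q ^ 11) ^ (s + 6) = v at hmain hhigh
  generalize AA q = A' at *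
  omega

end MPbbea99N
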