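import Pool.Agent.Lib.Pbbea99N.Sm2
import Pool.Agent.Lib.Pbbea99N.Str

/-!
# MP_bbea99_co: long windows
-/

namespace MPbbea99N

open Finset MPbbea99 MPbbea99L

lemma laps_upper {m K D v v2 v' b : ℤ} (hm : 40000000000000 ≤ m) (hv0 : 0 ≤ v)
    (hv2 : v2 < m + 2) (hv : v < m + 2) (hv'0 : 0 ≤ v') (hK0 : 0 ≤ K)
    (c1 : b = (m + 2) * K + v2 - v)
    (c3 : (m + 2) * D + (v' - v) ≤ m * (2 * b + 1)) : D ≤ 2 * (m * K) + 2 * m := by
  have hX : 0 ≤ m * K := mul_nonneg (by omega) hK0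
  by_contra hcon
  have h1 : (m + 2) * (2 * (m * K) + 2 * m + 1) ≤ (m + 2) * D :=
    mul_le_mul_of_nonneg_left (by omega) (by omega)
  have h2 : b ≤ m * K + 2 * K + m + 1 := by
    have : (m + 2) * K = m * K + 2 * K := by ring
    omega
  have h3 : m * (2 * b + 1) ≤ m * (2 * (m * K + 2 * K + m + 1) + 1) :=
    mul_le_mul_of_nonneg_left (by omega) (by omega)
  have e1 : (m + 2) * (2 * (m * K) + 2 * m + 1) =
      2 * (m * (m * K)) + 4 * (m * K) + 2 * (m * m) + 5 * m + 2 := by ring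
  have e2 : m * (2 * (m * K + 2 * K + m + 1) + 1) =
      2 * (m * (m * K)) + 4 * (m * K) + 2 * (m * m) + 3 * m := by ring
  rw [e1] at h1
  rw [e2] at h3
  clear e1 e2
  generalize m * (m * K) = x1 at *
  generalize m * K = x2 at *
  generalize m * m = x3 at *
  generalize (m + 2) * D = x4 at *
  generalize m * (2 * b + 1) = x5 at *
  omega

namespace Prm

variable (P : Prm)

lemma BM.pred {P : Prm} {T T' b : ℕ} (hB : P.BM T T' b) (S : ℕ → Prop) [DecidablePred S] :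
    cnt (fun t => S (P.B t)) T (T + b) = cnt (fun t => S (P.B t)) T' (T' + b) := by
  have h := cnt_pred_of_letters (β := Fin (P.m + 5)) (fun t => ⟨P.B t, P.B_lt t⟩)
    (A := T) (B := T + b) (A' := T') (B' := T' + b) (by
      intro c
      have h1 := hB c.val
      have e : ∀ x y, cnt (fun t => (⟨P.B t, P.B_lt t⟩ : Fin (P.m + 5)) = c) x y =
          cnt (fun t => P.B t = c.val) x y := fun x y => cnt_congr _ _ fun t _ _ => by
        rw [Fin.ext_iff]
      rw [e, e]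
      exact h1) (fun c => S c.val)
  exact h

lemma lap_nonneg0 {m K w : ℤ} (hm : 0 < m) (h : 0 ≤ (m + 2) * K + w) (hw : w ≤ m + 1) :
    0 ≤ K := by
  by_contra hcon
  have : (m + 2) * K ≤ (m + 2) * (-1) := mul_le_mul_of_nonneg_left (by omega) (by omega)
  omega

/-- register letters of the class `τ` -/
def QC (τ t : ℕ) : Prop := P.IsS (t % P.s) ∧ P.arr (t / P.s) ((t % P.s - P.V0) / 8) % 13 = τ

noncomputable instance (τ : ℕ) : DecidablePred (P.QC τ) := fun _ => Classical.dec _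

lemma QC_iff (τ t : ℕ) : P.QC τ t ↔ ∃ z, z < lam ∧ z % 13 = τ ∧ P.B t = P.c3 z := by
  constructor
  · rintro ⟨h1, h2⟩
    have h3 := P.arr_lt (t / P.s) (P.idx_lt h1)
    exact ⟨_, h3, h2, (P.B_c3 t _ h3).2 ⟨h1, rfl⟩⟩
  · rintro ⟨z, h1, h2, h3⟩
    obtain ⟨h4, h5⟩ := (P.B_c3 t z h1).1 h3
    exact ⟨h4, by rw [h5]; exact h2⟩

lemma class_card {N w τ : ℕ} (hτ : τ < 13) (hw : w < 13 * N) :
    ((range (13 * N)).filter (fun z => z ≠ w ∧ z % 13 = τ)).card +
      (if w % 13 = τ then 1 else 0) = N := by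
  have h1 : ((range (13 * N)).filter (fun z => z % 13 = τ)).card = N := by
    have h2 := cnt_class' (k := 13) hτ (a := 0) (b := 13 * N) (Nat.zero_le _)
    unfold cnt idx at h2
    rw [← Finset.range_eq_Ico] at h2
    rw [h2]
    omega
  have h3 : (range (13 * N)).filter (fun z => z ≠ w ∧ z % 13 = τ) =
      ((range (13 * N)).filter (fun z => z % 13 = τ)).erase w := by
    ext z
    simp only [Finset.mem_filter, Finset.mem_erase]
    tauto
  rw [h3]
  split_ifs with h4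
  · rw [Finset.card_erase_of_mem (by
      rw [Finset.mem_filter]; exact ⟨Finset.mem_range.2 hw, h4⟩), h1]
    have : 0 < N := by omega
    omega
  · rw [Finset.erase_eq_of_notMem (by
      rw [Finset.mem_filter]; exact fun h => h4 h.2), h1, Nat.add_zero]

/-- a complete lap -/
lemma lap_cnt (i : ℕ) {τ : ℕ} (hτ : τ < 13) :
    cnt (P.QC τ) (P.s * i) (P.s * i + P.s) + (if P.sc i = τ then 1 else 0) = 2000000 := by
  classical
  obtain ⟨N, hN⟩ : ∃ N, N = 2000000 := ⟨_, rfl⟩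
  have hl : lam = 13 * N := by rw [hN]; rfl
  have hcc := class_card (N := N) hτ (w := P.om i) (by rw [← hl]; exact P.om_lt i)
  rw [P.om_mod] at hcc
  suffices key : cnt (P.QC τ) (P.s * i) (P.s * i + P.s) =
      ((range lam).filter (fun z => z ≠ P.om i ∧ z % 13 = τ)).card by
    rw [key, hl, hcc, hN]
  clear hcc
  have hf := P.facts
  have hV := P.V0_lt
  have hlap : ∀ t, P.s * i ≤ t → t < P.s * i + P.s → ∃ u, u < P.s ∧ t = P.s * i + u := by
    intro t h1 h2
    exact ⟨t - P.s * i, by omega, by omega⟩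
  unfold cnt
  refine Finset.card_bij (fun t _ => P.arr i ((t % P.s - P.V0) / 8)) ?_ ?_ ?_
  · intro t ht
    rw [Finset.mem_filter, Finset.mem_Ico] at ht
    obtain ⟨⟨h1, h2⟩, h3, h4⟩ := ht
    obtain ⟨u, hu, rfl⟩ := hlap t h1 h2
    rw [(P.divmod hu).1] at h4
    rw [Finset.mem_filter]
    exact ⟨Finset.mem_range.2 (P.arr_lt _ (P.idx_lt h3)), P.arr_ne _ _, h4⟩
  · intro t ht t' ht' heq
    rw [Finset.mem_filter, Finset.mem_Ico] at ht ht'
    obtain ⟨⟨h1, h2⟩, h3, h4⟩ := ht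
    obtain ⟨⟨h1', h2'⟩, h3', h4'⟩ := ht'
    obtain ⟨u, hu, rfl⟩ := hlap t h1 h2
    obtain ⟨u', hu', rfl⟩ := hlap t' h1' h2'
    have h5 := P.arr_inj heq
    rw [(P.divmod hu).2] at h5 h3
    rw [(P.divmod hu').2] at h5 h3'
    unfold IsS at h3 h3'
    have hV' : P.V0 = 8 * (P.k1 - 1) := rfl
    omega
  · intro z hz
    rw [Finset.mem_filter, Finset.mem_range] at hz
    obtain ⟨h1, h2, h3⟩ := hz
    obtain ⟨j, hj, hj2⟩ := P.arr_surj i h1 h2
    have hu : P.V0 + 8 * j + 5 < P.s := by omega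
    have hdm := P.divmod (i := i) hu
    have hV' : P.V0 = 8 * (P.k1 - 1) := rfl
    have hidx : (P.V0 + 8 * j + 5 - P.V0) / 8 = j := by omega
    refine ⟨P.s * i + (P.V0 + 8 * j + 5), ?_, ?_⟩
    · rw [Finset.mem_filter, Finset.mem_Ico]
      refine ⟨⟨by omega, by omega⟩, ?_, ?_⟩
      · rw [hdm.2]
        unfold IsS
        omega
      · rw [hdm.1, hdm.2, hidx, hj2]
        exact h3
    · show P.arr i _ = z
      rw [hdm.2, hidx, hj2]

/-- several complete laps -/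
lemma laps_cnt (i n : ℕ) {τ : ℕ} (hτ : τ < 13) :
    cnt (P.QC τ) (P.s * i) (P.s * (i + n)) + cnt (fun j => P.sc j = τ) i (i + n) =
      2000000 * n := by
  induction n with
  | zero => simp [cnt_self]
  | succ n ih =>
    have h1 : P.s * (i + (n + 1)) = P.s * (i + n) + P.s := by ring
    have h2 : P.s * i ≤ P.s * (i + n) := Nat.mul_le_mul_left _ (by omega)
    rw [h1, cnt_add _ h2 (by omega), show i + (n + 1) = (i + n) + 1 by ring,
      cnt_succ_right _ (by omega)]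
    have h3 := P.lap_cnt (i + n) hτ
    omega

/-- the register letters of a class in a long window -/
lemma win_cnt {i v i2 v2 b n : ℕ} {τ : ℕ} (hτ : τ < 13) (hv : v < P.s) (hv2 : v2 < P.s)
    (hb : P.s * i + v + b = P.s * i2 + v2) (hn : i2 = i + 1 + n) :
    ∃ x, x ≤ 4000000 ∧ cnt (P.QC τ) (P.s * i + v) (P.s * i + v + b) +
      cnt (fun j => P.sc j = τ) (i + 1) (i + 1 + n) = 2000000 * n + x := by
  have e1 : P.s * (i + 1) = P.s * i + P.s := by ring
  have e2 : P.s * i2 = P.s * (i + 1 + n) := by rw [hn]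
  have e3 : P.s * (i + 1) ≤ P.s * (i + 1 + n) := Nat.mul_le_mul_left _ (by omega)
  have h1 := P.laps_cnt (i + 1) n hτ
  have h2 := P.lap_cnt i hτ
  have h3 := P.lap_cnt i2 hτ
  rw [hb, cnt_add (P.QC τ) (a := P.s * i + v) (b := P.s * (i + 1)) (c := P.s * i2 + v2)
    (by omega) (by omega), cnt_add (P.QC τ) (a := P.s * (i + 1)) (b := P.s * i2)
    (c := P.s * i2 + v2) (by omega) (by omega)]
  rw [cnt_add (P.QC τ) (a := P.s * i) (b := P.s * i + v) (c := P.s * i + P.s) (by omega)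
    (by omega)] at h2
  rw [cnt_add (P.QC τ) (a := P.s * i2) (b := P.s * i2 + v2) (c := P.s * i2 + P.s) (by omega)
    (by omega)] at h3
  rw [e1] at *
  rw [e2] at *
  exact ⟨cnt (P.QC τ) (P.s * i + v) (P.s * i + P.s) +
    cnt (P.QC τ) (P.s * (i + 1 + n)) (P.s * (i + 1 + n) + v2), by omega, by omega⟩

/-- long windows -/
theorem large_case {i v i2 v2 i' v' i2' v2' b : ℕ} (hv : v < P.s) (hv2 : v2 < P.s)
    (hv' : v' < P.s) (hv2' : v2' < P.s) (hb : P.s * i + v + b = P.s * i2 + v2)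
    (hb' : P.s * i' + v' + b = P.s * i2' + v2') (hB : P.BM (P.s * i + v) (P.s * i' + v') b)
    (hbd : P.s * i + v + b ≤ P.s * i' + v') (hK : i + 4 * P.q ^ 142 < i2)
    (hdu : P.s * i' + v' ≤ P.s * i + v + P.m * (2 * b + 1)) : False := by
  obtain ⟨f1, f2, f3, f4, f5, f6, f7⟩ := P.facts
  have hs : P.s = P.m + 2 := rfl
  have hKK := (P.mfacts hv hv2 hv' hv2' hb hb' hB).1.1
  have hq0 : 0 < P.q ^ 142 := Nat.pow_pos (by have := P.hq; omega)
  obtain ⟨n, hn⟩ : ∃ n, i2 = i + 1 + n := ⟨i2 - (i + 1), by omega⟩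
  have hn2 : 4 * P.q ^ 142 ≤ n := by omega
  have hn' : i2' = i' + 1 + n := by omega
  -- lap distance
  have z2 : ((P.s * i + v + b : ℕ) : ℤ) ≤ ((P.s * i' + v' : ℕ) : ℤ) := by exact_mod_cast hbd
  have z1 : ((P.s * i + v + b : ℕ) : ℤ) = ((P.s * i2 + v2 : ℕ) : ℤ) := by rw [hb]
  have z3 : ((P.s * i' + v' : ℕ) : ℤ) ≤ ((P.s * i + v + P.m * (2 * b + 1) : ℕ) : ℤ) := by
    exact_mod_cast hdu
  have hs' : (P.s : ℤ) = P.m + 2 := by rw [hs]; push_cast; ring
  push_cast at z1 z2 z3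
  rw [hs'] at z1 z2 z3
  have hsv : (v : ℤ) < P.m + 2 ∧ (v2 : ℤ) < P.m + 2 ∧ (v' : ℤ) < P.m + 2 := by omega
  obtain ⟨D, hDd⟩ : ∃ D : ℤ, D = (i' : ℤ) - i := ⟨_, rfl⟩
  have hi2 : (i2 : ℤ) - i = n + 1 := by rw [hn]; push_cast; ring
  have hDl : (n : ℤ) + 1 ≤ D := by
    have h1 : 0 ≤ D - (n + 1) := lap_nonneg0 (m := P.m) (w := v' - v2) (by omega) (by
      have e : ((P.m : ℤ) + 2) * (D - (n + 1)) = (P.m + 2) * i' - (P.m + 2) * i2 := by
        rw [hDd, ← hi2]; ring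
      rw [e]
      linarith) (by omega)
    omega
  have hDu : D ≤ 2 * (P.m * (n + 1)) + 2 * P.m :=
    laps_upper (m := P.m) (K := n + 1) (v := v) (v2 := v2) (v' := v') (b := b) (by omega)
      (by omega) (by omega) (by omega) (by omega) (by omega)
      (by rw [← hi2]; linarith) (by rw [hDd]; linarith)
  obtain ⟨p, hp⟩ : ∃ p, i' = i + p := ⟨i' - i, by omega⟩
  have hDp : D = p := by rw [hDd, hp]; push_cast; ring
  rw [hDp] at hDl hDu
  have hnp : n ≤ p := by omega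
  have hpq : p ≤ P.q ^ 143 * n := by
    have h1 : p ≤ 3 * P.m * n := by
      have h2 : (p : ℤ) ≤ 3 * P.m * n := by
        have h3 : (P.m : ℤ) * 4 ≤ P.m * n := mul_le_mul_of_nonneg_left (by omega) (by omega)
        have h4 : (P.m : ℤ) * (n + 1) = P.m * n + P.m := by ring
        have h5 : 3 * (P.m : ℤ) * n = 3 * (P.m * n) := by ring
        rw [h5]
        rw [h4] at hDu
        generalize (P.m : ℤ) * n = x at *
        omega
      exact_mod_cast h2
    exact h1.trans (Nat.mul_le_mul_right _ P.hq1)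
  obtain ⟨g, hg, j, hj, hlt⟩ := struct_margin P.hq (i + 1) p n hn2 hnp hpq
  have hτ : 1 + 2 * g + j < 13 := by omega
  have hCol : ∀ x y, cnt (Col (P.q ^ 11) (AA P.q) (hh P.q) 6 g j) x y =
      cnt (fun k => P.sc k = 1 + 2 * g + j) x y := by
    intro x y
    apply cnt_congr
    intro k _ _
    have h1 := sS_iff (q := P.q) (by have := P.hq; omega) k (⟨g, hg⟩, ⟨j, by omega⟩)
    simp only at h1
    rw [← h1]
    unfold sc
    split
    · rename_i h2
      rw [h2]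
      simp only [reduceCtorEq, false_iff]
      omega
    · rename_i t h2
      rw [h2, Option.some.injEq, Prod.ext_iff, Fin.ext_iff, Fin.ext_iff]
      have h3 := t.1.isLt
      have h4 := t.2.isLt
      simp only
      constructor
      · rintro ⟨h5, h6⟩
        omega
      · intro h5
        omega
  rw [hCol, hCol] at hlt
  obtain ⟨x, hx, hx2⟩ := P.win_cnt hτ hv hv2 hb hn
  obtain ⟨y, hy, hy2⟩ := P.win_cnt hτ hv' hv2' hb' hn'
  classical
  have hE := hB.pred (fun w => ∃ z, z < lam ∧ z % 13 = 1 + 2 * g + j ∧ w = P.c3 z)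
  have hE2 : ∀ x y, cnt (fun t => ∃ z, z < lam ∧ z % 13 = 1 + 2 * g + j ∧ P.B t = P.c3 z) x y =
      cnt (P.QC (1 + 2 * g + j)) x y := fun x y => cnt_congr _ _ fun t _ _ =>
    (P.QC_iff _ t).symm
  rw [hE2, hE2] at hE
  have hAA : 4000000 < AA P.q := by
    unfold AA
    calc 4000000 < 100 ^ 54 := by norm_num
      _ ≤ P.q ^ 54 := Nat.pow_le_pow_left P.hq 54
  have e3 : i + 1 + p = i' + 1 := by omega
  rw [e3] at hlt
  generalize AA P.q = A at *
  omega

end Prm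

end MPbbea99N
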