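import Pool.Agent.Lib.Pbbea99.Final

/-!
# MP_bbea99_co: the lower bound `1 + 1/(n-3) ≤ ART n`
-/

namespace MPbbea99N

open Finset MPbbea99

lemma take_drop_eq_map {n : ℕ} (w : List (Fin n)) (x0 : Fin n) (A m : ℕ)
    (h : A + m ≤ w.length) :
    (w.drop A).take m = (List.range m).map (fun i => w.getD (A + i) x0) := by
  apply List.ext_getElem
  · simp
    omega
  · intro i h1 h2
    simp only [List.length_map, List.length_range] at h2
    simp only [List.getElem_take, List.getElem_drop, List.getElem_map, List.getElem_range]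
    rw [List.getD_eq_getElem?_getD, List.getElem?_eq_getElem (by omega)]
    rfl

/-- Abelian pairs of length `m` in an avoiding word are more than `(n-3) m` apart -/
lemma pair_far {n : ℕ} (hn : 4 ≤ n) {w : List (Fin n)} {s : ℝ} (hw : w ∈ AvoidSet s n)
    (hs : ((n : ℝ) - 3) * (s - 1) ≤ 1) (x0 : Fin n) (A m p : ℕ) (hm : 1 ≤ m) (hmp : m ≤ p)
    (hL : A + p + m ≤ w.length)
    (hperm : ((List.range m).map (fun i => w.getD (A + i) x0)).Perm
      ((List.range m).map (fun i => w.getD (A + p + i) x0))) : (n - 3) * m < p := by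
  by_contra hlt
  push Not at hlt
  rw [← take_drop_eq_map w x0 A m (by omega), ← take_drop_eq_map w x0 (A + p) m (by omega)]
    at hperm
  have hm0 : (0 : ℝ) < m := by exact_mod_cast hm
  have hp0 : (0 : ℝ) < p := by
    have : 0 < p := by omega
    exact_mod_cast this
  refine hw (1 + m / p) ?_ ?_ ?_ ⟨(w.drop A).take m, (w.drop (A + m)).take (p - m),
    (w.drop (A + p)).take m, ?_, hperm, ?_⟩
  · -- s ≤ 1 + m/p
    have h1 : (p : ℝ) ≤ ((n : ℝ) - 3) * m := by
      have : ((p : ℕ) : ℝ) ≤ (((n - 3) * m : ℕ) : ℝ) := by exact_mod_cast hlt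
      rw [Nat.cast_mul, Nat.cast_sub (by omega)] at this
      exact_mod_cast this
    have hn3 : (0 : ℝ) < (n : ℝ) - 3 := by
      have : (4 : ℝ) ≤ n := by exact_mod_cast hn
      linarith
    have h2 : s - 1 ≤ 1 / ((n : ℝ) - 3) := by
      rw [le_div_iff₀ hn3]
      linarith
    have h3 : 1 / ((n : ℝ) - 3) ≤ m / p := by
      rw [div_le_div_iff₀ hn3 hp0]
      linarith
    linarith
  · have : (0 : ℝ) < m / p := by positivity
    linarith
  · have : (m : ℝ) / p ≤ 1 := by
      rw [div_le_one hp0]
      exact_mod_cast hmp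
    linarith
  · refine ⟨w.take A, w.drop (A + p + m), ?_⟩
    have e1 : w.drop A = (w.drop A).take m ++ w.drop (A + m) := by
      conv_lhs => rw [← List.take_append_drop m (w.drop A), List.drop_drop]
    have e2 : w.drop (A + m) = (w.drop (A + m)).take (p - m) ++ w.drop (A + p) := by
      conv_lhs => rw [← List.take_append_drop (p - m) (w.drop (A + m)), List.drop_drop]
      congr 2
      omega
    have e3 : w.drop (A + p) = (w.drop (A + p)).take m ++ w.drop (A + p + m) := by
      conv_lhs => rw [← List.take_append_drop m (w.drop (A + p)), List.drop_drop]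
    calc w.take A ++ ((w.drop A).take m ++ (w.drop (A + m)).take (p - m) ++
          (w.drop (A + p)).take m) ++ w.drop (A + p + m)
        = w.take A ++ ((w.drop A).take m ++ ((w.drop (A + m)).take (p - m) ++
          ((w.drop (A + p)).take m ++ w.drop (A + p + m)))) := by simp
      _ = w.take A ++ w.drop A := by rw [← e3, ← e2, ← e1]
      _ = w := List.take_append_drop _ _
  · have l1 : ((w.drop A).take m).length = m := by
      rw [List.length_take, List.length_drop]
      omega
    have l2 : ((w.drop (A + m)).take (p - m)).length = p - m := by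
      rw [List.length_take, List.length_drop]
      omega
    simp only [List.length_append, l1, l2]
    have e : m + (p - m) = p := by omega
    rw [e]
    push_cast
    field_simp

/-- two windows with distinct letters and the same set of letters -/
lemma perm_of_image {n : ℕ} (a : ℕ → Fin n) (A B m : ℕ)
    (hA : ∀ i j, i < m → j < m → a (A + i) = a (A + j) → i = j)
    (hB : ∀ i j, i < m → j < m → a (B + i) = a (B + j) → i = j)
    (h : ∀ c, (∃ i, i < m ∧ a (A + i) = c) ↔ ∃ i, i < m ∧ a (B + i) = c) :
    ((List.range m).map (fun i => a (A + i))).Perm ((List.range m).map (fun i => a (B + i))) := by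
  rw [List.perm_ext_iff_of_nodup]
  · intro c
    simp only [List.mem_map, List.mem_range]
    exact h c
  · apply List.Nodup.map_on _ List.nodup_range
    intro i hi j hj hij
    exact hA i j (List.mem_range.1 hi) (List.mem_range.1 hj) hij
  · apply List.Nodup.map_on _ List.nodup_range
    intro i hi j hj hij
    exact hB i j (List.mem_range.1 hi) (List.mem_range.1 hj) hij

/-- the combinatorial core: a sequence over `n ≥ 7` letters of length `≥ 4 n` has an Abelian pair
of windows of length `m` at distance at most `(n-3) m` -/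
theorem core {n : ℕ} (hn : 7 ≤ n) (a : ℕ → Fin n) (L : ℕ)
    (hfar : ∀ A m p, 1 ≤ m → m ≤ p → A + p + m ≤ L →
      ((List.range m).map (fun i => a (A + i))).Perm
        ((List.range m).map (fun i => a (A + p + i))) → (n - 3) * m < p) : L < 4 * n := by
  by_contra hL
  push Not at hL
  -- equal letters are at least `n-2` apart
  have hA : ∀ i j, i < j → j < L → a i = a j → n - 2 ≤ j - i := by
    intro i j hij hj he
    have h := hfar i 1 (j - i) le_rfl (by omega) (by omega) (by
      have e : i + (j - i) + 0 = j := by omega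
      simp only [List.range_one, List.map_cons, List.map_nil, e, Nat.add_zero]
      rw [he])
    omega
  -- two consecutive repeats at distance `n-2` are impossible
  have hB : ∀ t, n - 2 ≤ t → t + 1 < L → ¬ (a t = a (t - (n - 2)) ∧
      a (t + 1) = a (t + 1 - (n - 2))) := by
    rintro t ht htL ⟨h1, h2⟩
    have h := hfar (t - (n - 2)) 2 (n - 2) (by omega) (by omega) (by omega) (by
      have r2 : List.range 2 = [0, 1] := by decide
      have e0 : t - (n - 2) + 0 = t - (n - 2) := by omega
      have e1 : t - (n - 2) + 1 = t + 1 - (n - 2) := by omega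
      have e2 : t - (n - 2) + (n - 2) + 0 = t := by omega
      have e3 : t - (n - 2) + (n - 2) + 1 = t + 1 := by omega
      simp only [r2, List.map_cons, List.map_nil, e0, e1, e2, e3]
      rw [h1, h2])
    omega
  -- good windows
  let good : ℕ → Prop := fun t => n - 2 ≤ t ∧ t < L ∧ a t ≠ a (t - (n - 2))
  have hinj : ∀ t, good t → ∀ i j, t - (n - 2) ≤ i → i ≤ t → t - (n - 2) ≤ j → j ≤ t →
      a i = a j → i = j := by
    rintro t ⟨h1, h2, h3⟩ i j hi1 hi2 hj1 hj2 he
    wlog hlt : i < j generalizing i j with H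
    · rcases Nat.lt_or_ge j i with h | h
      · exact (H j i hj1 hj2 hi1 hi2 he.symm h).symm
      · omega
    exfalso
    have h4 := hA i j hlt (by omega) he
    have h5 : i = t - (n - 2) := by omega
    have h6 : j = t := by omega
    rw [h5, h6] at he
    exact h3 he.symm
  -- the missing letter
  have hmiss : ∀ t, good t → ∃ c : Fin n, ∀ x, x ≠ c ↔ ∃ i, t - (n - 2) ≤ i ∧ i ≤ t ∧ a i = x := by
    intro t ht
    have hinj' := hinj t ht
    let S : Finset (Fin n) := (Finset.Icc (t - (n - 2)) t).image a
    have hS : S.card = n - 1 := by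
      rw [Finset.card_image_of_injOn]
      · rw [Nat.card_Icc]
        have := ht.1
        omega
      · intro i hi j hj he
        simp only [Finset.coe_Icc, Set.mem_Icc] at hi hj
        exact hinj' i j hi.1 hi.2 hj.1 hj.2 he
    have hSc : Sᶜ.card = 1 := by
      rw [Finset.card_compl, hS, Fintype.card_fin]
      omega
    obtain ⟨c, hc⟩ := Finset.card_eq_one.1 hSc
    refine ⟨c, fun x => ?_⟩
    have h1 : x ∈ Sᶜ ↔ x = c := by rw [hc, Finset.mem_singleton]
    rw [Finset.mem_compl] at h1
    constructor
    · intro hx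
      have h2 : x ∈ S := by
        by_contra h
        exact hx (h1.1 h)
      obtain ⟨i, hi, hix⟩ := Finset.mem_image.1 h2
      rw [Finset.mem_Icc] at hi
      exact ⟨i, hi.1, hi.2, hix⟩
    · rintro ⟨i, hi1, hi2, hix⟩ hx
      exact h1.2 hx (Finset.mem_image.2 ⟨i, Finset.mem_Icc.2 ⟨hi1, hi2⟩, hix⟩)
  -- distinct missing letters
  have hD : ∀ t t', good t → good t' → t + 2 ≤ t' → t' - t ≤ (n - 3) * (n - 1) → ∀ c,
      (∀ x, x ≠ c ↔ ∃ i, t - (n - 2) ≤ i ∧ i ≤ t ∧ a i = x) →
      (∀ x, x ≠ c ↔ ∃ i, t' - (n - 2) ≤ i ∧ i ≤ t' ∧ a i = x) → False := by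
    intro t t' ht ht' htt hle c hc hc'
    have i1 := hinj t ht
    have i2 := hinj t' ht'
    obtain ⟨g1, g2, -⟩ := ht
    obtain ⟨g1', g2', -⟩ := ht'
    rcases Nat.lt_or_ge (t' - t) (n - 1) with hlt | hge
    · -- overlapping windows
      have h := hfar (t - (n - 2)) (t' - t) (n - 1) (by omega) (by omega) (by omega) (by
        have e : t - (n - 2) + (n - 1) = t + 1 := by omega
        rw [e]
        apply perm_of_image
        · intro i j hi hj he
          have := i1 _ _ (by omega) (by omega) (by omega) (by omega) he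
          omega
        · intro i j hi hj he
          have := i2 _ _ (by omega) (by omega) (by omega) (by omega) he
          omega
        · intro x
          constructor
          · rintro ⟨i, hi, hix⟩
            have hx : x ≠ c := (hc x).2 ⟨_, by omega, by omega, hix⟩
            obtain ⟨j, hj1, hj2, hjx⟩ := (hc' x).1 hx
            rcases Nat.lt_or_ge t j with h | h
            · refine ⟨j - (t + 1), by omega, ?_⟩
              have e : t + 1 + (j - (t + 1)) = j := by omega
              rw [e]
              exact hjx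
            · exfalso
              have := i1 (t - (n - 2) + i) j (by omega) (by omega) (by omega) (by omega)
                (by rw [hix, hjx])
              omega
          · rintro ⟨i, hi, hix⟩
            have hx : x ≠ c := (hc' x).2 ⟨_, by omega, by omega, hix⟩
            obtain ⟨j, hj1, hj2, hjx⟩ := (hc x).1 hx
            rcases Nat.lt_or_ge j (t' - (n - 2)) with h | h
            · refine ⟨j - (t - (n - 2)), by omega, ?_⟩
              have e : t - (n - 2) + (j - (t - (n - 2))) = j := by omega
              rw [e]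
              exact hjx
            · exfalso
              have := i2 (t + 1 + i) j (by omega) (by omega) (by omega) (by omega)
                (by rw [hix, hjx])
              omega)
      have h2 : (n - 3) * 2 ≤ (n - 3) * (t' - t) := Nat.mul_le_mul le_rfl (by omega)
      omega
    · -- disjoint windows
      have h := hfar (t - (n - 2)) (n - 1) (t' - t) (by omega) hge (by omega) (by
        have e : t - (n - 2) + (t' - t) = t' - (n - 2) := by omega
        rw [e]
        apply perm_of_image
        · intro i j hi hj he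
          have := i1 _ _ (by omega) (by omega) (by omega) (by omega) he
          omega
        · intro i j hi hj he
          have := i2 _ _ (by omega) (by omega) (by omega) (by omega) he
          omega
        · intro x
          constructor
          · rintro ⟨i, hi, hix⟩
            have hx : x ≠ c := (hc x).2 ⟨_, by omega, by omega, hix⟩
            obtain ⟨j, hj1, hj2, hjx⟩ := (hc' x).1 hx
            refine ⟨j - (t' - (n - 2)), by omega, ?_⟩
            have e : t' - (n - 2) + (j - (t' - (n - 2))) = j := by omega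
            rw [e]
            exact hjx
          · rintro ⟨i, hi, hix⟩
            have hx : x ≠ c := (hc' x).2 ⟨_, by omega, by omega, hix⟩
            obtain ⟨j, hj1, hj2, hjx⟩ := (hc x).1 hx
            refine ⟨j - (t - (n - 2)), by omega, ?_⟩
            have e : t - (n - 2) + (j - (t - (n - 2))) = j := by omega
            rw [e]
            exact hjx)
      omega
  -- pigeonhole
  have hg : ∀ k : Fin (n + 1), ∃ t, good t ∧ n - 2 + 3 * k.val ≤ t ∧ t ≤ n - 2 + 3 * k.val + 1 := by
    intro k
    have hk := k.isLt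
    by_cases h1 : a (n - 2 + 3 * k.val) = a (n - 2 + 3 * k.val - (n - 2))
    · refine ⟨n - 2 + 3 * k.val + 1, ⟨by omega, by omega, fun h2 => ?_⟩, by omega, by omega⟩
      exact hB _ (by omega) (by omega) ⟨h1, h2⟩
    · exact ⟨n - 2 + 3 * k.val, ⟨by omega, by omega, h1⟩, by omega, by omega⟩
  choose g hg1 hg2 hg3 using hg
  have hm : ∀ k, ∃ c : Fin n, ∀ x, x ≠ c ↔
      ∃ i, g k - (n - 2) ≤ i ∧ i ≤ g k ∧ a i = x := fun k => hmiss (g k) (hg1 k)
  choose c hc using hm
  obtain ⟨i, j, hij, hne⟩ := Fintype.exists_ne_map_eq_of_card_lt c (by simp)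
  wlog hlt : i.val < j.val generalizing i j with H
  · apply H j i hij.symm hne.symm
    have : i.val ≠ j.val := fun h => hij (Fin.ext h)
    omega
  have hi := i.isLt
  have hj := j.isLt
  have a1 := hg2 i
  have a2 := hg3 i
  have a3 := hg2 j
  have a4 := hg3 j
  have hrange : 3 * n + 1 ≤ (n - 3) * (n - 1) := by
    obtain ⟨k, rfl⟩ : ∃ k, n = k + 7 := ⟨n - 7, by omega⟩
    have e1 : k + 7 - 3 = k + 4 := by omega
    have e2 : k + 7 - 1 = k + 6 := by omega
    rw [e1, e2]
    nlinarith
  refine hD (g i) (g j) (hg1 i) (hg1 j) (by omega) (by omega) (c i) (hc i) ?_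
  rw [hne]
  exact hc j

/-- Samsonov–Shur: for `n ≥ 7` letters no exponent `≤ 1 + 1/(n-3)` is avoidable -/
theorem not_avoid_three {n : ℕ} (hn : 7 ≤ n) {s : ℝ} (hs : s ≤ 1 + 1 / ((n : ℝ) - 3)) :
    ¬ Avoid s n := by
  unfold Avoid
  rw [Set.not_infinite]
  have hfin : {w : List (Fin n) | w.length < 4 * n}.Finite := List.finite_length_lt (Fin n) (4 * n)
  apply hfin.subset
  intro w hw
  simp only [Set.mem_ofPred_eq]
  have hn3 : (0 : ℝ) < (n : ℝ) - 3 := by
    have : (7 : ℝ) ≤ n := by exact_mod_cast hn
    linarith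
  have hs' : ((n : ℝ) - 3) * (s - 1) ≤ 1 := by
    have h1 : s - 1 ≤ 1 / ((n : ℝ) - 3) := by linarith
    rw [le_div_iff₀ hn3] at h1
    linarith
  exact core hn (fun i => w.getD i ⟨0, by omega⟩) w.length
    (fun A m p hm hmp hL hperm => pair_far (by omega) hw hs' ⟨0, by omega⟩ A m p hm hmp hL hperm)

theorem ART_lower_three {n : ℕ} (hn : 7 ≤ n) : 1 + 1 / ((n : ℝ) - 3) ≤ ART n := by
  apply le_csInf
  · exact ⟨3, avoid_of_two_lt (by norm_num) (by omega)⟩
  · intro s hs
    by_contra hlt
    push Not at hlt
    exact not_avoid_three hn hlt.le hs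

lemma encounters_of_map {α β : Type*} {f : α → β} (hf : Function.Injective f) {w : List α}
    {r : ℝ} (h : Encounters (w.map f) r) : Encounters w r := by
  obtain ⟨u, v, u', ⟨s, t, hst⟩, hperm, hlen⟩ := h
  have h1 : s ++ (u ++ v ++ u') ++ t = w.map f := hst
  obtain ⟨w1, t0, hw1, h2, h3⟩ := List.append_eq_map_iff.1 h1
  obtain ⟨s0, w2, hw2, h4, h5⟩ := List.append_eq_map_iff.1 h2.symm
  obtain ⟨w3, u0', hw3, h6, h7⟩ := List.append_eq_map_iff.1 h5.symm
  obtain ⟨u0, v0, hw4, h8, h9⟩ := List.append_eq_map_iff.1 h6.symm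
  refine ⟨u0, v0, u0', ⟨s0, t0, ?_⟩, ?_, ?_⟩
  · rw [hw1, hw2, hw3, hw4]
  · rw [← h8, ← h7] at hperm
    exact (List.map_perm_map_iff hf).1 hperm
  · rw [← hlen, ← h8, ← h9]
    simp

/-- more letters are easier -/
lemma avoid_letters {s : ℝ} {n n' : ℕ} (h : Avoid s n) (hn : n ≤ n') : Avoid s n' := by
  have hinj : Function.Injective (List.map (Fin.castLE hn)) :=
    List.map_injective_iff.2 (Fin.castLE_injective hn)
  have h1 := Set.Infinite.image (f := List.map (Fin.castLE hn)) (hinj.injOn) h
  apply Set.Infinite.mono _ h1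
  rintro w ⟨w0, hw0, rfl⟩ r h2 h3 h4 henc
  exact hw0 r h2 h3 h4 (encounters_of_map (Fin.castLE_injective hn) henc)

theorem DART_lower_three {r : ℝ} (hr1 : 1 < r) (hx : 4 ≤ 1 / (r - 1)) :
    ⌊1 / (r - 1)⌋₊ + 4 ≤ DART r := by
  by_contra hlt
  push Not at hlt
  set x : ℝ := 1 / (r - 1) with hxdef
  have h0 : 0 < r - 1 := by linarith
  have hE4 : 4 ≤ ⌊x⌋₊ := Nat.le_floor (by exact_mod_cast hx)
  have hfl : (⌊x⌋₊ : ℝ) ≤ x := Nat.floor_le (by linarith)
  have hav : Avoid r (⌊x⌋₊ + 3) := avoid_letters (DART_mem hr1) (by omega)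
  refine not_avoid_three (n := ⌊x⌋₊ + 3) (by omega) ?_ hav
  have hE0 : (0 : ℝ) < ⌊x⌋₊ := by
    have : 0 < ⌊x⌋₊ := by omega
    exact_mod_cast this
  have e : ((⌊x⌋₊ + 3 : ℕ) : ℝ) - 3 = ⌊x⌋₊ := by push_cast; ring
  rw [e]
  have h1 : r - 1 = 1 / x := by
    rw [hxdef, one_div_one_div]
  have h2 : 1 / x ≤ 1 / (⌊x⌋₊ : ℝ) := one_div_le_one_div_of_le hE0 hfl
  linarith

/-- `E + 3` letters are too few for the exponent `1 + 1/E` -/
theorem not_avoid_E {E : ℕ} (hE : 4 ≤ E) : ¬ Avoid (1 + 1 / (E : ℝ)) (E + 3) := by
  apply not_avoid_three (by omega)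
  have e : ((E + 3 : ℕ) : ℝ) - 3 = E := by push_cast; ring
  rw [e]

end MPbbea99N
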