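import Pool.Agent.Lib.Pbbea99N.Low
import Pool.Agent.Lib.Pbbea99S.Defs

/-!
# MP_bbea99_co: the lower bound `1 + 1/(n-3)` for the definitions of `MPbbea99S`
-/

namespace MPbbea99NS

open Finset MPbbea99N

/-- Abelian pairs of length `m` in an avoiding word are more than `(n-3) m` apart -/
lemma pair_far {n : ℕ} (hn : 4 ≤ n) {w : List (Fin n)} {s : ℝ} (hw : w ∈ MPbbea99S.AvoidSet s n)
    (hs : ((n : ℝ) - 3) * (s - 1) ≤ 1) (x0 : Fin n) (A m p : ℕ) (hm : 1 ≤ m) (hmp : m ≤ p)
    (hL : A + p + m ≤ w.length)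
    (hperm : ((List.range m).map (fun i => w.getD (A + i) x0)).Perm
      ((List.range m).map (fun i => w.getD (A + p + i) x0))) : (n - 3) * m < p := by
  by_contra hlt
  push Not at hlt
  rw [← take_drop_eq_map w x0 A m (by omega), ← take_drop_eq_map w x0 (A + p) m (by omega)]
    at hperm
  have hm0 : (0 : ℝ) < m := by exact_mod_cast hm
  have hp0 : (0 : ℝ) < p := by
    have : 0 < p := by omega
    exact_mod_cast this
  refine hw (1 + m / p) ?_ ?_ ?_ ⟨(w.drop A).take m, (w.drop (A + m)).take (p - m),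
    (w.drop (A + p)).take m, ?_, hperm, ?_⟩
  · -- s ≤ 1 + m/p
    have h1 : (p : ℝ) ≤ ((n : ℝ) - 3) * m := by
      have : ((p : ℕ) : ℝ) ≤ (((n - 3) * m : ℕ) : ℝ) := by exact_mod_cast hlt
      rw [Nat.cast_mul, Nat.cast_sub (by omega)] at this
      exact_mod_cast this
    have hn3 : (0 : ℝ) < (n : ℝ) - 3 := by
      have : (4 : ℝ) ≤ n := by exact_mod_cast hn
      linarith
    have h2 : s - 1 ≤ 1 / ((n : ℝ) - 3) := by
      rw [le_div_iff₀ hn3]
      linarith
    have h3 : 1 / ((n : ℝ) - 3) ≤ m / p := by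
      rw [div_le_div_iff₀ hn3 hp0]
      linarith
    linarith
  · have : (0 : ℝ) < m / p := by positivity
    linarith
  · have : (m : ℝ) / p ≤ 1 := by
      rw [div_le_one hp0]
      exact_mod_cast hmp
    linarith
  · refine ⟨w.take A, w.drop (A + p + m), ?_⟩
    have e1 : w.drop A = (w.drop A).take m ++ w.drop (A + m) := by
      conv_lhs => rw [← List.take_append_drop m (w.drop A), List.drop_drop]
    have e2 : w.drop (A + m) = (w.drop (A + m)).take (p - m) ++ w.drop (A + p) := by
      conv_lhs => rw [← List.take_append_drop (p - m) (w.drop (A + m)), List.drop_drop]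
      congr 2
      omega
    have e3 : w.drop (A + p) = (w.drop (A + p)).take m ++ w.drop (A + p + m) := by
      conv_lhs => rw [← List.take_append_drop m (w.drop (A + p)), List.drop_drop]
    calc w.take A ++ ((w.drop A).take m ++ (w.drop (A + m)).take (p - m) ++
          (w.drop (A + p)).take m) ++ w.drop (A + p + m)
        = w.take A ++ ((w.drop A).take m ++ ((w.drop (A + m)).take (p - m) ++
          ((w.drop (A + p)).take m ++ w.drop (A + p + m)))) := by simp
      _ = w.take A ++ w.drop A := by rw [← e3, ← e2, ← e1]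
      _ = w := List.take_append_drop _ _
  · have l1 : ((w.drop A).take m).length = m := by
      rw [List.length_take, List.length_drop]
      omega
    have l2 : ((w.drop (A + m)).take (p - m)).length = p - m := by
      rw [List.length_take, List.length_drop]
      omega
    simp only [List.length_append, l1, l2]
    have e : m + (p - m) = p := by omega
    rw [e]
    push_cast
    field_simp

/-- Samsonov–Shur: for `n ≥ 7` letters no exponent `≤ 1 + 1/(n-3)` is avoidable -/
theorem not_avoid_three {n : ℕ} (hn : 7 ≤ n) {s : ℝ} (hs : s ≤ 1 + 1 / ((n : ℝ) - 3)) :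
    ¬ MPbbea99S.Avoid s n := by
  unfold MPbbea99S.Avoid
  rw [Set.not_infinite]
  have hfin : {w : List (Fin n) | w.length < 4 * n}.Finite := List.finite_length_lt (Fin n) (4 * n)
  apply hfin.subset
  intro w hw
  simp only [Set.mem_ofPred_eq]
  have hn3 : (0 : ℝ) < (n : ℝ) - 3 := by
    have : (7 : ℝ) ≤ n := by exact_mod_cast hn
    linarith
  have hs' : ((n : ℝ) - 3) * (s - 1) ≤ 1 := by
    have h1 : s - 1 ≤ 1 / ((n : ℝ) - 3) := by linarith
    rw [le_div_iff₀ hn3] at h1
    linarith
  exact core hn (fun i => w.getD i ⟨0, by omega⟩) w.length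
    (fun A m p hm hmp hL hperm => pair_far (by omega) hw hs' ⟨0, by omega⟩ A m p hm hmp hL hperm)

/-- `E + 3` letters are too few for the exponent `1 + 1/E` -/
theorem not_avoid_E {E : ℕ} (hE : 4 ≤ E) : ¬ MPbbea99S.Avoid (1 + 1 / (E : ℝ)) (E + 3) := by
  apply not_avoid_three (by omega)
  have e : ((E + 3 : ℕ) : ℝ) - 3 = E := by push_cast; ring
  rw [e]

end MPbbea99NS
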