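import Pool.Agent.Lib.Pbbea99N.Sys
import Pool.Agent.Lib.Pbbea99N.Cl

/-!
# MP_bbea99_co: what equal windows of track `B` have in common
-/

namespace MPbbea99N

open Finset MPbbea99 MPbbea99L

lemma dvd_flip {k K w : ℤ} (h : k ∣ (k - 1) * K + w) : k ∣ w - K := by
  have e : w - K = ((k - 1) * K + w) - k * K := by ring
  rw [e]
  exact dvd_sub h (dvd_mul_right _ _)

/-- windows of the index sequence with the same residues -/
lemma residue_int {M : ℕ} (hM : 0 < M) {x x2 y y2 : ℕ} (hx : x ≤ x2) (hy : y ≤ y2)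
    (h : ∀ z < M, cnt (fun n => n % M = z) x x2 = cnt (fun n => n % M = z) y y2) :
    (x2 : ℤ) - x = y2 - y ∧ ((M : ℤ) ∣ (x2 : ℤ) - x ∨ (M : ℤ) ∣ (y : ℤ) - x) := by
  have h1 : x2 - x = y2 - y := by
    rw [← sum_residues hM hx, ← sum_residues hM hy]
    exact Finset.sum_congr rfl fun z hz => h z (Finset.mem_range.1 hz)
  refine ⟨by omega, ?_⟩
  obtain ⟨L, rfl⟩ := Nat.exists_eq_add_of_le hx
  have hy2 : y2 = y + L := by omega
  subst hy2
  rcases residue_claim hM x y L h with h2 | h2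
  · left
    have : ((x + L : ℕ) : ℤ) - x = L := by push_cast; ring
    rw [this]
    exact_mod_cast h2
  · right
    exact Nat.modEq_iff_dvd.1 h2

namespace Prm

variable (P : Prm)

/-- consequences of a match of windows of track `B` -/
theorem mfacts {i v i2 v2 i' v' i2' v2' b : ℕ} (hv : v < P.s) (hv2 : v2 < P.s) (hv' : v' < P.s)
    (hv2' : v2' < P.s) (hb : P.s * i + v + b = P.s * i2 + v2)
    (hb' : P.s * i' + v' + b = P.s * i2' + v2') (hB : P.BM (P.s * i + v) (P.s * i' + v') b) :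
    ((i2 : ℤ) - i = i2' - i' ∧ ((v' = v ∧ v2' = v2) ∨ (v2 = v ∧ v2' = v') ∨
      (v' = v + 1 ∧ v2' = v2 + 1 ∧ ¬ P.IsF v ∧ ¬ P.IsF v2) ∨
      (v = v' + 1 ∧ v2 = v2' + 1 ∧ ¬ P.IsF v' ∧ ¬ P.IsF v2') ∨
      (v2 = v + 1 ∧ v2' = v' + 1 ∧ ¬ P.IsF v ∧ ¬ P.IsF v') ∨
      (v = v2 + 1 ∧ v' = v2' + 1 ∧ ¬ P.IsF v2 ∧ ¬ P.IsF v2'))) ∧
    ((P.a1 v2 : ℤ) - P.a1 v = P.a1 v2' - P.a1 v') ∧
    ((P.a2 v2 : ℤ) - P.a2 v = P.a2 v2' - P.a2 v') ∧
    ((P.k1 : ℤ) ∣ (P.a1 v2 : ℤ) - P.a1 v - (i2 - i) ∨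
      (P.k1 : ℤ) ∣ (P.a1 v' : ℤ) - P.a1 v - (i' - i)) ∧
    ((P.k2 : ℤ) ∣ (P.a2 v2 : ℤ) - P.a2 v - (i2 - i) ∨
      (P.k2 : ℤ) ∣ (P.a2 v' : ℤ) - P.a2 v - (i' - i)) := by
  have hf := P.facts
  have hs := P.s_pos
  have hfc := fclass (F := P.IsF) (s := P.s) (by omega) (by
    intro u _
    unfold IsF IsY1 IsY2 IsS V0
    omega) (by
    unfold IsF IsY1 IsY2 IsS V0 s lam
    omega) hv hv2 hv' hv2' (K := (i2 : ℤ) - i) (K' := (i2' : ℤ) - i') (by
      have h1 : ((P.s * i + v + b : ℕ) : ℤ) = ((P.s * i2 + v2 : ℕ) : ℤ) := by rw [hb]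
      have h2 : ((P.s * i' + v' + b : ℕ) : ℤ) = ((P.s * i2' + v2' : ℕ) : ℤ) := by rw [hb']
      push_cast at h1 h2
      linarith) (by
    intro u hu hF
    have h1 := hB u
    have e : ∀ x y, cnt (fun t => P.B t = u) x y = cnt (fun t => t % P.s = u) x y :=
      fun x y => cnt_congr _ _ fun t _ _ => P.B_F t u hu hF
    rw [e, e, cnt_class' hu (by omega), cnt_class' hu (by omega), hb, hb', idx_eq hu i2 hv2,
      idx_eq hu i hv, idx_eq hu i2' hv2', idx_eq hu i' hv'] at h1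
    have h3 : P.s * i + v ≤ P.s * i2 + v2 := by omega
    have h4 : P.s * i' + v' ≤ P.s * i2' + v2' := by omega
    have h5 := idx_mono (k := P.s) (c := u) h3
    have h6 := idx_mono (k := P.s) (c := u) h4
    rw [idx_eq hu i hv, idx_eq hu i2 hv2] at h5
    rw [idx_eq hu i' hv', idx_eq hu i2' hv2'] at h6
    split_ifs at * <;> omega)
  have hY1 := residue_int (M := P.k1) (by omega) (x := P.N1 (P.s * i + v))
    (x2 := P.N1 (P.s * i + v + b)) (y := P.N1 (P.s * i' + v')) (y2 := P.N1 (P.s * i' + v' + b))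
    (cnt_thin _ P.N1 P.N1_succ (fun _ => True) (by omega)).1
    (cnt_thin _ P.N1 P.N1_succ (fun _ => True) (by omega)).1 (by
    intro z hz
    have h1 := hB (P.c1 z)
    have e : ∀ x y, cnt (fun t => P.B t = P.c1 z) x y =
        cnt (fun t => P.IsY1 (t % P.s) ∧ P.N1 t % P.k1 = z) x y :=
      fun x y => cnt_congr _ _ fun t _ _ => P.B_c1 t z hz
    rw [e, e, (cnt_thin _ P.N1 P.N1_succ (fun n => n % P.k1 = z) (by omega)).2,
      (cnt_thin _ P.N1 P.N1_succ (fun n => n % P.k1 = z) (by omega)).2] at h1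
    exact h1)
  have hY2 := residue_int (M := P.k2) (by omega) (x := P.N2 (P.s * i + v))
    (x2 := P.N2 (P.s * i + v + b)) (y := P.N2 (P.s * i' + v')) (y2 := P.N2 (P.s * i' + v' + b))
    (cnt_thin _ P.N2 P.N2_succ (fun _ => True) (by omega)).1
    (cnt_thin _ P.N2 P.N2_succ (fun _ => True) (by omega)).1 (by
    intro z hz
    have h1 := hB (P.c2 z)
    have e : ∀ x y, cnt (fun t => P.B t = P.c2 z) x y =
        cnt (fun t => P.IsY2 (t % P.s) ∧ P.N2 t % P.k2 = z) x y :=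
      fun x y => cnt_congr _ _ fun t _ _ => P.B_c2 t z hz
    rw [e, e, (cnt_thin _ P.N2 P.N2_succ (fun n => n % P.k2 = z) (by omega)).2,
      (cnt_thin _ P.N2 P.N2_succ (fun n => n % P.k2 = z) (by omega)).2] at h1
    exact h1)
  rw [hb, hb', P.N1_lap hv, P.N1_lap hv2, P.N1_lap hv', P.N1_lap hv2'] at hY1
  rw [hb, hb', P.N2_lap hv, P.N2_lap hv2, P.N2_lap hv', P.N2_lap hv2'] at hY2
  have hk1 : ((P.k1 - 1 : ℕ) : ℤ) = (P.k1 : ℤ) - 1 := by omega
  have hk2 : ((P.k2 - 1 : ℕ) : ℤ) = (P.k2 : ℤ) - 1 := by omega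
  push_cast at hY1 hY2
  rw [hk1] at hY1
  rw [hk2] at hY2
  have hKK := hfc.1
  refine ⟨hfc, ?_, ?_, ?_, ?_⟩
  · have h1 := hY1.1
    have h2 : ((P.k1 : ℤ) - 1) * ((i2 : ℤ) - i) = ((P.k1 : ℤ) - 1) * (i2' - i') := by rw [hKK]
    linarith
  · have h1 := hY2.1
    have h2 : ((P.k2 : ℤ) - 1) * ((i2 : ℤ) - i) = ((P.k2 : ℤ) - 1) * (i2' - i') := by rw [hKK]
    linarith
  · rcases hY1.2 with h1 | h1
    · left
      apply dvd_flip
      refine h1.trans (dvd_of_eq ?_)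
      ring
    · right
      apply dvd_flip
      refine h1.trans (dvd_of_eq ?_)
      ring
  · rcases hY2.2 with h1 | h1
    · left
      apply dvd_flip
      refine h1.trans (dvd_of_eq ?_)
      ring
    · right
      apply dvd_flip
      refine h1.trans (dvd_of_eq ?_)
      ring

end Prm

end MPbbea99N
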