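import Pool.Agent.Lib.Pbbea99N.Fin

/-!
# MP_bbea99_co: the final bounds
-/

namespace MPbbea99N

open Finset MPbbea99 MPbbea99L

/-- a uniform bound for all `E` -/
lemma avoid_all5 {E : ℕ} (hE : 1 ≤ E) {n : ℕ} (hn : E + 441999 ≤ n) :
    Avoid (1 + 1 / (E : ℝ)) n := by
  rcases Nat.lt_or_ge E 3 with h3 | h3
  · refine (avoid_log 3 n le_rfl ?_).mono ?_
    · have : Nat.log 2 3 = 1 := by norm_num [Nat.log_eq_iff]
      rw [this]
      omega
    · have hE0 : (0 : ℝ) < E := by exact_mod_cast hE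
      have h4 : (E : ℝ) ≤ (3 : ℕ) := by exact_mod_cast h3.le
      have := one_div_le_one_div_of_le hE0 h4
      linarith
  · rcases Nat.lt_or_ge E (2 ^ 7001) with h4 | h4
    · refine avoid_log E n h3 ?_
      have h5 : Nat.log 2 E < 7001 := Nat.log_lt_of_lt_pow (by omega) h4
      clear h4
      omega
    · -- larger alphabets
      obtain ⟨k, hk⟩ : ∃ k, n = k + 5 := ⟨n - 5, by clear h4; omega⟩
      have hkE : E + 1 ≤ k := by clear h4; omega
      have hk2 : 2 ^ 7001 ≤ k := h4.trans (by clear h4; omega)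
      rw [hk]
      apply avoid_five hk2
      have hE0 : (0 : ℝ) < E := by exact_mod_cast hE
      have h5 : (E : ℝ) < k := by exact_mod_cast hkE
      have := one_div_lt_one_div_of_lt hE0 h5
      linarith

lemma ART_upper5 {n : ℕ} (hn : 442000 < n) : ART n ≤ 1 + 1 / ((n : ℝ) - 442000) := by
  have h1 := ART_le_of_avoid (n := n) (by omega)
    (avoid_all5 (E := n - 442000) (by omega) (n := n) (by omega))
  rwa [Nat.cast_sub hn.le] at h1

lemma DART_upper5 {r : ℝ} (hr1 : 1 < r) (hr2 : r ≤ 2) :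
    (DART r : ℝ) ≤ 1 / (r - 1) + 442000 := by
  have h0 : 0 < r - 1 := by linarith
  have hx1 : 1 ≤ 1 / (r - 1) := by rw [le_div_iff₀ h0]; linarith
  have hE : 1 ≤ ⌈1 / (r - 1)⌉₊ := Nat.one_le_ceil_iff.2 (by linarith)
  have h1 : DART r ≤ ⌈1 / (r - 1)⌉₊ + 441999 :=
    Nat.sInf_le (avoid_ceil hr1 (avoid_all5 hE le_rfl))
  have h2 : (DART r : ℝ) ≤ ⌈1 / (r - 1)⌉₊ + 441999 := by exact_mod_cast h1
  have h3 := Nat.ceil_lt_add_one (a := 1 / (r - 1)) (by linarith)
  linarith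

/-- integer form of the lower bound -/
lemma DART_lower5 {r : ℝ} (hr1 : 1 < r) (hr2 : r ≤ 2) : ⌊1 / (r - 1)⌋₊ + 2 ≤ DART r := by
  have h1 := DART_lower' hr1 hr2
  have h0 : 0 < 1 / (r - 1) := by
    have : 0 < r - 1 := by linarith
    positivity
  have h2 : (⌊1 / (r - 1)⌋₊ : ℝ) ≤ 1 / (r - 1) := Nat.floor_le h0.le
  have h3 : ((⌊1 / (r - 1)⌋₊ + 1 : ℕ) : ℝ) < DART r := by
    push_cast
    linarith
  have h4 : ⌊1 / (r - 1)⌋₊ + 1 < DART r := by exact_mod_cast h3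
  omega

end MPbbea99N
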