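import Pool.Agent.Lib.Pbbea99N.Tr

/-!
# MP_bbea99_co: the word with two tracks
-/

namespace MPbbea99N

open Finset MPbbea99 MPbbea99L

/-- the word: track `A` at the odd residues modulo `E`, track `B` at the even ones -/
noncomputable def W (P : Prm) (E x : ℕ) : ℕ :=
  if (x % E) % 2 = 1 then P.m + 5 + (x % E) / 2 else P.B (be E x)

lemma W_lt {P : Prm} {E : ℕ} (hE : 3 ≤ E) (hm : P.m = (E + 1) / 2) (x : ℕ) :
    W P E x < E + 5 := by
  have h1 := Nat.mod_lt x (by omega : 0 < E)
  have h2 := P.B_lt (be E x)
  unfold W
  split_ifs <;> omega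

lemma W_A {P : Prm} {E : ℕ} (hE : 3 ≤ E) (x z : ℕ) :
    W P E x = P.m + 5 + z ↔ (x % E) % 2 = 1 ∧ al E x % (E / 2) = z := by
  have h1 := Nat.mod_lt x (by omega : 0 < E)
  have h2 := P.B_lt (be E x)
  have h3 : (x % E) % 2 = 1 → al E x % (E / 2) = (x % E) / 2 := by
    intro h
    unfold al
    rw [Nat.mul_add_mod, Nat.mod_eq_of_lt (by omega)]
  unfold W
  split_ifs with h
  · rw [h3 h]
    omega
  · omega

lemma W_B {P : Prm} {E : ℕ} (x w : ℕ) (hw : w < P.m + 5) :
    W P E x = w ↔ (x % E) % 2 = 0 ∧ P.B (be E x) = w := by
  unfold W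
  split_ifs with h <;> omega

lemma dvd_of_mod {E a p : ℕ} (h : (a + p) % E = a % E) : E ∣ p := by
  have h1 : a ≡ a + p [MOD E] := h.symm
  have h2 := (Nat.modEq_iff_dvd' (by omega)).1 h1
  rwa [Nat.add_sub_cancel_left] at h2

/-- the main window theorem -/
theorem window (P : Prm) {E : ℕ} (hE : 4 ≤ E) (hm : P.m = (E + 1) / 2) (x q p : ℕ) (hq : 1 ≤ q)
    (hqp : q ≤ p) (hpE : p < E * q)
    (h : ∀ c, cnt (fun i => W P E i = c) x (x + q) =
      cnt (fun i => W P E i = c) (x + p) (x + p + q)) : False := by
  have hE3 : 3 ≤ E := by omega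
  -- track A
  have hA := residue_int (M := E / 2) (by omega) (x := al E x) (x2 := al E (x + q))
    (y := al E (x + p)) (y2 := al E (x + p + q)) (al_mono hE3 (by omega)) (al_mono hE3 (by omega))
    (by
      intro z hz
      have h1 := h (P.m + 5 + z)
      have e : ∀ a b, cnt (fun i => W P E i = P.m + 5 + z) a b =
          cnt (fun i => (i % E) % 2 = 1 ∧ al E i % (E / 2) = z) a b :=
        fun a b => cnt_congr _ _ fun i _ _ => W_A hE3 i z
      rw [e, e, (cnt_thin _ (al E) (al_succ hE3) (fun n => n % (E / 2) = z) (by omega)).2,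
        (cnt_thin _ (al E) (al_succ hE3) (fun n => n % (E / 2) = z) (by omega)).2] at h1
      exact h1)
  obtain ⟨hA1, hA2⟩ := hA
  -- basic identities
  have i1 := al_add_be (E := E) x
  have i2 := al_add_be (E := E) (x + q)
  have i3 := al_add_be (E := E) (x + p)
  have i4 := al_add_be (E := E) (x + p + q)
  have m1 := al_mono hE3 (show x ≤ x + q by omega)
  have m2 := be_mono hE3 (show x ≤ x + q by omega)
  have m3 := al_mono hE3 (show x ≤ x + p by omega)
  have m4 := be_mono hE3 (show x + q ≤ x + p by omega)
  have m5 := be_mono hE3 (show x + p ≤ x + p + q by omega)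
  have m6 := al_mono hE3 (show x + p ≤ x + p + q by omega)
  obtain ⟨b, hb⟩ : ∃ b, be E (x + q) = be E x + b := Nat.exists_eq_add_of_le m2
  have hb' : be E (x + p + q) = be E (x + p) + b := by omega
  -- track B
  have hB : P.BM (be E x) (be E (x + p)) b := by
    intro w
    rcases Nat.lt_or_ge w (P.m + 5) with hw | hw
    · have h1 := h w
      have e : ∀ a b, cnt (fun i => W P E i = w) a b =
          cnt (fun i => (i % E) % 2 = 0 ∧ P.B (be E i) = w) a b :=
        fun a b => cnt_congr _ _ fun i _ _ => W_B i w hw
      rw [e, e, (cnt_thin _ (be E) (be_succ hE3) (fun n => P.B n = w) (by omega)).2,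
        (cnt_thin _ (be E) (be_succ hE3) (fun n => P.B n = w) (by omega)).2, hb, hb'] at h1
      exact h1
    · rw [cnt_eq_zero _ (fun k _ _ h2 => by have := P.B_lt k; omega),
        cnt_eq_zero _ (fun k _ _ h2 => by have := P.B_lt k; omega)]
  have hs : P.s = P.m + 2 := rfl
  -- bound of the distance
  have hab := al_le_be (E := E) (show x ≤ x + q by omega)
  have hq2 : q ≤ 2 * b + 1 := by omega
  have hdu : be E (x + p) ≤ be E x + P.m * (2 * b + 1) := by
    have h1 : be E (x + p) ≤ be E (x + E * q) := be_mono hE3 (by omega)
    rw [be_add_mul hE3, ← hm] at h1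
    have h2 : P.m * q ≤ P.m * (2 * b + 1) := Nat.mul_le_mul_left _ hq2
    omega
  -- windows without B
  rcases Nat.eq_zero_or_pos b with hb0 | hb1
  · have hq1 : q = 1 := by omega
    subst hq1
    rcases hA2 with h1 | h1
    · have h2 : (al E (x + 1) : ℤ) - al E x = 1 := by omega
      rw [h2] at h1
      have := Int.le_of_dvd (by norm_num) h1
      omega
    · have hx : (x % E) % 2 = 1 := by
        have := be_succ hE3 x
        split_ifs at this <;> omega
      have hxp : ((x + p) % E) % 2 = 1 := by
        have := be_succ hE3 (x + p)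
        split_ifs at this <;> omega
      have h2 : E / 2 ∣ al E (x + p) - al E x := by
        have h3 : ((al E (x + p) - al E x : ℕ) : ℤ) = (al E (x + p) : ℤ) - al E x := by omega
        rw [← h3] at h1
        exact_mod_cast h1
      obtain ⟨c, hc⟩ := h2
      have h4 : al E (x + p) = al E (x + E * c) := by rw [al_add_mul hE3]; omega
      have h5 := al_succ hE3 (x + p)
      rw [if_pos hxp] at h5
      have h6 := al_succ hE3 (x + E * c)
      rw [Nat.add_mul_mod_self_left, if_pos hx] at h6
      have h7 : x + p = x + E * c := by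
        rcases lt_trichotomy (x + p) (x + E * c) with h8 | h8 | h8
        · have := al_mono hE3 (show x + p + 1 ≤ x + E * c from h8)
          omega
        · exact h8
        · have := al_mono hE3 (show x + E * c + 1 ≤ x + p from h8)
          omega
      rcases Nat.eq_zero_or_pos c with h9 | h9
      · subst h9
        omega
      · have : E * 1 ≤ E * c := Nat.mul_le_mul_left _ h9
        omega
  -- short distances
  have hgap : be E x + P.m + 2 < be E (x + p) + b := by
    obtain ⟨t0, h1, h2, h3⟩ := hB.ex' (t := be E x) le_rfl (by omega)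
    have := P.gap (t := be E x) (t' := t0) (by omega) h3.symm
    omega
  have hf := P.facts
  apply P.main_B hB hb1 (by omega) hdu
  have mulp : ∀ p', E ∣ p' → ∃ c, p' = E * c ∧ be E (x + p') = be E x + P.m * c := by
    rintro p' ⟨c, rfl⟩
    exact ⟨c, rfl, by rw [be_add_mul hE3, hm]⟩
  have fp : E ∣ p → (∃ c e : ℤ, 1 ≤ c ∧ -1 ≤ e ∧ e ≤ 1 ∧
      ((be E (x + p) : ℕ) : ℤ) - (be E x : ℕ) = P.m * c - e) := by
    intro hd
    obtain ⟨c, hc, hc2⟩ := mulp p hd
    refine ⟨c, 0, ?_, by norm_num, by norm_num, ?_⟩
    · rcases Nat.eq_zero_or_pos c with h9 | h9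
      · subst h9
        omega
      · omega
    · rw [hc2]
      push_cast
      ring
  have fq : E ∣ q → (∃ j e : ℤ, 1 ≤ j ∧ -1 ≤ e ∧ e ≤ 1 ∧ (b : ℤ) = P.m * j + e) := by
    intro hd
    obtain ⟨c, hc, hc2⟩ := mulp q hd
    refine ⟨c, 0, ?_, by norm_num, by norm_num, ?_⟩
    · rcases Nat.eq_zero_or_pos c with h9 | h9
      · subst h9
        omega
      · omega
    · have : b = P.m * c := by omega
      rw [this]
      push_cast
      ring
  rcases hA2 with h1 | h1
  · -- complete periods of A
    have h2 : E / 2 ∣ al E (x + q) - al E x := by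
      have h3 : ((al E (x + q) - al E x : ℕ) : ℤ) = (al E (x + q) : ℤ) - al E x := by omega
      rw [← h3] at h1
      exact_mod_cast h1
    obtain ⟨j, hj⟩ := h2
    have h4 : al E (x + q) = al E (x + E * j) := by rw [al_add_mul hE3]; omega
    have h4' : al E (x + p + q) = al E (x + p + E * j) := by rw [al_add_mul hE3]; omega
    have h5 := be_add_mul hE3 x j
    rw [← hm] at h5
    have h6 := al_add_be (E := E) (x + E * j)
    have hj0 : j = 0 ∨ E * 1 ≤ E * j := by
      rcases Nat.eq_zero_or_pos j with h9 | h9
      · left; exact h9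
      · right; exact Nat.mul_le_mul_left _ h9
    rcases Nat.lt_or_ge (x + q) (x + E * j) with h7 | h7
    · have hj1 : 1 ≤ j := by
        rcases hj0 with h8 | h8
        · subst h8; omega
        · by_contra hcon
          have : j = 0 := by omega
          subst this; omega
      rcases lev hE3 h7.le h4 with h8 | ⟨h8, _⟩ | ⟨h8, h9, _⟩
      · omega
      · right
        refine ⟨j, -1, by exact_mod_cast hj1, by norm_num, by norm_num, ?_⟩
        have : b + 1 = P.m * j := by omega
        have h10 : ((b + 1 : ℕ) : ℤ) = ((P.m * j : ℕ) : ℤ) := by rw [this]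
        push_cast at h10
        linarith
      · left
        apply fp
        rcases lev hE3 (show x + p + q ≤ x + p + E * j by omega) h4' with h10 | ⟨h10, _⟩ |
          ⟨h10, h11, _⟩
        · omega
        · omega
        · exact dvd_of_mod (a := x + q) (by
            rw [show x + q + p = x + p + q by ring, h11, h9])
    · rcases lev hE3 h7 h4.symm with h8 | ⟨h8, _⟩ | ⟨h8, h9, _⟩
      · right
        apply fq
        exact ⟨j, by omega⟩
      · rcases hj0 with h10 | h10
        · exfalso
          subst h10
          have h11 : q = 1 := by omega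
          subst h11
          have h12 := be_mono hE3 (show x + p ≤ x + E * 1 by omega)
          rw [be_add_mul hE3, ← hm] at h12
          omega
        · right
          have hj1 : 1 ≤ j := by
            by_contra hcon
            have : j = 0 := by omega
            subst this; omega
          refine ⟨j, 1, by exact_mod_cast hj1, by norm_num, by norm_num, ?_⟩
          have : b = P.m * j + 1 := by omega
          rw [this]
          push_cast
          ring
      · left
        apply fp
        rw [Nat.add_mul_mod_self_left] at h9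
        rcases lev hE3 (show x + p + E * j ≤ x + p + q by omega) h4'.symm with h10 | ⟨h10, _⟩ |
          ⟨h10, h11, _⟩
        · omega
        · omega
        · rw [Nat.add_mul_mod_self_left] at h11
          exact dvd_of_mod (a := x) (by rw [h11, h9])
  · have h2 : E / 2 ∣ al E (x + p) - al E x := by
      have h3 : ((al E (x + p) - al E x : ℕ) : ℤ) = (al E (x + p) : ℤ) - al E x := by omega
      rw [← h3] at h1
      exact_mod_cast h1
    obtain ⟨c, hc⟩ := h2
    have h4 : al E (x + p) = al E (x + E * c) := by rw [al_add_mul hE3]; omega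
    have h4' : al E (x + p + q) = al E (x + q + E * c) := by rw [al_add_mul hE3]; omega
    have h5 := be_add_mul hE3 x c
    rw [← hm] at h5
    have h6 := al_add_be (E := E) (x + E * c)
    have hc0 : c = 0 ∨ E * 1 ≤ E * c := by
      rcases Nat.eq_zero_or_pos c with h9 | h9
      · left; exact h9
      · right; exact Nat.mul_le_mul_left _ h9
    rcases Nat.lt_or_ge (x + p) (x + E * c) with h7 | h7
    · have hc1 : 1 ≤ c := by
        by_contra hcon
        have : c = 0 := by omega
        subst this; omega
      rcases lev hE3 h7.le h4 with h8 | ⟨h8, _⟩ | ⟨h8, h9, _⟩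
      · omega
      · left
        refine ⟨c, 1, by exact_mod_cast hc1, by norm_num, by norm_num, ?_⟩
        have : be E (x + p) + 1 = be E x + P.m * c := by omega
        have h10 : ((be E (x + p) + 1 : ℕ) : ℤ) = ((be E x + P.m * c : ℕ) : ℤ) := by rw [this]
        push_cast at h10
        linarith
      · right
        apply fq
        rcases lev hE3 (show x + p + q ≤ x + q + E * c by omega) h4' with h10 | ⟨h10, _⟩ |
          ⟨h10, h11, _⟩
        · omega
        · omega
        · exact dvd_of_mod (a := x + p) (by rw [h11, h9])
    · rcases lev hE3 h7 h4.symm with h8 | ⟨h8, _⟩ | ⟨h8, h9, _⟩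
      · left
        apply fp
        exact ⟨c, by omega⟩
      · rcases hc0 with h10 | h10
        · exfalso
          subst h10
          have h12 := be_succ hE3 x
          have h13 : x + p = x + 1 := by omega
          rw [h13] at hgap
          split_ifs at h12 <;> omega
        · left
          have hc1 : 1 ≤ c := by
            by_contra hcon
            have : c = 0 := by omega
            subst this; omega
          refine ⟨c, -1, by exact_mod_cast hc1, by norm_num, by norm_num, ?_⟩
          have : be E (x + p) = be E x + P.m * c + 1 := by omega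
          rw [this]
          push_cast
          ring
      · right
        apply fq
        rw [Nat.add_mul_mod_self_left] at h9
        rcases lev hE3 (show x + q + E * c ≤ x + p + q by omega) h4'.symm with h10 | ⟨h10, _⟩ |
          ⟨h10, h11, _⟩
        · omega
        · omega
        · rw [Nat.add_mul_mod_self_left] at h11
          exact dvd_of_mod (a := x) (by rw [h11, h9])

end MPbbea99N
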