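import Pool.Agent.Lib.Pbbea99N.Mt

/-!
# MP_bbea99_co: register letters in matching windows
-/

namespace MPbbea99N

open Finset MPbbea99 MPbbea99L

lemma cnt_pos_of {Q : ℕ → Prop} [DecidablePred Q] {a b t : ℕ} (h1 : a ≤ t) (h2 : t < b)
    (h3 : Q t) : 0 < cnt Q a b := by
  unfold cnt
  apply Finset.card_pos.2
  exact ⟨t, Finset.mem_filter.2 ⟨Finset.mem_Ico.2 ⟨h1, h2⟩, h3⟩⟩

lemma exists_of_cnt_pos {Q : ℕ → Prop} [DecidablePred Q] {a b : ℕ} (h : 0 < cnt Q a b) :
    ∃ t, a ≤ t ∧ t < b ∧ Q t := by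
  unfold cnt at h
  obtain ⟨t, ht⟩ := Finset.card_pos.1 h
  rw [Finset.mem_filter, Finset.mem_Ico] at ht
  exact ⟨t, ht.1.1, ht.1.2, ht.2⟩

namespace Prm

variable (P : Prm)

lemma BM.ex {P : Prm} {T T' b : ℕ} (hB : P.BM T T' b) {t : ℕ} (h1 : T' ≤ t) (h2 : t < T' + b) :
    ∃ t0, T ≤ t0 ∧ t0 < T + b ∧ P.B t0 = P.B t := by
  apply exists_of_cnt_pos
  rw [hB]
  exact cnt_pos_of h1 h2 rfl

lemma BM.ex' {P : Prm} {T T' b : ℕ} (hB : P.BM T T' b) {t : ℕ} (h1 : T ≤ t) (h2 : t < T + b) :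
    ∃ t0, T' ≤ t0 ∧ t0 < T' + b ∧ P.B t0 = P.B t := by
  apply exists_of_cnt_pos
  rw [← hB]
  exact cnt_pos_of h1 h2 rfl

/-- windows with exactly one pass of the register region -/
theorem vis {i v v2 i' v' v2' b : ℕ} (hv2 : v2 ≤ P.V0)
    (hv' : v' ≤ P.V0) (hb : P.s * i + v + b = P.s * (i + 1) + v2)
    (hb' : P.s * i' + v' + b = P.s * (i' + 1) + v2')
    (hB : P.BM (P.s * i + v) (P.s * i' + v') b) : P.om i = P.om i' := by
  by_contra hne
  have hf := P.facts
  have hs : P.s = P.m + 2 := rfl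
  have hV : P.V0 = 8 * (P.k1 - 1) := rfl
  have hl : lam = 26000000 := rfl
  obtain ⟨j, hj, hj2⟩ := P.arr_surj i' (P.om_lt i) hne
  have hu : P.V0 + 8 * j + 5 < P.s := by omega
  have hdm := P.divmod (i := i') hu
  have hBt : P.B (P.s * i' + (P.V0 + 8 * j + 5)) = P.c3 (P.om i) := by
    rw [P.B_c3 _ _ (P.om_lt i), hdm.1, hdm.2]
    constructor
    · unfold IsS
      omega
    · rw [← hj2]
      congr 1
      omega
  have hmul : P.s * (i' + 1) = P.s * i' + P.s := by ring
  obtain ⟨t0, h1, h2, h3⟩ := hB.ex (t := P.s * i' + (P.V0 + 8 * j + 5)) (by omega) (by omega)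
  rw [hBt, P.B_c3 _ _ (P.om_lt i)] at h3
  obtain ⟨h3, h4⟩ := h3
  obtain ⟨i0, u, hu0, rfl⟩ := P.exists_lap t0
  rw [(P.divmod hu0).2] at h3 h4
  rw [(P.divmod hu0).1] at h4
  unfold IsS at h3
  have hi : i0 = i := by
    have h5 : P.s * i0 < P.s * (i + 1) := by omega
    have h6 : i0 < i + 1 := lt_of_mul_lt_mul_left h5 (Nat.zero_le _)
    have h7 : P.s * i < P.s * (i0 + 1) := by
      have : P.s * (i0 + 1) = P.s * i0 + P.s := by ring
      omega
    have h8 : i < i0 + 1 := lt_of_mul_lt_mul_left h7 (Nat.zero_le _)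
    omega
  subst hi
  exact P.arr_ne _ _ h4

/-- windows inside the register region in consecutive laps -/
theorem regwin {i v b : ℕ} (hv : 1 ≤ v) (hb : 1 ≤ b) (hvb : v + b < P.s) (hS : P.IsS (v - 1))
    (hB : P.BM (P.s * i + v) (P.s * (i + 1) + (v - 1)) b) : False := by
  have hf := P.facts
  have hl : lam = 26000000 := rfl
  have hu : v - 1 < P.s := by omega
  have hdm := P.divmod (i := i + 1) hu
  have hj := P.idx_lt hS
  have hBt : P.B (P.s * (i + 1) + (v - 1)) = P.c3 (P.arr (i + 1) ((v - 1 - P.V0) / 8)) := by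
    rw [P.B_c3 _ _ (P.arr_lt _ hj), hdm.1, hdm.2]
    exact ⟨hS, rfl⟩
  obtain ⟨t0, h1, h2, h3⟩ := hB.ex (t := P.s * (i + 1) + (v - 1)) le_rfl (by omega)
  rw [hBt, P.B_c3 _ _ (P.arr_lt _ hj)] at h3
  obtain ⟨h3, h4⟩ := h3
  obtain ⟨i0, u, hu0, rfl⟩ := P.exists_lap t0
  rw [(P.divmod hu0).2] at h3 h4
  rw [(P.divmod hu0).1] at h4
  have hi : i0 = i := by
    have h5 : P.s * i0 < P.s * (i + 1) := by
      have : P.s * (i + 1) = P.s * i + P.s := by ring
      omega
    have h6 : i0 < i + 1 := lt_of_mul_lt_mul_left h5 (Nat.zero_le _)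
    have h7 : P.s * i < P.s * (i0 + 1) := by
      have : P.s * (i0 + 1) = P.s * i0 + P.s := by ring
      omega
    have h8 : i < i0 + 1 := lt_of_mul_lt_mul_left h7 (Nat.zero_le _)
    omega
  subst hi
  rcases P.arr_succ i0 ((v - 1 - P.V0) / 8) with h5 | h5
  · rw [h5] at h4
    exact P.arr_ne _ _ h4
  · rw [h5] at h4
    have h6 := P.arr_inj h4
    unfold IsS at hS h3
    have hV : P.V0 = 8 * (P.k1 - 1) := rfl
    omega

/-- equal letters are at least `s` apart -/
theorem gap {t t' : ℕ} (htt : t < t') (h : P.B t = P.B t') : t + P.s ≤ t' := by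
  have hf := P.facts
  have hs := P.s_pos
  obtain ⟨i, v, hv, rfl⟩ := P.exists_lap t
  obtain ⟨i', v', hv', rfl⟩ := P.exists_lap t'
  have hk1 : P.N1 (P.s * i + v) % P.k1 < P.k1 := Nat.mod_lt _ (by omega)
  have hk2 : P.N2 (P.s * i + v) % P.k2 < P.k2 := Nat.mod_lt _ (by omega)
  -- general conveyor argument
  have conv : ∀ (k : ℕ) (N : ℕ → ℕ) (Q : ℕ → Prop) [DecidablePred Q]
      (hN : ∀ t, N (t + 1) = N t + if Q t then 1 else 0)
      (hl : N (P.s * i + v + P.s) = N (P.s * i + v) + (k - 1)) (hk : 0 < k)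
      (hQ : Q (P.s * i + v)) (hm : N (P.s * i + v) % k = N (P.s * i' + v') % k),
      P.s * i + v + P.s ≤ P.s * i' + v' := by
    intro k N Q _ hN hl hk hQ hm
    by_contra hcon
    have h1 := (cnt_thin Q N hN (fun _ => True) (a := P.s * i + v + 1) (b := P.s * i' + v')
      (by omega)).1
    have h2 := (cnt_thin Q N hN (fun _ => True) (a := P.s * i' + v') (b := P.s * i + v + P.s)
      (by omega)).1
    rw [hN, if_pos hQ] at h1
    have h3 : k ∣ N (P.s * i' + v') - N (P.s * i + v) :=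
      (Nat.modEq_iff_dvd' (by omega)).1 hm
    have h4 := Nat.le_of_dvd (by omega) h3
    omega
  have hadd : P.s * i + v + P.s = P.s * (i + 1) + v := by ring
  by_cases c1 : P.IsY1 v
  · have h1 : P.B (P.s * i + v) = P.c1 (P.N1 (P.s * i + v) % P.k1) := by
      rw [P.B_c1 _ _ hk1, (P.divmod hv).2]
      exact ⟨c1, rfl⟩
    rw [h, P.B_c1 _ _ hk1] at h1
    refine conv P.k1 P.N1 (fun t => P.IsY1 (t % P.s)) P.N1_succ ?_ (by omega) ?_ h1.2.symm
    · rw [hadd, P.N1_lap hv, P.N1_lap hv]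
      ring
    · show P.IsY1 _
      rw [(P.divmod hv).2]
      exact c1
  · by_cases c2 : P.IsY2 v
    · have h1 : P.B (P.s * i + v) = P.c2 (P.N2 (P.s * i + v) % P.k2) := by
        rw [P.B_c2 _ _ hk2, (P.divmod hv).2]
        exact ⟨c2, rfl⟩
      rw [h, P.B_c2 _ _ hk2] at h1
      refine conv P.k2 P.N2 (fun t => P.IsY2 (t % P.s)) P.N2_succ ?_ (by omega) ?_ h1.2.symm
      · rw [hadd, P.N2_lap hv, P.N2_lap hv]
        ring
      · show P.IsY2 _
        rw [(P.divmod hv).2]
        exact c2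
    · have hmul1 : P.s * (i + 1) = P.s * i + P.s := by ring
      have hii : i ≤ i' := by
        have h7 : P.s * i < P.s * (i' + 1) := by
          have : P.s * (i' + 1) = P.s * i' + P.s := by ring
          omega
        have h8 : i < i' + 1 := lt_of_mul_lt_mul_left h7 (Nat.zero_le _)
        omega
      by_cases c3 : P.IsS v
      · have hj := P.idx_lt c3
        have h1 : P.B (P.s * i + v) = P.c3 (P.arr i ((v - P.V0) / 8)) := by
          rw [P.B_c3 _ _ (P.arr_lt _ hj), (P.divmod hv).2, (P.divmod hv).1]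
          exact ⟨c3, rfl⟩
        rw [h, P.B_c3 _ _ (P.arr_lt _ hj), (P.divmod hv').2, (P.divmod hv').1] at h1
        obtain ⟨c3', h2⟩ := h1
        unfold IsS at c3 c3'
        have hV : P.V0 = 8 * (P.k1 - 1) := rfl
        rcases hii.eq_or_lt with h3 | h3
        · subst h3
          have := P.arr_inj h2
          omega
        · rcases (show i + 1 ≤ i' from h3).eq_or_lt with h4 | h4
          · subst h4
            rcases P.arr_succ i ((v' - P.V0) / 8) with h5 | h5
            · rw [h5] at h2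
              exact absurd h2.symm (P.arr_ne _ _)
            · rw [h5] at h2
              have := P.arr_inj h2
              omega
          · have h5 : P.s * (i + 2) ≤ P.s * i' := Nat.mul_le_mul_left _ h4
            have h6 : P.s * (i + 2) = P.s * i + 2 * P.s := by ring
            omega
      · have hF : P.IsF v := ⟨c1, c2, c3⟩
        have h1 : P.B (P.s * i + v) = v := by
          rw [P.B_F _ _ hv hF, (P.divmod hv).2]
        rw [h, P.B_F _ _ hv hF, (P.divmod hv').2] at h1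
        subst h1
        rcases hii.eq_or_lt with h3 | h3
        · subst h3
          omega
        · have h5 : P.s * (i + 1) ≤ P.s * i' := Nat.mul_le_mul_left _ h3
          omega

end Prm

end MPbbea99N
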