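import Pool.Agent.Lib.Pbbea99N.Reg
import Pool.Agent.Lib.Pbbea99N.Ar1
import Pool.Agent.Lib.Pbbea99N.Ar3

/-!
# MP_bbea99_co: short windows, preparations
-/

namespace MPbbea99N

open Finset MPbbea99 MPbbea99L

lemma nd {k x : ℤ} (h : k ∣ x) (h1 : -k < x) (h2 : x < k) : x = 0 :=
  Int.eq_zero_of_abs_lt_dvd h (abs_lt.2 ⟨h1, h2⟩)

namespace Prm

variable (P : Prm)

/-- bound for the number of laps of short windows -/
def K0 : ℕ := 4 * P.q ^ 142 + 4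

lemma factsK : 10000000000000 * P.K0 ≤ P.m ∧ 4 ≤ P.K0 := by
  have h3 := P.hm
  unfold K0
  omega

/-- both conveyor congruences and track `A` -/
lemma starA {v v' : ℕ} (hv : v < P.s) (hv' : v' < P.s) {D h e : ℤ} (hD0 : 0 ≤ D)
    (hD : D ≤ 3 * ((P.m : ℤ) * P.K0)) (he : -1 ≤ e) (he' : e ≤ 1)
    (hα : 2 * D + ((v' : ℤ) - v) + e = P.m * h) (hd : 2 ≤ ((P.m : ℤ) + 2) * D + ((v' : ℤ) - v))
    (s1 : (P.k1 : ℤ) ∣ (P.a1 v' : ℤ) - P.a1 v - D)
    (s2 : (P.k2 : ℤ) ∣ (P.a2 v' : ℤ) - P.a2 v - D) : False := by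
  have hf := P.facts
  have hK := P.factsK
  unfold s at hv hv'
  unfold a1 at s1
  unfold a2 at s2
  refine lem1 (k1 := P.k1) (k2 := P.k2) (r1 := P.r1) (r2 := P.r2) (m := P.m) (K0 := P.K0)
    (by omega) (by omega) (by omega) (by omega) (by omega) (by omega) (by omega) (by omega)
    hD0 hD he he' ?_ ?_ ?_ ?_ ?_ ?_ ?_ ?_ ?_ ?_ ?_ ?_ ?_ hα hd s1 s2 <;> omega

/-- equal missing register letters -/
lemma om_small {i i' : ℕ} (h : P.om i = P.om i') (hii : i ≤ i') (hD : i' - i ≤ 9 * P.m) :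
    200 * (i' - i) ≤ P.m ∧ (i' - i) % 1000 = 0 := by
  have hf := P.facts
  obtain ⟨h1, h2⟩ := P.om_eq h
  refine ⟨?_, by omega⟩
  obtain ⟨st, hst⟩ : ∃ st, st = P.m / 200 := ⟨_, rfl⟩
  rw [← hst] at h2
  have hst0 : 0 < st := by omega
  have e1 := Nat.div_add_mod i st
  have e2 := Nat.div_add_mod i' st
  have l1 := Nat.mod_lt i hst0
  have l2 := Nat.mod_lt i' hst0
  obtain ⟨x, hx⟩ : ∃ x, x = i / st := ⟨_, rfl⟩
  obtain ⟨y, hy⟩ : ∃ y, y = i' / st := ⟨_, rfl⟩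
  rw [← hx] at e1 h2
  rw [← hy] at e2 h2
  have hxy : x ≤ y := by rw [hx, hy]; exact Nat.div_le_div_right hii
  have hxy2 : y < x + 2000 := by
    by_contra hcon
    have h3 : st * (x + 2000) ≤ st * y := Nat.mul_le_mul_left _ (by omega)
    have h4 : st * (x + 2000) = st * x + 2000 * st := by ring
    omega
  have hxy3 : y = x := by omega
  subst hxy3
  omega

end Prm

end MPbbea99N
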