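import Pool.Agent.Lib.Pbbea99N.Ar5

/-!
# MP_bbea99_co: short windows with complete periods of track `A`
-/

namespace MPbbea99N

open Finset MPbbea99 MPbbea99L

namespace Prm

variable (P : Prm)

/-- integer form of the data of two windows -/
lemma prel {i v i2 v2 i' v' b : ℕ} (hv : v < P.s) (hv2 : v2 < P.s) (hv' : v' < P.s)
    (hb : P.s * i + v + b = P.s * i2 + v2) (hb1 : 1 ≤ b)
    (hbd : P.s * i + v + b ≤ P.s * i' + v') (hK : i2 ≤ i + 4 * P.q ^ 142)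
    (hdu : P.s * i' + v' ≤ P.s * i + v + P.m * (2 * b + 1)) {K D : ℤ} (hKd : K = (i2 : ℤ) - i)
    (hDd : D = (i' : ℤ) - i) :
    (b : ℤ) = (P.m + 2) * K + v2 - v ∧ 0 ≤ K ∧ K ≤ P.K0 - 4 ∧ 0 ≤ D ∧
    D ≤ 3 * ((P.m : ℤ) * P.K0) ∧ (b : ℤ) ≤ (P.m + 2) * D + ((v' : ℤ) - v) ∧
    (P.m + 2) * D + ((v' : ℤ) - v) ≤ P.m * (2 * b + 1) := by
  obtain ⟨f1, f2, f3, f4, f5, f6, f7⟩ := P.facts
  have z1 : ((P.s * i + v + b : ℕ) : ℤ) = ((P.s * i2 + v2 : ℕ) : ℤ) := by rw [hb]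
  have z2 : ((P.s * i + v + b : ℕ) : ℤ) ≤ ((P.s * i' + v' : ℕ) : ℤ) := by exact_mod_cast hbd
  have z3 : ((P.s * i' + v' : ℕ) : ℤ) ≤ ((P.s * i + v + P.m * (2 * b + 1) : ℕ) : ℤ) := by
    exact_mod_cast hdu
  unfold s at z1 z2 z3 hv hv2 hv'
  push_cast at z1 z2 z3
  have c1 : (b : ℤ) = (P.m + 2) * K + v2 - v := by rw [hKd]; linarith
  have c2 : (b : ℤ) ≤ (P.m + 2) * D + (v' - v) := by rw [hDd]; linarith
  have c3 : (P.m + 2) * D + ((v' : ℤ) - v) ≤ P.m * (2 * b + 1) := by rw [hDd]; linarith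
  have hKu : K ≤ P.K0 - 4 := by
    have h4 : P.K0 = 4 * P.q ^ 142 + 4 := rfl
    rw [h4]
    push_cast
    have : (i2 : ℤ) ≤ i + 4 * (P.q : ℤ) ^ 142 := by exact_mod_cast hK
    linarith
  have h := prel_int (m := P.m) (K := K) (D := D) (v := v) (v2 := v2) (v' := v') (b := b)
    (K0 := P.K0) (by omega) (by omega) (by omega) (by omega) (by omega) (by omega) (by omega)
    c1 (by omega) c2 c3 hKu
  exact ⟨c1, h.1, hKu, h.2.1, h.2.2, c2, c3⟩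

/-- different visits of one slot -/
lemma fin4 {D x1 x2 n1 n2 : ℤ} (s1 : (P.k1 : ℤ) ∣ n1 - D) (s2 : (P.k2 : ℤ) ∣ n2 - D)
    (p5 : D ≤ 3 * ((P.m : ℤ) * P.K0)) (hD1 : 1 ≤ D) (hx1 : n1 = x1) (hx2 : n2 = x2)
    (hx : (x1 = 0 ∧ -1 ≤ x2 ∧ x2 ≤ 1) ∨ (x2 = 0 ∧ -1 ≤ x1 ∧ x1 ≤ 1)) : False := by
  obtain ⟨f1, f2, f3, f4, f5, f6, f7⟩ := P.facts
  obtain ⟨f8, f9⟩ := P.factsK
  rw [hx1] at s1
  rw [hx2] at s2
  exact lem4 (k1 := P.k1) (k2 := P.k2) (r1 := P.r1) (r2 := P.r2) (m := P.m) (K0 := P.K0)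
    (by omega) (by omega) (by omega) (by omega) (by omega) (by omega) (by omega) (by omega)
    hD1 p5 hx s1 s2

lemma one_le_D {D w b : ℤ} (hD0 : 0 ≤ D) (h : b ≤ (P.m + 2) * D + w) (hw : w < b) : 1 ≤ D := by
  rcases hD0.eq_or_lt with h0 | h0
  · rw [← h0] at h
    omega
  · exact h0

/-- windows of length `s - 1` whose missing slots are conveyor slots -/
lemma beta_C4 {i v v2 i' v' v2' b : ℕ} (hv : v ≤ P.V0) (hv2 : v2 ≤ P.V0) (hv' : v' ≤ P.V0)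
    (hb : P.s * i + v + b = P.s * (i + 1) + v2)
    (hb' : P.s * i' + v' + b = P.s * (i' + 1) + v2') (hB : P.BM (P.s * i + v) (P.s * i' + v') b)
    {D : ℤ} (hDd : D = (i' : ℤ) - i) (hD0 : 0 ≤ D) (hbm : (b : ℤ) = P.m + 1)
    (p6 : (b : ℤ) ≤ (P.m + 2) * D + ((v' : ℤ) - v))
    (p7 : (P.m + 2) * D + ((v' : ℤ) - v) ≤ P.m * (2 * b + 1))
    (s1 : (P.k1 : ℤ) ∣ (P.a1 v' : ℤ) - P.a1 v - D)
    (s2 : (P.k2 : ℤ) ∣ (P.a2 v' : ℤ) - P.a2 v - D) : False := by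
  obtain ⟨f1, f2, f3, f4, f5, f6, f7⟩ := P.facts
  have hV := P.V0_lt
  have hs : P.s = P.m + 2 := rfl
  have hom := P.vis hv2 hv' hb hb' hB
  have hDm : D ≤ 5 * P.m := laps_le (m := P.m) (w := (v' : ℤ) - v) (b := b) (by omega)
    (by omega) (by omega) p7
  have hos := P.om_small hom (by omega) (by omega)
  obtain ⟨b1, b2, b3, b4⟩ := P.a_bounds hv hv'
  have hD100 : D ≤ 100 :=
    lem2 (k1 := P.k1) (k2 := P.k2) (r1 := P.r1) (r2 := P.r2) (m := P.m)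
      (n1 := (P.a1 v' : ℤ) - P.a1 v) (n2 := (P.a2 v' : ℤ) - P.a2 v) (Δ := (v' : ℤ) - v)
      (by omega) (by omega) (by omega) (by omega) (by omega) (by omega) (by omega) hD0
      (by omega) b1.1 b1.2 b2.1 b2.2 b3.1 b3.2 b4.1 b4.2 s1 s2
  have hD00 : D = 0 := by omega
  rw [hD00] at p6
  omega

/-- short windows containing complete periods of track `A` -/
theorem beta_case {i v i2 v2 i' v' i2' v2' b : ℕ} (hv : v < P.s) (hv2 : v2 < P.s)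
    (hv' : v' < P.s) (hv2' : v2' < P.s) (hb : P.s * i + v + b = P.s * i2 + v2)
    (hb' : P.s * i' + v' + b = P.s * i2' + v2') (hB : P.BM (P.s * i + v) (P.s * i' + v') b)
    (hb1 : 1 ≤ b) (hbd : P.s * i + v + b ≤ P.s * i' + v') (hK : i2 ≤ i + 4 * P.q ^ 142)
    (hdu : P.s * i' + v' ≤ P.s * i + v + P.m * (2 * b + 1)) {j e : ℤ} (hj : 1 ≤ j)
    (he : -1 ≤ e) (he' : e ≤ 1) (hβ : (b : ℤ) = P.m * j + e) : False := by
  obtain ⟨f1, f2, f3, f4, f5, f6, f7⟩ := P.facts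
  obtain ⟨f8, f9⟩ := P.factsK
  have hs : P.s = P.m + 2 := rfl
  obtain ⟨K, hKd⟩ : ∃ K : ℤ, K = (i2 : ℤ) - i := ⟨_, rfl⟩
  obtain ⟨D, hDd⟩ : ∃ D : ℤ, D = (i' : ℤ) - i := ⟨_, rfl⟩
  obtain ⟨p1, p2, p3, p4, p5, p6, p7⟩ := P.prel hv hv2 hv' hb hb1 hbd hK hdu hKd hDd
  obtain ⟨⟨hKK, cls⟩, q1, q2, y1, y2⟩ := P.mfacts hv hv2 hv' hv2' hb hb' hB
  rw [← hKd] at hKK y1 y2
  rw [← hDd] at y1 y2
  have hj1 : (P.m : ℤ) * 1 ≤ P.m * j := mul_le_mul_of_nonneg_left hj (by omega)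
  have hbm : (P.m : ℤ) - 1 ≤ b := by omega
  have hg := beta_laps (m := P.m) (K := K) (j := j) (v := v) (v2 := v2) (b := b) (K0 := P.K0)
    (e := e) (by omega) (by omega) (by omega) (by omega) (by omega) p1 p3 p2 (by omega) hj he he' hβ
  have hnc := P.nc_beta hv hv2 p2 p3 he he' hg
  have s1 := y1.resolve_left hnc.1
  have s2 := y2.resolve_left hnc.2
  clear y1 y2 hnc hdu hK hβ hj1 hj
  rcases cls with ⟨h1, h2⟩ | ⟨h1, h2⟩ | ⟨h1, h2, h3, h4⟩ | ⟨h1, h2, h3, h4⟩ | ⟨h1, h2, h3, h4⟩ |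
    ⟨h1, h2, h3, h4⟩
  · exact P.fin4 (x1 := 0) (x2 := 0) s1 s2 p5 (P.one_le_D p4 p6 (by rw [h1]; omega))
      (by rw [h1]; ring) (by rw [h1]; ring) (by omega)
  · rw [h1] at hg
    omega
  · have e1 := P.a1_succ (v := v)
    have e2 := P.a2_succ (v := v)
    have hd := P.Y_disj (u := v)
    rw [← h1] at e1 e2
    refine P.fin4 (x1 := if P.IsY1 v then 1 else 0) (x2 := if P.IsY2 v then 1 else 0) s1 s2 p5
      (P.one_le_D p4 p6 (by rw [h1]; push_cast; omega)) ?_ ?_ ?_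
    · rw [e1]; push_cast; split_ifs <;> ring
    · rw [e2]; push_cast; split_ifs <;> ring
    · split_ifs with c1 c2 <;> first | omega | exact absurd ⟨c1, c2⟩ hd.1
  · have e1 := P.a1_succ (v := v')
    have e2 := P.a2_succ (v := v')
    have hd := P.Y_disj (u := v')
    rw [← h1] at e1 e2
    refine P.fin4 (x1 := -(if P.IsY1 v' then 1 else 0)) (x2 := -(if P.IsY2 v' then 1 else 0))
      s1 s2 p5 (P.one_le_D p4 p6 (by rw [h1]; push_cast; omega)) ?_ ?_ ?_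
    · rw [e1]; push_cast; split_ifs <;> ring
    · rw [e2]; push_cast; split_ifs <;> ring
    · split_ifs with c1 c2 <;> first | omega | exact absurd ⟨c1, c2⟩ hd.1
  · rw [h1] at hg
    omega
  · -- windows of length s - 1
    have hK1 : K = 1 := by
      rw [h1] at hg
      omega
    have hi2 : i2 = i + 1 := by omega
    have hi2' : i2' = i' + 1 := by omega
    have hbm1 : (b : ℤ) = P.m + 1 := by
      rw [hK1, h1] at p1
      push_cast at p1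
      omega
    rw [h1, h2] at q1 q2
    rcases P.same_sys (u := v2) (u' := v2') (by linarith) (by linarith) h3 h4 with
      ⟨c1, c2, _⟩ | ⟨c1, c2, _⟩ | ⟨c1, c2, _⟩
    · have l1 := P.Y1_le c1
      have l2 := P.Y1_le c2
      rw [hi2] at hb
      rw [hi2'] at hb'
      exact P.beta_C4 (by omega) (by omega) (by omega) hb hb' hB hDd p4 hbm1 p6 p7 s1 s2
    · have l1 := P.Y2_le c1
      have l2 := P.Y2_le c2
      rw [hi2] at hb
      rw [hi2'] at hb'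
      exact P.beta_C4 (by omega) (by omega) (by omega) hb hb' hB hDd p4 hbm1 p6 p7 s1 s2
    · have l1 := P.S_a (x := v) c1 (by omega)
      have l2 := P.S_a (x := v') c2 (by omega)
      exact P.fin4 (x1 := 0) (x2 := 0) s1 s2 p5 (P.one_le_D p4 p6 (by omega))
        (by rw [l1.1, l2.1]; ring) (by rw [l1.2.1, l2.2.1]; ring) (by omega)

end Prm

end MPbbea99N
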