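import Pool.Agent.Lib.Pbbea99N.Sm2
import Pool.Agent.Lib.Pbbea99N.Ar6

/-!
# MP_bbea99_co: short windows, both tracks
-/

namespace MPbbea99N

open Finset MPbbea99 MPbbea99L

namespace Prm

variable (P : Prm)

/-- windows which are complete for both conveyors match only at short distances -/
lemma compl {i v i2 v2 i' v' i2' v2' b : ℕ} {K D : ℤ} (hv : v < P.s) (hv2 : v2 < P.s)
    (hv' : v' < P.s) (hv2' : v2' < P.s) (hb : P.s * i + v + b = P.s * i2 + v2)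
    (hb' : P.s * i' + v' + b = P.s * i2' + v2') (hB : P.BM (P.s * i + v) (P.s * i' + v') b)
    (hKd : K = (i2 : ℤ) - i) (hDd : D = (i' : ℤ) - i) (hKK : K = (i2' : ℤ) - i')
    (p1 : (b : ℤ) = (P.m + 2) * K + v2 - v) (p1' : (b : ℤ) = (P.m + 2) * K + v2' - v')
    (hb1 : 1 ≤ b) (p2 : 0 ≤ K) (p3 : K ≤ P.K0 - 4) (p4 : 0 ≤ D)
    (p7 : (P.m + 2) * D + ((v' : ℤ) - v) ≤ P.m * (2 * b + 1))
    (cm1 : (P.k1 : ℤ) ∣ (P.a1 v2 : ℤ) - P.a1 v - K)
    (cm2 : (P.k2 : ℤ) ∣ (P.a2 v2 : ℤ) - P.a2 v - K)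
    (cm1' : (P.k1 : ℤ) ∣ (P.a1 v2' : ℤ) - P.a1 v' - K)
    (cm2' : (P.k2 : ℤ) ∣ (P.a2 v2' : ℤ) - P.a2 v' - K) : 2 * D + 4 < P.m := by
  obtain ⟨f1, f2, f3, f4, f5, f6, f7⟩ := P.facts
  obtain ⟨f8, f9⟩ := P.factsK
  have hs : P.s = P.m + 2 := rfl
  have hV : P.V0 = 8 * (P.k1 - 1) := rfl
  obtain ⟨Kn, hKn⟩ : ∃ Kn : ℕ, (Kn : ℤ) = K := ⟨K.toNat, Int.toNat_of_nonneg p2⟩
  have hKn2 : 1000 * Kn ≤ P.k2 := by omega
  rw [← hKn] at cm1 cm2 cm1' cm2' p1 p1'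
  have A1 := arc_both (k1 := P.k1) (k2 := P.k2) (r1 := P.r1) (r2 := P.r2) (m := P.m) (K := Kn)
    f1 f2 f3 f4 f5 f6 (by omega) hKn2 hv hv2 (by rw [← p1]; omega) cm1 cm2
  have A2 := arc_both (k1 := P.k1) (k2 := P.k2) (r1 := P.r1) (r2 := P.r2) (m := P.m) (K := Kn)
    f1 f2 f3 f4 f5 f6 (by omega) hKn2 hv' hv2' (by rw [← p1']; omega) cm1' cm2'
  rw [← p1] at A1
  rw [← p1'] at A2
  have short : (b : ℤ) ≤ P.r1 + 30 → 2 * D + 4 < P.m := fun h =>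
    laps_short (m := P.m) (r := P.r1) (w := (v' : ℤ) - v) (b := b) (by omega) (by omega)
      (by omega) (by omega) h p7
  rcases A1 with ⟨a1, a2, a3, a4⟩ | A1
  · rcases A2 with ⟨c1, c2, c3, c4⟩ | A2
    · have hi2 : i2 = i + 1 := by omega
      have hi2' : i2' = i' + 1 := by omega
      rw [hi2] at hb
      rw [hi2'] at hb'
      have hom := P.vis (by omega) (by omega) hb hb' hB
      have hDm : D ≤ 5 * P.m := laps_le (m := P.m) (w := (v' : ℤ) - v) (b := b) (by omega)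
        (by omega) (by rw [p1, a1]; push_cast; omega) p7
      have hos := P.om_small hom (by omega) (by omega)
      omega
    · exact short A2
  · exact short A1

/-- windows of one letter -/
lemma one_letter {v v' : ℕ} {D h e : ℤ} (hv : v < P.s) (hv' : v' < P.s) (p4 : 0 ≤ D)
    (hD : D ≤ 3) (he : -1 ≤ e) (he' : e ≤ 1) (hα : 2 * D + ((v' : ℤ) - v) + e = P.m * h)
    (hd : 1 ≤ (P.m + 2) * D + ((v' : ℤ) - v))
    (q1 : (P.a1 (v + 1) : ℤ) - P.a1 v = P.a1 (v' + 1) - P.a1 v')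
    (q2 : (P.a2 (v + 1) : ℤ) - P.a2 v = P.a2 (v' + 1) - P.a2 v')
    (y1 : (P.k1 : ℤ) ∣ (P.a1 (v + 1) : ℤ) - P.a1 v - 0 ∨ (P.k1 : ℤ) ∣ (P.a1 v' : ℤ) - P.a1 v - D)
    (y2 : (P.k2 : ℤ) ∣ (P.a2 (v + 1) : ℤ) - P.a2 v - 0 ∨ (P.k2 : ℤ) ∣ (P.a2 v' : ℤ) - P.a2 v - D)
    (h3 : ¬ P.IsF v) (h4 : ¬ P.IsF v') : False := by
  obtain ⟨f1, f2, f3, f4, f5, f6, f7⟩ := P.facts
  have hl : lam = 26000000 := rfl
  rcases P.same_sys q1 q2 h3 h4 with ⟨c1, c2, _, _⟩ | ⟨c1, c2, _, _⟩ | ⟨c1, c2, _⟩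
  · have e1 : (P.a1 (v + 1) : ℤ) - P.a1 v = 1 := by
      rw [P.a1_succ, if_pos c1]; push_cast; ring
    have s1 := y1.resolve_left (by
      rw [e1]
      intro hd
      have := nd hd (by omega) (by omega)
      omega)
    unfold IsY1 V0 at c1 c2
    refine b_one_Y (k := P.k1) (r := P.r1) (m := P.m) (g := 8) (Δ := (v' : ℤ) - v) (by omega)
      (by omega) (Or.inl rfl) (by omega) (by omega) p4 hD he he' ?_ ?_ ?_ hα hd s1
    · rw [a1_def, a1_def]; omega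
    · rw [a1_def, a1_def]; omega
    · rw [a1_def, a1_def]; omega
  · have e1 : (P.a2 (v + 1) : ℤ) - P.a2 v = 1 := by
      rw [P.a2_succ, if_pos c1]; push_cast; ring
    have s2 := y2.resolve_left (by
      rw [e1]
      intro hd
      have := nd hd (by omega) (by omega)
      omega)
    unfold IsY2 at c1 c2
    refine b_one_Y (k := P.k2) (r := P.r2) (m := P.m) (g := 80) (Δ := (v' : ℤ) - v) (by omega)
      (by omega) (Or.inr rfl) (by omega) (by omega) p4 hD he he' ?_ ?_ ?_ hα hd s2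
    · rw [a2_def, a2_def]; omega
    · rw [a2_def, a2_def]; omega
    · rw [a2_def, a2_def]; omega
  · unfold IsS at c1 c2
    have hV : P.V0 = 8 * (P.k1 - 1) := rfl
    exact b_one_S (m := P.m) (Δ := (v' : ℤ) - v) (by omega) p4 hD he he' (by omega) (by omega)
      (by omega) hα hd

/-- windows of length `s + 1` at a conveyor slot -/
lemma C3_one {i v v2 i' v' v2' b : ℕ} (hv2 : v2 ≤ P.V0) (hv : v ≤ P.V0) (hv' : v' ≤ P.V0)
    (hb : P.s * i + v + b = P.s * (i + 1) + v2)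
    (hb' : P.s * i' + v' + b = P.s * (i' + 1) + v2') (hB : P.BM (P.s * i + v) (P.s * i' + v') b)
    {D h e : ℤ} (hDd : D = (i' : ℤ) - i) (hD0 : 0 ≤ D) (hbm : (b : ℤ) = P.m + 3)
    (he : -1 ≤ e) (he' : e ≤ 1) (hα : 2 * D + ((v' : ℤ) - v) + e = P.m * h)
    (p6 : (b : ℤ) ≤ (P.m + 2) * D + ((v' : ℤ) - v))
    (p7 : (P.m + 2) * D + ((v' : ℤ) - v) ≤ P.m * (2 * b + 1))
    (s : (P.k1 : ℤ) ∣ (P.a1 v' : ℤ) - P.a1 v - D ∨ (P.k2 : ℤ) ∣ (P.a2 v' : ℤ) - P.a2 v - D) :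
    False := by
  obtain ⟨f1, f2, f3, f4, f5, f6, f7⟩ := P.facts
  have hV := P.V0_lt
  have hs : P.s = P.m + 2 := rfl
  have hom := P.vis hv2 hv' hb hb' hB
  have hDm : D ≤ 5 * P.m := laps_le (m := P.m) (w := (v' : ℤ) - v) (b := b) (by omega)
    (by omega) (by omega) p7
  have hos := P.om_small hom (by omega) (by omega)
  obtain ⟨b1, b2, b3, b4⟩ := P.a_bounds hv hv'
  have hD100 : D ≤ 100 := by
    rcases s with s1 | s2
    · exact lem3 (k1 := P.k1) (r1 := P.r1) (m := P.m) (n1 := (P.a1 v' : ℤ) - P.a1 v)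
        (Δ := (v' : ℤ) - v) (by omega) (by omega) (by omega) (by omega) hD0 (by omega) he he'
        b1.1 b1.2 b3.1 b3.2 hα s1
    · exact lem3' (k2 := P.k2) (r2 := P.r2) (m := P.m) (n2 := (P.a2 v' : ℤ) - P.a2 v)
        (Δ := (v' : ℤ) - v) (by omega) (by omega) (by omega) (by omega) hD0 (by omega) he he'
        b2.1 b2.2 b4.1 b4.2 hα s2
  have hD00 : D = 0 := by omega
  rw [hD00] at p6
  omega

/-- the case of distance `s - 1` -/
lemma dist_one {i v i2 v2 b : ℕ} (hv : v < P.s) (hv2 : v2 < P.s)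
    (hb : P.s * i + v + b = P.s * i2 + v2) (hb1 : 1 ≤ b)
    (hB : P.BM (P.s * i + v) (P.s * (i + 1) + (v - 1)) b) (hv1 : 1 ≤ v) (hv21 : 1 ≤ v2)
    {K : ℤ} (hKd : K = (i2 : ℤ) - i) (p1 : (b : ℤ) = (P.m + 2) * K + v2 - v) (p2 : 0 ≤ K)
    (hbs : b < P.s) (F1 : ¬ P.IsF (v - 1)) (F2 : ¬ P.IsF (v2 - 1))
    (q1 : (P.a1 (v - 1 + 1) : ℤ) - P.a1 (v - 1) = P.a1 (v2 - 1 + 1) - P.a1 (v2 - 1))
    (q2 : (P.a2 (v - 1 + 1) : ℤ) - P.a2 (v - 1) = P.a2 (v2 - 1 + 1) - P.a2 (v2 - 1))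
    (cm1 : (P.k1 : ℤ) ∣ (P.a1 v2 : ℤ) - P.a1 v - K)
    (cm2 : (P.k2 : ℤ) ∣ (P.a2 v2 : ℤ) - P.a2 v - K) : False := by
  obtain ⟨f1, f2, f3, f4, f5, f6, f7⟩ := P.facts
  have hs : P.s = P.m + 2 := rfl
  have hV : P.V0 = 8 * (P.k1 - 1) := rfl
  have hl : lam = 26000000 := rfl
  have hK1 : K = 0 ∨ K = 1 := by
    have : K < 2 := by
      by_contra hcon
      have : ((P.m : ℤ) + 2) * 2 ≤ (P.m + 2) * K := mul_le_mul_of_nonneg_left (by omega) (by omega)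
      omega
    omega
  have hsys := P.same_sys q1 q2 F1 F2
  rcases hK1 with rfl | rfl
  · have hvv : v < v2 := by omega
    have w1 := nd cm1 (by rw [a1_def, a1_def]; omega) (by rw [a1_def, a1_def]; omega)
    have w2 := nd cm2 (by rw [a2_def, a2_def]; omega) (by rw [a2_def, a2_def]; omega)
    rcases hsys with ⟨_, c2, _⟩ | ⟨_, c2, _⟩ | ⟨c1, c2, _⟩
    · exfalso
      unfold IsY1 at c2
      rw [a1_def, a1_def] at w1
      omega
    · exfalso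
      unfold IsY2 at c2
      rw [a2_def, a2_def] at w2
      omega
    · have hi2 : i2 = i := by omega
      rw [hi2] at hb
      exact P.regwin (b := b) hv1 hb1 (by omega) c1 hB
  · have hvv : v2 ≤ v := by omega
    obtain ⟨x1, hx1⟩ := cm1
    obtain ⟨x2, hx2⟩ := cm2
    rcases quot_K (by omega) hx1 (by rw [a1_def, a1_def]; omega) (by rw [a1_def, a1_def]; omega)
      (by omega) (by omega) with w1 | w1
    · rw [a1_def, a1_def] at w1
      omega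
    · rcases quot_K (by omega) hx2 (by rw [a2_def, a2_def]; omega) (by rw [a2_def, a2_def]; omega)
        (by omega) (by omega) with w2 | w2
      · rw [a2_def, a2_def] at w2
        omega
      · rcases hsys with ⟨_, c2, _⟩ | ⟨_, c2, _⟩ | ⟨c1, c2, _⟩
        · unfold IsY1 at c2
          rw [a1_def, a1_def] at w1
          omega
        · unfold IsY2 at c2
          rw [a2_def, a2_def] at w2
          omega
        · unfold IsS at c2
          rw [a1_def, a1_def] at w1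
          omega

end Prm

end MPbbea99N
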