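import Pool.Agent.Lib.Pbbea99N.Sm3

/-!
# MP_bbea99_co: short windows, the main case
-/

namespace MPbbea99N

open Finset MPbbea99 MPbbea99L

namespace Prm

variable (P : Prm)

/-- short windows whose distance is about a multiple of the period of track `A` -/
theorem alpha_case {i v i2 v2 i' v' i2' v2' b : ℕ} (hv : v < P.s) (hv2 : v2 < P.s)
    (hv' : v' < P.s) (hv2' : v2' < P.s) (hb : P.s * i + v + b = P.s * i2 + v2)
    (hb' : P.s * i' + v' + b = P.s * i2' + v2') (hB : P.BM (P.s * i + v) (P.s * i' + v') b)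
    (hb1 : 1 ≤ b) (hbd : P.s * i + v + b ≤ P.s * i' + v') (hK : i2 ≤ i + 4 * P.q ^ 142)
    (hdu : P.s * i' + v' ≤ P.s * i + v + P.m * (2 * b + 1)) {c e : ℤ} (hc : 1 ≤ c)
    (he : -1 ≤ e) (he' : e ≤ 1)
    (hα : ((P.s * i' + v' : ℕ) : ℤ) - ((P.s * i + v : ℕ) : ℤ) = P.m * c - e) : False := by
  obtain ⟨f1, f2, f3, f4, f5, f6, f7⟩ := P.facts
  obtain ⟨f8, f9⟩ := P.factsK
  have hs : P.s = P.m + 2 := rfl
  have hV := P.V0_lt
  obtain ⟨K, hKd⟩ : ∃ K : ℤ, K = (i2 : ℤ) - i := ⟨_, rfl⟩
  obtain ⟨D, hDd⟩ : ∃ D : ℤ, D = (i' : ℤ) - i := ⟨_, rfl⟩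
  obtain ⟨p1, p2, p3, p4, p5, p6, p7⟩ := P.prel hv hv2 hv' hb hb1 hbd hK hdu hKd hDd
  obtain ⟨⟨hKK, cls⟩, q1, q2, y1, y2⟩ := P.mfacts hv hv2 hv' hv2' hb hb' hB
  rw [← hKd] at hKK y1 y2
  rw [← hDd] at y1 y2
  have p1' : (b : ℤ) = (P.m + 2) * K + v2' - v' := by
    have h1 : ((P.s * i' + v' + b : ℕ) : ℤ) = ((P.s * i2' + v2' : ℕ) : ℤ) := by rw [hb']
    unfold s at h1
    push_cast at h1
    rw [hKK]
    linarith
  -- the main equation
  obtain ⟨h, hh⟩ : ∃ h, h = c - D := ⟨_, rfl⟩
  have hα0 : (P.m + 2) * D + ((v' : ℤ) - v) = P.m * c - e := by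
    have h1 := hα
    unfold s at h1
    push_cast at h1
    rw [hDd]
    linarith
  have hα' : 2 * D + ((v' : ℤ) - v) + e = P.m * h := by
    rw [hh]
    linarith
  have hmc : (P.m : ℤ) * 1 ≤ P.m * c := mul_le_mul_of_nonneg_left hc (by omega)
  have hd2 : 2 ≤ ((P.m : ℤ) + 2) * D + ((v' : ℤ) - v) := by omega
  clear hα hα0 hmc
  -- both congruences
  have starF : (P.k1 : ℤ) ∣ (P.a1 v' : ℤ) - P.a1 v - D →
      (P.k2 : ℤ) ∣ (P.a2 v' : ℤ) - P.a2 v - D → False :=
    fun s1 s2 => P.starA hv hv' p4 p5 he he' hα' hd2 s1 s2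
  -- a general non completeness statement
  have nc : ∀ x : ℤ, -1 ≤ x → x ≤ 1 → K ≠ x → ¬ (P.k1 : ℤ) ∣ x - K ∧ ¬ (P.k2 : ℤ) ∣ x - K := by
    intro x hx hx' hne
    constructor
    · intro hd
      have := nd hd (by omega) (by omega)
      omega
    · intro hd
      have := nd hd (by omega) (by omega)
      omega
  have hcompl : (P.k1 : ℤ) ∣ (P.a1 v2 : ℤ) - P.a1 v - K →
      (P.k2 : ℤ) ∣ (P.a2 v2 : ℤ) - P.a2 v - K → 2 * D + 4 < P.m := fun cm1 cm2 =>
    P.compl hv hv2 hv' hv2' hb hb' hB hKd hDd hKK p1 p1' hb1 p2 p3 p4 p7 cm1 cm2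
      (by rw [← q1]; exact cm1) (by rw [← q2]; exact cm2)
  clear hdu hK hbd
  rcases cls with ⟨h1, h2⟩ | ⟨h1, h2⟩ | ⟨h1, h2, h3, h4⟩ | ⟨h1, h2, h3, h4⟩ | ⟨h1, h2, h3, h4⟩ |
    ⟨h1, h2, h3, h4⟩
  · -- C0
    have hD1 := P.one_le_D p4 p6 (by rw [h1]; omega)
    rw [h1] at y1 y2 hα'
    have hα2 : 2 * D + e = P.m * h := by linarith
    have hh1 : 1 ≤ h := by
      by_contra hcon
      have : (P.m : ℤ) * h ≤ P.m * 0 := mul_le_mul_of_nonneg_left (by omega) (by omega)
      omega
    have hmh : (P.m : ℤ) * 1 ≤ P.m * h := mul_le_mul_of_nonneg_left hh1 (by omega)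
    have n1 := nostar (g := 8) (k := P.k1) (r := P.r1) (m := P.m) (K0 := P.K0) (D := D) (n := 0)
      (δ := e) (h := h) (by omega) (Or.inl rfl) (by omega) (by omega) (by omega) (by omega) p5 hα2
      hh1 (by omega) (by omega) (by omega)
    have n2 := nostar (g := 80) (k := P.k2) (r := P.r2) (m := P.m) (K0 := P.K0) (D := D) (n := 0)
      (δ := e) (h := h) (by omega) (Or.inr rfl) (by omega) (by omega) (by omega) (by omega) p5 hα2
      hh1 (by omega) (by omega) (by omega)
    have := hcompl (y1.resolve_right (by rw [sub_self]; exact n1))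
      (y2.resolve_right (by rw [sub_self]; exact n2))
    omega
  · -- C1
    have hK1 : K ≠ 0 := by
      intro h0
      rw [h0, h1] at p1
      omega
    have n0 := nc 0 (by omega) (by omega) hK1
    rw [h1, sub_self] at y1 y2
    exact starF (y1.resolve_left n0.1) (y2.resolve_left n0.2)
  · -- C2, forward
    have e1 : (P.a1 v' : ℤ) - P.a1 v = if P.IsY1 v then 1 else 0 := by
      rw [h1, P.a1_succ]; push_cast; ring
    have e2 : (P.a2 v' : ℤ) - P.a2 v = if P.IsY2 v then 1 else 0 := by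
      rw [h1, P.a2_succ]; push_cast; ring
    have hdl : (v' : ℤ) - v = 1 := by rw [h1]; push_cast; ring
    rw [hdl] at hα' hd2
    have hα2 : 2 * D + (1 + e) = P.m * h := by linarith
    rcases lt_or_ge h 1 with hh1 | hh1
    · have h5 := h_zero (m := P.m) (by omega) p4 (by omega : (-1 : ℤ) ≤ 1) he (by linarith) hh1
      have hD0 : D = 0 := by omega
      rw [hD0] at hd2
      omega
    · have hmh : (P.m : ℤ) * 1 ≤ P.m * h := mul_le_mul_of_nonneg_left hh1 (by omega)
      have n1 := nostar (g := 8) (k := P.k1) (r := P.r1) (m := P.m) (K0 := P.K0) (D := D)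
        (n := if P.IsY1 v then 1 else 0)
        (δ := 1 + e) (h := h) (by omega) (Or.inl rfl) (by omega) (by omega) (by omega) (by omega)
        p5 hα2 hh1 (by split_ifs <;> omega) (by split_ifs <;> omega) (by omega)
      have n2 := nostar (g := 80) (k := P.k2) (r := P.r2) (m := P.m) (K0 := P.K0) (D := D)
        (n := if P.IsY2 v then 1 else 0)
        (δ := 1 + e) (h := h) (by omega) (Or.inr rfl) (by omega) (by omega) (by omega) (by omega)
        p5 hα2 hh1 (by split_ifs <;> omega) (by split_ifs <;> omega) (by omega)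
      rw [e1] at y1
      rw [e2] at y2
      have := hcompl (y1.resolve_right n1) (y2.resolve_right n2)
      omega
  · -- C2, backward
    have e1 : (P.a1 v' : ℤ) - P.a1 v = -(if P.IsY1 v' then 1 else 0) := by
      rw [h1, P.a1_succ]; push_cast; ring
    have e2 : (P.a2 v' : ℤ) - P.a2 v = -(if P.IsY2 v' then 1 else 0) := by
      rw [h1, P.a2_succ]; push_cast; ring
    have hdl : (v' : ℤ) - v = -1 := by rw [h1]; push_cast; ring
    rw [hdl] at hα' hd2 p6
    have hα2 : 2 * D + (-1 + e) = P.m * h := by linarith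
    rcases lt_or_ge h 1 with hh1 | hh1
    · have h5 := h_zero (m := P.m) (by omega) p4 (by omega : (-1 : ℤ) ≤ -1) he (by linarith) hh1
      have hD1 : D = 1 := by
        rcases p4.eq_or_lt with h6 | h6
        · rw [← h6] at hd2
          omega
        · omega
      have hi' : i' = i + 1 := by omega
      have hbs : b < P.s := by
        rw [hD1] at p6
        omega
      have hD2 : (P.k1 : ℤ) ∣ (P.a1 v2 : ℤ) - P.a1 v - K := by
        refine y1.resolve_right ?_
        rw [e1, hD1]
        intro hd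
        have := nd hd (by split_ifs <;> omega) (by split_ifs <;> omega)
        split_ifs at this <;> omega
      have hD3 : (P.k2 : ℤ) ∣ (P.a2 v2 : ℤ) - P.a2 v - K := by
        refine y2.resolve_right ?_
        rw [e2, hD1]
        intro hd
        have := nd hd (by split_ifs <;> omega) (by split_ifs <;> omega)
        split_ifs at this <;> omega
      have hvm : v' = v - 1 := by omega
      have hv2m : v2' = v2 - 1 := by omega
      have hv1 : 1 ≤ v := by omega
      have hv21 : 1 ≤ v2 := by omega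
      have e3 : v - 1 + 1 = v := by omega
      have e4 : v2 - 1 + 1 = v2 := by omega
      rw [hi', hvm] at hB
      rw [hvm] at h3
      rw [hv2m] at h4
      rw [hvm, hv2m] at q1 q2
      exact P.dist_one hv hv2 hb hb1 hB hv1 hv21 hKd p1 p2 hbs h3 h4
        (by rw [e3, e4]; linarith) (by rw [e3, e4]; linarith) hD2 hD3
    · have hmh : (P.m : ℤ) * 1 ≤ P.m * h := mul_le_mul_of_nonneg_left hh1 (by omega)
      have n1 := nostar (g := 8) (k := P.k1) (r := P.r1) (m := P.m) (K0 := P.K0) (D := D)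
        (n := -(if P.IsY1 v' then 1 else 0))
        (δ := -1 + e) (h := h) (by omega) (Or.inl rfl) (by omega) (by omega) (by omega) (by omega)
        p5 hα2 hh1 (by split_ifs <;> omega) (by split_ifs <;> omega) (by omega)
      have n2 := nostar (g := 80) (k := P.k2) (r := P.r2) (m := P.m) (K0 := P.K0) (D := D)
        (n := -(if P.IsY2 v' then 1 else 0))
        (δ := -1 + e) (h := h) (by omega) (Or.inr rfl) (by omega) (by omega) (by omega) (by omega)
        p5 hα2 hh1 (by split_ifs <;> omega) (by split_ifs <;> omega) (by omega)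
      rw [e1] at y1
      rw [e2] at y2
      have := hcompl (y1.resolve_right n1) (y2.resolve_right n2)
      omega
  · -- C3
    rw [h1, h2] at q1 q2
    have e1 : (P.a1 v2 : ℤ) - P.a1 v = if P.IsY1 v then 1 else 0 := by
      rw [h1, P.a1_succ]; push_cast; ring
    have e2 : (P.a2 v2 : ℤ) - P.a2 v = if P.IsY2 v then 1 else 0 := by
      rw [h1, P.a2_succ]; push_cast; ring
    have hK01 : K = 0 ∨ K = 1 ∨ 2 ≤ K := by omega
    rcases hK01 with hK0 | hK1 | hK2
    · have hb1 : (b : ℤ) = 1 := by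
        rw [hK0, h1] at p1
        push_cast at p1
        omega
      rw [hb1] at p7
      rw [hK0, h1] at y1 y2
      exact P.one_letter hv hv' p4 (laps_one (m := P.m) (w := (v' : ℤ) - v) (by omega) (by omega)
        p7) he he' hα' (by omega) q1 q2 y1 y2 h3 h4
    · have hb1 : (b : ℤ) = P.m + 3 := by
        rw [hK1, h1] at p1
        push_cast at p1
        omega
      have hi2 : i2 = i + 1 := by omega
      have hi2' : i2' = i' + 1 := by omega
      rw [hi2] at hb
      rw [hi2'] at hb'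
      rw [e1] at y1
      rw [e2] at y2
      rcases P.same_sys q1 q2 h3 h4 with ⟨c1, c2, c3, _⟩ | ⟨c1, c2, c3, _⟩ | ⟨c1, c2, c3, _, c5, _⟩
      · have l1 := P.Y1_le c1
        have l2 := P.Y1_le c2
        rw [if_neg c3] at y2
        exact P.C3_one (by omega) (by omega) (by omega) hb hb' hB hDd p4 hb1 he he' hα' p6 p7
          (Or.inr (y2.resolve_left (nc 0 (by omega) (by omega) (by omega)).2))
      · have l1 := P.Y2_le c1
        have l2 := P.Y2_le c2
        rw [if_neg c3] at y1
        exact P.C3_one (by omega) (by omega) (by omega) hb hb' hB hDd p4 hb1 he he' hα' p6 p7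
          (Or.inl (y1.resolve_left (nc 0 (by omega) (by omega) (by omega)).1))
      · rw [if_neg c3] at y1
        rw [if_neg c5] at y2
        exact starF (y1.resolve_left (nc 0 (by omega) (by omega) (by omega)).1)
          (y2.resolve_left (nc 0 (by omega) (by omega) (by omega)).2)
    · rw [e1] at y1
      rw [e2] at y2
      refine starF (y1.resolve_left (nc _ ?_ ?_ ?_).1) (y2.resolve_left (nc _ ?_ ?_ ?_).2) <;>
        split_ifs <;> omega
  · -- C4
    have e1 : (P.a1 v2 : ℤ) - P.a1 v = -(if P.IsY1 v2 then 1 else 0) := by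
      rw [h1, P.a1_succ]; push_cast; ring
    have e2 : (P.a2 v2 : ℤ) - P.a2 v = -(if P.IsY2 v2 then 1 else 0) := by
      rw [h1, P.a2_succ]; push_cast; ring
    have hK1 : 1 ≤ K := by
      rcases p2.eq_or_lt with h0 | h0
      · rw [← h0, h1] at p1
        push_cast at p1
        omega
      · omega
    rw [e1] at y1
    rw [e2] at y2
    refine starF (y1.resolve_left (nc _ ?_ ?_ ?_).1) (y2.resolve_left (nc _ ?_ ?_ ?_).2) <;>
      split_ifs <;> omega

end Prm

end MPbbea99N
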