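import Pool.Agent.Lib.Pbbea99N.Arr

/-!
# MP_bbea99_co: the conveyors and the letters of track `B`
-/

namespace MPbbea99N

open Finset MPbbea99 MPbbea99L

/-- counting along a subsequence -/
lemma cnt_thin (Q : ℕ → Prop) [DecidablePred Q] (N : ℕ → ℕ)
    (hN : ∀ t, N (t + 1) = N t + if Q t then 1 else 0) (R : ℕ → Prop) [DecidablePred R] {a b : ℕ}
    (h : a ≤ b) : N a ≤ N b ∧ cnt (fun t => Q t ∧ R (N t)) a b = cnt R (N a) (N b) := by
  induction b, h using Nat.le_induction with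
  | base => exact ⟨le_rfl, by rw [cnt_self, cnt_self]⟩
  | succ b h ih =>
    obtain ⟨ih1, ih2⟩ := ih
    rw [cnt_succ_right _ h, ih2, hN b]
    by_cases hQ : Q b
    · simp only [hQ, if_true, true_and]
      exact ⟨by omega, (cnt_succ_right R ih1).symm⟩
    · simp only [hQ, if_false, false_and, Nat.add_zero]
      exact ⟨ih1, trivial⟩

namespace Prm

variable (P : Prm)

lemma facts : 8 * P.k1 + P.r1 = P.m ∧ 80 * P.k2 + P.r2 = P.m ∧ 208000000 ≤ P.r1 ∧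
    P.r1 < 208000008 ∧ P.r1 + 16 ≤ P.r2 ∧ P.r2 < P.r1 + 96 ∧ 40000000000000 ≤ P.m := by
  have h1 := P.h1
  have h2 := P.h2
  have h3 := P.hm
  unfold lam at h1 h2
  refine ⟨P.e1, P.e2, by omega, by omega, P.h3, P.h4, ?_⟩
  have h4 : 10 ^ 13 * 4 ≤ 10 ^ 13 * (4 * P.q ^ 142 + 4) := Nat.mul_le_mul_left _ (by omega)
  omega

lemma s_pos : 0 < P.s := by unfold s; omega

/-- laps and slots -/
lemma divmod {i v : ℕ} (hv : v < P.s) : (P.s * i + v) / P.s = i ∧ (P.s * i + v) % P.s = v := by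
  constructor
  · rw [Nat.mul_add_div P.s_pos, Nat.div_eq_of_lt hv, Nat.add_zero]
  · rw [Nat.mul_add_mod, Nat.mod_eq_of_lt hv]

lemma exists_lap (t : ℕ) : ∃ i v, v < P.s ∧ t = P.s * i + v :=
  ⟨t / P.s, t % P.s, Nat.mod_lt _ P.s_pos, (Nat.div_add_mod t P.s).symm⟩

lemma N1_lap {i v : ℕ} (hv : v < P.s) : P.N1 (P.s * i + v) = (P.k1 - 1) * i + P.a1 v := by
  unfold N1
  rw [(P.divmod hv).1, (P.divmod hv).2]

lemma N2_lap {i v : ℕ} (hv : v < P.s) : P.N2 (P.s * i + v) = (P.k2 - 1) * i + P.a2 v := by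
  unfold N2
  rw [(P.divmod hv).1, (P.divmod hv).2]

lemma a1_succ {v : ℕ} : P.a1 (v + 1) = P.a1 v + if P.IsY1 v then 1 else 0 := by
  unfold a1 IsY1 V0
  split_ifs <;> omega

lemma a2_succ {v : ℕ} : P.a2 (v + 1) = P.a2 v + if P.IsY2 v then 1 else 0 := by
  unfold a2 IsY2
  split_ifs <;> omega

lemma a1_last : P.a1 (P.s - 1) = P.k1 - 1 ∧ ¬ P.IsY1 (P.s - 1) ∧ P.a1 0 = 0 := by
  have := P.facts
  unfold a1 IsY1 V0 s
  refine ⟨by omega, by omega, by omega⟩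

lemma a2_last : P.a2 (P.s - 1) = P.k2 - 1 ∧ ¬ P.IsY2 (P.s - 1) ∧ P.a2 0 = 0 := by
  have := P.facts
  unfold a2 IsY2 s
  refine ⟨by omega, by omega, by omega⟩

lemma N1_succ (t : ℕ) : P.N1 (t + 1) = P.N1 t + if P.IsY1 (t % P.s) then 1 else 0 := by
  obtain ⟨i, v, hv, rfl⟩ := P.exists_lap t
  rw [(P.divmod hv).2, P.N1_lap hv]
  rcases Nat.lt_or_ge (v + 1) P.s with h | h
  · rw [Nat.add_assoc, P.N1_lap h, P.a1_succ, Nat.add_assoc]
  · have hv' : v = P.s - 1 := by omega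
    have e : P.s * i + v + 1 = P.s * (i + 1) + 0 := by
      rw [Nat.mul_add, hv']; have := P.s_pos; omega
    rw [e, P.N1_lap P.s_pos, P.a1_last.2.2, hv', P.a1_last.1, if_neg P.a1_last.2.1]
    ring

lemma N2_succ (t : ℕ) : P.N2 (t + 1) = P.N2 t + if P.IsY2 (t % P.s) then 1 else 0 := by
  obtain ⟨i, v, hv, rfl⟩ := P.exists_lap t
  rw [(P.divmod hv).2, P.N2_lap hv]
  rcases Nat.lt_or_ge (v + 1) P.s with h | h
  · rw [Nat.add_assoc, P.N2_lap h, P.a2_succ, Nat.add_assoc]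
  · have hv' : v = P.s - 1 := by omega
    have e : P.s * i + v + 1 = P.s * (i + 1) + 0 := by
      rw [Nat.mul_add, hv']; have := P.s_pos; omega
    rw [e, P.N2_lap P.s_pos, P.a2_last.2.2, hv', P.a2_last.1, if_neg P.a2_last.2.1]
    ring

/-- the index of a register slot -/
lemma idx_lt {u : ℕ} (h : P.IsS u) : (u - P.V0) / 8 < lam - 1 := by
  unfold IsS at h
  omega

lemma Y_disj {u : ℕ} : ¬ (P.IsY1 u ∧ P.IsY2 u) ∧ ¬ (P.IsY1 u ∧ P.IsS u) ∧
    ¬ (P.IsY2 u ∧ P.IsS u) := by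
  unfold IsY1 IsY2 IsS
  refine ⟨?_, ?_, ?_⟩ <;> omega

/-- letters of the first conveyor -/
lemma B_c1 (t z : ℕ) (hz : z < P.k1) : P.B t = P.c1 z ↔ P.IsY1 (t % P.s) ∧ P.N1 t % P.k1 = z := by
  have hf := P.facts
  have h1 : P.N1 t % P.k1 < P.k1 := Nat.mod_lt _ (by omega)
  have h2 : P.N2 t % P.k2 < P.k2 := Nat.mod_lt _ (by omega)
  have hu : t % P.s < P.s := Nat.mod_lt _ P.s_pos
  have h3 : P.IsS (t % P.s) → P.arr (t / P.s) ((t % P.s - P.V0) / 8) < lam :=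
    fun h => P.arr_lt _ (P.idx_lt h)
  unfold B
  generalize P.N1 t % P.k1 = y1 at *
  generalize P.N2 t % P.k2 = y2 at *
  generalize P.arr (t / P.s) ((t % P.s - P.V0) / 8) = y3 at *
  generalize t % P.s = u at *
  unfold Prm.c1 Prm.c2 Prm.c3 IsY1 IsY2 IsS V0 lam s at *
  split_ifs <;> omega

/-- letters of the second conveyor -/
lemma B_c2 (t z : ℕ) (hz : z < P.k2) : P.B t = P.c2 z ↔ P.IsY2 (t % P.s) ∧ P.N2 t % P.k2 = z := by
  have hf := P.facts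
  have h1 : P.N1 t % P.k1 < P.k1 := Nat.mod_lt _ (by omega)
  have h2 : P.N2 t % P.k2 < P.k2 := Nat.mod_lt _ (by omega)
  have hu : t % P.s < P.s := Nat.mod_lt _ P.s_pos
  have h3 : P.IsS (t % P.s) → P.arr (t / P.s) ((t % P.s - P.V0) / 8) < lam :=
    fun h => P.arr_lt _ (P.idx_lt h)
  unfold B
  generalize P.N1 t % P.k1 = y1 at *
  generalize P.N2 t % P.k2 = y2 at *
  generalize P.arr (t / P.s) ((t % P.s - P.V0) / 8) = y3 at *
  generalize t % P.s = u at *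
  unfold Prm.c1 Prm.c2 Prm.c3 IsY1 IsY2 IsS V0 lam s at *
  split_ifs <;> omega

/-- register letters -/
lemma B_c3 (t z : ℕ) (hz : z < lam) : P.B t = P.c3 z ↔ P.IsS (t % P.s) ∧
    P.arr (t / P.s) ((t % P.s - P.V0) / 8) = z := by
  have hf := P.facts
  have h1 : P.N1 t % P.k1 < P.k1 := Nat.mod_lt _ (by omega)
  have h2 : P.N2 t % P.k2 < P.k2 := Nat.mod_lt _ (by omega)
  have hu : t % P.s < P.s := Nat.mod_lt _ P.s_pos
  have h3 : P.IsS (t % P.s) → P.arr (t / P.s) ((t % P.s - P.V0) / 8) < lam :=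
    fun h => P.arr_lt _ (P.idx_lt h)
  unfold B
  generalize P.N1 t % P.k1 = y1 at *
  generalize P.N2 t % P.k2 = y2 at *
  generalize P.arr (t / P.s) ((t % P.s - P.V0) / 8) = y3 at *
  generalize t % P.s = u at *
  unfold Prm.c1 Prm.c2 Prm.c3 IsY1 IsY2 IsS V0 lam s at *
  split_ifs <;> omega

/-- fixed letters -/
lemma B_F (t u : ℕ) (hu : u < P.s) (hF : P.IsF u) : P.B t = u ↔ t % P.s = u := by
  have hf := P.facts
  have h1 : P.N1 t % P.k1 < P.k1 := Nat.mod_lt _ (by omega)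
  have h2 : P.N2 t % P.k2 < P.k2 := Nat.mod_lt _ (by omega)
  have hu' : t % P.s < P.s := Nat.mod_lt _ P.s_pos
  have h3 : P.IsS (t % P.s) → P.arr (t / P.s) ((t % P.s - P.V0) / 8) < lam :=
    fun h => P.arr_lt _ (P.idx_lt h)
  unfold B
  generalize P.N1 t % P.k1 = y1 at *
  generalize P.N2 t % P.k2 = y2 at *
  generalize P.arr (t / P.s) ((t % P.s - P.V0) / 8) = y3 at *
  generalize t % P.s = u' at *
  unfold IsF Prm.c1 Prm.c2 Prm.c3 IsY1 IsY2 IsS V0 lam s at *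
  split_ifs <;> omega

lemma B_lt (t : ℕ) : P.B t < P.m + 5 := by
  have hf := P.facts
  have h1 : P.N1 t % P.k1 < P.k1 := Nat.mod_lt _ (by omega)
  have h2 : P.N2 t % P.k2 < P.k2 := Nat.mod_lt _ (by omega)
  have hu : t % P.s < P.s := Nat.mod_lt _ P.s_pos
  have h3 : P.IsS (t % P.s) → P.arr (t / P.s) ((t % P.s - P.V0) / 8) < lam :=
    fun h => P.arr_lt _ (P.idx_lt h)
  unfold B
  generalize P.N1 t % P.k1 = y1 at *
  generalize P.N2 t % P.k2 = y2 at *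
  generalize P.arr (t / P.s) ((t % P.s - P.V0) / 8) = y3 at *
  generalize t % P.s = u at *
  unfold Prm.c1 Prm.c2 Prm.c3 IsY1 IsY2 IsS V0 lam s at *
  split_ifs <;> omega

end Prm

end MPbbea99N
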