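import Pool.Agent.Lib.Pbbea99N.Sm4
import Pool.Agent.Lib.Pbbea99N.Lg

/-!
# MP_bbea99_co: the two tracks
-/

namespace MPbbea99N

open Finset MPbbea99 MPbbea99L

namespace Prm

variable (P : Prm)

/-- no windows of track `B` match at the critical distances -/
theorem main_B {T T' b : ℕ} (hB : P.BM T T' b) (hb1 : 1 ≤ b) (hbd : T + b ≤ T')
    (hdu : T' ≤ T + P.m * (2 * b + 1))
    (h : (∃ c e : ℤ, 1 ≤ c ∧ -1 ≤ e ∧ e ≤ 1 ∧ (T' : ℤ) - T = P.m * c - e) ∨
      (∃ j e : ℤ, 1 ≤ j ∧ -1 ≤ e ∧ e ≤ 1 ∧ (b : ℤ) = P.m * j + e)) : False := by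
  obtain ⟨i2, v2, hv2, hb⟩ := P.exists_lap (T + b)
  obtain ⟨i2', v2', hv2', hb'⟩ := P.exists_lap (T' + b)
  obtain ⟨i, v, hv, rfl⟩ := P.exists_lap T
  obtain ⟨i', v', hv', rfl⟩ := P.exists_lap T'
  by_cases hK : i2 ≤ i + 4 * P.q ^ 142
  · rcases h with ⟨c, e, hc, he, he', hα⟩ | ⟨j, e, hj, he, he', hβ⟩
    · exact P.alpha_case hv hv2 hv' hv2' hb hb' hB hb1 hbd hK hdu hc he he' hα
    · exact P.beta_case hv hv2 hv' hv2' hb hb' hB hb1 hbd hK hdu hj he he' hβ
  · exact P.large_case hv hv2 hv' hv2' hb hb' hB hbd (by omega) hdu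

end Prm

/-- number of positions of track `A` before `x` -/
def al (E x : ℕ) : ℕ := (E / 2) * (x / E) + (x % E) / 2

/-- number of positions of track `B` before `x` -/
def be (E x : ℕ) : ℕ := ((E + 1) / 2) * (x / E) + (x % E + 1) / 2

lemma div_mod_succ {E : ℕ} (hE : 3 ≤ E) (x : ℕ) :
    (x % E + 1 < E ∧ (x + 1) / E = x / E ∧ (x + 1) % E = x % E + 1) ∨
      (x % E = E - 1 ∧ (x + 1) / E = x / E + 1 ∧ (x + 1) % E = 0) := by
  have h1 := Nat.div_add_mod x E
  have h2 := Nat.mod_lt x (by omega : 0 < E)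
  rcases Nat.lt_or_ge (x % E + 1) E with h | h
  · left
    refine ⟨h, ?_, ?_⟩
    · have h3 : x + 1 = E * (x / E) + (x % E + 1) := by omega
      rw [h3, Nat.mul_add_div (by omega), Nat.div_eq_of_lt h, Nat.add_zero]
    · have h3 : x + 1 = E * (x / E) + (x % E + 1) := by omega
      rw [h3, Nat.mul_add_mod, Nat.mod_eq_of_lt h]
  · right
    have h3 : x + 1 = E * (x / E + 1) := by rw [Nat.mul_add]; omega
    refine ⟨by omega, ?_, ?_⟩
    · rw [h3, Nat.mul_div_cancel_left _ (by omega)]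
    · rw [h3, Nat.mul_mod_right]

lemma al_succ {E : ℕ} (hE : 3 ≤ E) (x : ℕ) :
    al E (x + 1) = al E x + if (x % E) % 2 = 1 then 1 else 0 := by
  unfold al
  rcases div_mod_succ hE x with ⟨h1, h2, h3⟩ | ⟨h1, h2, h3⟩
  · rw [h2, h3]
    split_ifs <;> omega
  · rw [h2, h3, h1, Nat.mul_add]
    split_ifs <;> omega

lemma be_succ {E : ℕ} (hE : 3 ≤ E) (x : ℕ) :
    be E (x + 1) = be E x + if (x % E) % 2 = 0 then 1 else 0 := by
  unfold be
  rcases div_mod_succ hE x with ⟨h1, h2, h3⟩ | ⟨h1, h2, h3⟩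
  · rw [h2, h3]
    split_ifs <;> omega
  · rw [h2, h3, h1, Nat.mul_add]
    split_ifs <;> omega

lemma al_add_be {E : ℕ} (x : ℕ) : al E x + be E x = x := by
  unfold al be
  have h1 := Nat.div_add_mod x E
  have h2 : E / 2 * (x / E) + (E + 1) / 2 * (x / E) = E * (x / E) := by
    rw [← Nat.add_mul]
    congr 1
    omega
  omega

lemma al_mono {E : ℕ} (hE : 3 ≤ E) {x y : ℕ} (h : x ≤ y) : al E x ≤ al E y :=
  (cnt_thin _ (al E) (al_succ hE) (fun _ => True) h).1

lemma be_mono {E : ℕ} (hE : 3 ≤ E) {x y : ℕ} (h : x ≤ y) : be E x ≤ be E y :=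
  (cnt_thin _ (be E) (be_succ hE) (fun _ => True) h).1

lemma al_add_mul {E : ℕ} (hE : 3 ≤ E) (x c : ℕ) : al E (x + E * c) = al E x + (E / 2) * c := by
  unfold al
  rw [Nat.add_mul_div_left _ _ (by omega), Nat.add_mul_mod_self_left]
  ring

lemma be_add_mul {E : ℕ} (hE : 3 ≤ E) (x c : ℕ) :
    be E (x + E * c) = be E x + ((E + 1) / 2) * c := by
  unfold be
  rw [Nat.add_mul_div_left _ _ (by omega), Nat.add_mul_mod_self_left]
  ring

/-- positions with the same number of `A` positions before -/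
lemma lev {E : ℕ} (hE : 3 ≤ E) {u u' : ℕ} (huu : u ≤ u') (h : al E u = al E u') :
    u' = u ∨ (u' = u + 1 ∧ (u % E) % 2 = 0) ∨ (u' = u + 2 ∧ u % E = E - 1 ∧ (u % E) % 2 = 0) := by
  have s1 := al_succ hE u
  have s2 := al_succ hE (u + 1)
  have s3 := al_succ hE (u + 2)
  have d1 := div_mod_succ hE u
  have d2 := div_mod_succ hE (u + 1)
  rw [show u + 1 + 1 = u + 2 by ring] at s2 d2
  rw [show u + 2 + 1 = u + 3 by ring] at s3
  have h0 := Nat.mod_lt u (by omega : 0 < E)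
  rcases Nat.lt_or_ge u' (u + 3) with h1 | h1
  · have h2 : u' = u ∨ u' = u + 1 ∨ u' = u + 2 := by omega
    rcases h2 with rfl | rfl | rfl
    · left; rfl
    · right; left
      refine ⟨rfl, ?_⟩
      rw [s1] at h
      split_ifs at h <;> omega
    · right; right
      refine ⟨rfl, ?_⟩
      rw [s2, s1] at h
      split_ifs at h <;> omega
  · exfalso
    have h2 := al_mono hE h1
    have h3 : al E u < al E (u + 3) := by
      rw [s3, s2, s1]
      split_ifs <;> omega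
    omega

/-- `A` positions are isolated -/
lemma al_le_be {E : ℕ} {x y : ℕ} (h : x ≤ y) :
    al E y + be E x ≤ be E y + al E x + 1 := by
  have e : ∀ x, be E x = al E x + ((E + 1) / 2 - E / 2) * (x / E) + (x % E) % 2 := by
    intro x
    unfold al be
    have h1 : (E + 1) / 2 = E / 2 + ((E + 1) / 2 - E / 2) := by omega
    have h2 : (E + 1) / 2 * (x / E) = E / 2 * (x / E) + ((E + 1) / 2 - E / 2) * (x / E) := by
      conv_lhs => rw [h1, Nat.add_mul]
    rw [h2]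
    omega
  rw [e x, e y]
  have h1 : ((E + 1) / 2 - E / 2) * (x / E) ≤ ((E + 1) / 2 - E / 2) * (y / E) :=
    Nat.mul_le_mul_left _ (Nat.div_le_div_right h)
  omega

end MPbbea99N
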